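import Pool.Agent.Y102.Theta3
import Pool.Agent.W516.DRComm

set_option autoImplicit false
set_option linter.unusedSectionVars false

/-!
# Bost's theorem for abelian varieties over the field of algebraic numbers
-/

open Module Filter Topology

noncomputable section

namespace Pool.Agent.Y102

open Pool.Agent.W516.DR Pool.Agent.H204R3.GP Pool.Agent.W516.KC

/-- The field of algebraic numbers. -/
abbrev QBar : Type := algebraicClosure ℚ ℂ

instance : IsAlgClosed QBar := (algebraicClosure.isAlgClosure ℚ ℂ).isAlgClosed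

theorem QBar.alg (x : QBar) : IsAlgebraic ℚ (algebraMap QBar ℂ x) :=
  mem_algebraicClosure_iff.1 x.2

namespace AbVar

variable {g : ℕ} (A : AbVar g)

/-- the basis of the de Rham cohomology -/
def basis : Basis (Fin g ⊕ Fin g) ℂ (A.H1 →ₗ[ℚ] ℂ) := Basis.mk A.indep_dR A.span_dR.ge

theorem coe_basis : (A.basis : Fin g ⊕ Fin g → (A.H1 →ₗ[ℚ] ℂ)) = A.dR := Basis.coe_mk _ _

/-- **De Rham-Betti subspaces are Hodge substructures.** -/
theorem hodge_sub {U : Submodule ℚ A.H1} (hU : IsDeRhamBettiSubspace QBar A.dR U) :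
    ∃ T : Submodule ℂ (Fin g → ℂ), finrank ℚ U = 2 * finrank ℂ T ∧ ∀ w, w ∈ U ↔ A.per w ∈ T :=
  A.dat.hodge_sub QBar.alg A.bas A.indep_per A.finrank_H1 A.span_dR U hU

/-- **De Rham-Betti endomorphisms are Hodge endomorphisms.** -/
theorem hodge_end {P : A.H1 →ₗ[ℚ] A.H1} (hP : IsDeRhamBettiEnd QBar A.dR P) :
    IsHodgeEnd (A.per : A.H1 →+ (Fin g → ℂ)) P := by
  obtain ⟨Q, hQ⟩ := A.dat.hodge_hom QBar.alg A.dat A.bas A.bas A.indep_per A.indep_per
    A.finrank_H1 A.finrank_H1 A.indep_dR A.span_dR A.span_dR P hP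
  exact ⟨Q, fun w => (hQ w).symm⟩

/-- **Homomorphisms of de Rham-Betti objects are homomorphisms of Hodge structures.** -/
theorem hodge_hom {g' : ℕ} (A' : AbVar g') {P : A.H1 →ₗ[ℚ] A'.H1}
    (hP : ∃ a : Fin g' ⊕ Fin g' → Fin g ⊕ Fin g → QBar, ∀ i w, A'.dR i (P w) =
      ∑ j, algebraMap QBar ℂ (a i j) * A.dR j w) :
    ∃ Q : (Fin g → ℂ) →ₗ[ℂ] (Fin g' → ℂ), ∀ w, A'.per (P w) = Q (A.per w) :=
  A.dat.hodge_hom QBar.alg A'.dat A.bas A'.bas A.indep_per A'.indep_per
    A.finrank_H1 A'.finrank_H1 A.indep_dR A.span_dR A'.span_dR P hP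

/-- The complex subspace is the real span of the subobject. -/
theorem real_span {U : Submodule ℚ A.H1} {T : Submodule ℂ (Fin g → ℂ)}
    (h1 : finrank ℚ U = 2 * finrank ℂ T) (h2 : ∀ w, w ∈ U ↔ A.per w ∈ T) :
    T.restrictScalars ℝ = Submodule.span ℝ (A.per '' U) := by
  symm
  apply Submodule.eq_of_le_of_finrank_eq
  · rw [Submodule.span_le]
    rintro _ ⟨w, hw, rfl⟩
    exact (h2 w).1 hw
  · apply le_antisymm
    · apply Submodule.finrank_mono
      rw [Submodule.span_le]
      rintro _ ⟨w, hw, rfl⟩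
      exact (h2 w).1 hw
    · have h3 : finrank ℝ (T.restrictScalars ℝ) = finrank ℚ U := by
        rw [h1, ← Complex.finrank_real_complex]
        exact (Module.finrank_mul_finrank ℝ ℂ T).symm
      rw [h3]
      let c := finBasis ℚ U
      have h4 := A.dat.indepR A.bas A.indep_per (finrank ℚ U) (fun i => (c i : A.H1)) (by
        have := c.linearIndependent.map' U.subtype (Submodule.ker_subtype U)
        exact this)
      have h5 : Submodule.span ℝ (Set.range fun i => A.per (c i : A.H1)) ≤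
          Submodule.span ℝ (A.per '' U) := by
        apply Submodule.span_mono
        rintro _ ⟨i, rfl⟩
        exact ⟨_, (c i).2, rfl⟩
      have h6 := finrank_span_eq_card h4
      rw [Fintype.card_fin] at h6
      calc finrank ℚ U = _ := h6.symm
        _ ≤ _ := Submodule.finrank_mono h5

theorem om_isRefl : LinearMap.BilinForm.IsRefl (A.om : LinearMap.BilinForm ℚ A.H1) := by
  intro u v h
  have h1 : ((A.om v u : ℚ) : ℝ) = -((A.om u v : ℚ) : ℝ) := by
    rw [om_coe, om_coe, E_anti]
  rw [h] at h1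
  have h2 : ((A.om v u : ℚ) : ℝ) = 0 := by rw [h1]; simp
  exact_mod_cast h2

theorem om_anti (u v : A.H1) : A.om u v = -A.om v u := by
  have h1 : ((A.om u v : ℚ) : ℝ) = ((-A.om v u : ℚ) : ℝ) := by
    rw [Rat.cast_neg, om_coe, om_coe, E_anti]
  exact_mod_cast h1

theorem tau_ne : (2 * Real.pi * Complex.I : ℂ) ≠ 0 := pi_ne

/-- A subobject is complemented by its orthogonal. -/
theorem isCompl_of_sub {U : Submodule ℚ A.H1} (hU : IsDeRhamBettiSubspace QBar A.dR U) :
    IsCompl U (LinearMap.BilinForm.orthogonal (A.om : LinearMap.BilinForm ℚ A.H1) U) := by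
  rw [LinearMap.BilinForm.isCompl_orthogonal_iff_disjoint A.om_isRefl,
    Submodule.disjoint_def]
  intro x hx hx'
  obtain ⟨T, hT1, hT2⟩ := A.hodge_sub hU
  have h1 : ∀ t ∈ T, A.E (A.per x) t = 0 := by
    intro t ht
    have h2 : t ∈ Submodule.span ℝ (A.per '' U) := by
      rw [← A.real_span hT1 hT2]
      exact ht
    induction h2 using Submodule.span_induction with
    | mem t h =>
      obtain ⟨w, hw, rfl⟩ := h
      have h3 : A.om w x = 0 := hx' w hw
      rw [← om_coe, A.om_anti, h3]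
      simp
    | zero => exact map_zero _
    | add a b ha' hb' ha hb =>
      rw [← A.real_span hT1 hT2] at ha' hb'
      rw [map_add, ha ha', hb hb', add_zero]
    | smul c a ha' ha =>
      rw [← A.real_span hT1 hT2] at ha'
      rw [map_smul, ha ha', smul_zero]
  have h2 : A.per x ∈ T := (hT2 x).1 hx
  have h3 := h1 _ (T.smul_mem Complex.I h2)
  by_contra hx0
  have h4 : A.per x ≠ 0 := by
    intro h0
    apply hx0
    apply A.om_nondeg
    intro v
    have h5 : ((A.om x v : ℚ) : ℝ) = 0 := by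
      rw [om_coe, h0]
      simp
    exact_mod_cast h5
  have h5 := A.E_pos h4
  rw [h3] at h5
  exact lt_irrefl _ h5

/-- **The de Rham-Betti object of an abelian variety is semisimple.** -/
theorem semisimple : DeRhamBettiSemisimple QBar A.dR := by
  intro U hU
  refine ⟨_, ?_, A.isCompl_of_sub hU⟩
  have hom : IsDeRhamBettiBilinear QBar A.basis (2 * Real.pi * Complex.I) A.om := by
    rw [coe_basis]
    exact A.om_drb
  rw [← coe_basis] at hU ⊢
  refine sub_of_stable A.basis (τ := 2 * Real.pi * Complex.I) _ fun D lam u hu => ?_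
  intro v hv
  have h1 := skew_of_mem A.basis tau_ne A.om hom (X0_mem A.basis tau_ne D lam) v u
  have h2 : A.om (X0 A.basis (2 * Real.pi * Complex.I) D lam v) u = 0 :=
    hu _ (stable_of_sub A.basis (τ := 2 * Real.pi * Complex.I) U hU D lam hv)
  rw [h2, zero_add] at h1
  exact h1

end AbVar

end Pool.Agent.Y102
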