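import Pool.Agent.Y102.AV13

set_option autoImplicit false
set_option linter.unusedSectionVars false

/-!
# One class of codimension two decides: the Casimir form
-/

open Module Function

noncomputable section

namespace Pool.Agent.Y102

open Pool.Agent.W516.DR Pool.Agent.H204R3.GP Pool.Agent.W516.KC Pool.Agent.H204R3.SP

namespace AbVar

variable {g : ℕ} (A : AbVar g)

theorem trace_LA : Pool.Agent.W516.KC2.TraceNondeg A.LA := by
  intro X hX htr
  have h1 := central_of_trace A.LA A.semi_LA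
    (fun X hX Y hY => A.LA_bracket hX hY) hX htr
  have h2 : X ∈ A.EA := h1
  obtain ⟨M, hM⟩ := A.hodge_end (A.mem_EA.1 h2)
  exact A.trace_sq hM (A.LA_skew hX) (htr X hX)

theorem trace_MA : Pool.Agent.W516.KC2.TraceNondeg A.MA := by
  intro X hX htr
  have h1 := central_of_trace A.MA A.semi_MA
    (fun X hX Y hY => A.MA_bracket hX hY) hX htr
  obtain ⟨M, hM⟩ := A.hodgeEnd_of_comm h1
  exact A.trace_sq hM (A.MA_skew hX) (htr X hX)

/-- the Casimir class -/
def cas : MultilinearMap ℚ (fun _ : Fin 2 × Fin 2 => A.H1) ℚ :=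
  Pool.Agent.W516.KC2.casimir A.LA A.trace_LA A.om

theorem cas_kills {Z : Module.End ℚ A.H1} (hZ : IsSkew A.om Z)
    (hn : ∀ X ∈ A.LA, Z * X - X * Z ∈ A.LA) : Kills Z A.cas :=
  Pool.Agent.W516.KC2.casimir_kills A.LA A.trace_LA A.om hZ hn

/-- The Casimir class is a de Rham-Betti class. -/
theorem cas_drb : IsDeRhamBettiForm QBar A.dR tau 2 A.cas := by
  have h1 : IsDeRhamBettiForm QBar (A.basis : Fin g ⊕ Fin g → (A.H1 →ₗ[ℚ] ℂ)) tau 2 A.cas := by
    refine drb_of_kills A.basis tau_ne _ fun X hX => ?_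
    rw [← LA_eq] at hX
    exact A.cas_kills (A.LA_skew hX) fun Y hY => A.LA_bracket hX hY
  rwa [coe_basis] at h1

/-- An element of the Lie algebra of the Hodge classes which kills the Casimir class. -/
theorem split_of_cas {Z : Module.End ℚ A.H1} (hZ : Z ∈ A.MA) (hk : Kills Z A.cas) :
    ∃ Y ∈ A.LA, Z - Y ∈ A.ZA := by
  obtain ⟨Y, hY, hcomm⟩ := Pool.Agent.W516.KC2.mem_of_kills_casimir A.LA A.trace_LA A.om
    (fun X hX Y hY => A.LA_bracket hX hY) (fun u hu => A.om_nondeg hu) (A.MA_skew hZ) hk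
  refine ⟨Y, hY, hcomm, fun u v => ?_, fun Q hQ => ?_⟩
  · have h1 := A.MA_skew hZ u v
    have h2 := A.LA_skew hY u v
    rw [LinearMap.sub_apply, LinearMap.sub_apply, map_sub, map_sub, LinearMap.sub_apply]
    linear_combination h1 - h2
  · have h1 := A.MA_comm hZ (A.hodge_end (A.mem_EA.1 hQ))
    have h2 := hQ Y hY
    rw [sub_mul, mul_sub, h1, h2]

theorem kills_sum {m : ℕ} {φ : MultilinearMap ℚ (fun _ : Fin m × Fin 2 => A.H1) ℚ}
    {X Y : Module.End ℚ A.H1} (hX : Kills X φ) (hY : Kills Y φ) : Kills (X + Y) φ := by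
  intro v
  have h1 := hX v
  have h2 := hY v
  have h3 := congrArg₂ (fun x y : ℚ => x + y) h1 h2
  simp only [add_zero] at h3
  rw [← h3, ← Finset.sum_add_distrib]
  refine Finset.sum_congr rfl fun k _ => ?_
  rw [LinearMap.add_apply, MultilinearMap.map_update_add]

/-- If the Casimir class is a Hodge class, then so are all de Rham-Betti classes that are killed by
the central skew-symmetric endomorphisms. -/
theorem hodge_of_cas (hcas : IsHodgeTensor (A.per : A.H1 →+ (Fin g → ℂ)) A.cas) {m : ℕ}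
    {φ : MultilinearMap ℚ (fun _ : Fin m × Fin 2 => A.H1) ℚ}
    (hφ : IsDeRhamBettiForm QBar A.dR tau m φ) (hz : ∀ X ∈ A.ZA, Kills X φ) :
    IsHodgeTensor (A.per : A.H1 →+ (Fin g → ℂ)) φ := by
  refine hodge_of_kills _ A.isRationalStructure φ fun Z hZ => ?_
  obtain ⟨Y, hY, hP⟩ := A.split_of_cas hZ (hZ 2 _ hcas)
  have h1 := A.kills_sum (hY m φ hφ) (hz _ hP)
  rwa [add_sub_cancel] at h1

/-- The elements of the Lie algebra of the Hodge classes are sums of commutators and central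
elements. -/
theorem MA_le {S : Submodule ℚ (Module.End ℚ A.H1)}
    (h1 : ∀ X ∈ A.MA, ∀ Y ∈ A.MA, X * Y - Y * X ∈ S)
    (h2 : ∀ X ∈ A.MA, (∀ Y ∈ A.MA, Y * X = X * Y) → X ∈ S) : A.MA ≤ S := by
  intro Z hZ
  by_contra hcon
  let T : Submodule ℚ (Module.End ℚ A.H1) := S ⊓ A.MA
  have hZT : Z ∉ T := fun h => hcon h.1
  obtain ⟨f, hf1, hf2⟩ := Submodule.exists_dual_map_eq_bot_of_notMem hZT inferInstance
  let f' : Module.Dual ℚ A.MA := f.comp A.MA.subtype
  let W := (Pool.Agent.W516.KC2.trE A.MA A.trace_MA).symm f'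
  have hW : ∀ X : A.MA, LinearMap.trace ℚ A.H1 (W.1 * X.1) = f X.1 := fun X =>
    Pool.Agent.W516.KC2.trE_symm A.MA A.trace_MA f' X
  have hf0 : ∀ X ∈ T, f X = 0 := by
    intro X hX
    have h3 : f X ∈ Submodule.map f T := Submodule.mem_map_of_mem hX
    rwa [hf2, Submodule.mem_bot] at h3
  -- `W` is central
  have hcen : ∀ Y ∈ A.MA, Y * W.1 = W.1 * Y := by
    intro Y hY
    have h4 : W.1 * Y - Y * W.1 = 0 := by
      refine A.trace_MA _ (A.MA_bracket W.2 hY) fun X hX => ?_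
      have h5 := hW ⟨_, A.MA_bracket hY hX⟩
      rw [hf0 _ ⟨h1 Y hY X hX, A.MA_bracket hY hX⟩] at h5
      rw [← h5, sub_mul, mul_sub, map_sub, map_sub, mul_assoc W.1 Y X, mul_assoc Y W.1 X,
        LinearMap.trace_mul_comm ℚ Y (W.1 * X), mul_assoc W.1 X Y]
    rw [sub_eq_zero] at h4
    exact h4.symm
  have hWS := h2 W.1 W.2 hcen
  have h6 := hW W
  rw [hf0 _ ⟨hWS, W.2⟩] at h6
  obtain ⟨M, hM⟩ := A.hodgeEnd_of_comm hcen
  have hW0 : W.1 = 0 := A.trace_sq hM (A.MA_skew W.2) h6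
  apply hf1
  rw [← hW ⟨Z, hZ⟩, hW0, zero_mul, map_zero]

/-- The criterion with the condition on the centre. -/
theorem all_of_cas (hcas : IsHodgeTensor (A.per : A.H1 →+ (Fin g → ℂ)) A.cas)
    (hc : ∀ X ∈ A.MA, (∀ Y ∈ A.MA, Y * X = X * Y) → X ∈ A.LA) {m : ℕ}
    {φ : MultilinearMap ℚ (fun _ : Fin m × Fin 2 => A.H1) ℚ}
    (hφ : IsDeRhamBettiForm QBar A.dR tau m φ) :
    IsHodgeTensor (A.per : A.H1 →+ (Fin g → ℂ)) φ := by
  have h1 : A.MA ≤ A.LA := by
    refine A.MA_le (fun X hX Y hY => ?_) hc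
    obtain ⟨X', hX', hP⟩ := A.split_of_cas hX (hX 2 _ hcas)
    obtain ⟨Y', hY', hQ⟩ := A.split_of_cas hY (hY 2 _ hcas)
    have e1 : X' * (Y - Y') = (Y - Y') * X' := hQ.1 X' hX'
    have e2 : Y' * (X - X') = (X - X') * Y' := hP.1 Y' hY'
    have e3 : (X - X') * (Y - Y') = (Y - Y') * (X - X') := hP.2.2 _ hQ.1
    have e4 : X * Y - Y * X = X' * Y' - Y' * X' := by
      have e5 : X = X' + (X - X') := (add_sub_cancel _ _).symm
      have e6 : Y = Y' + (Y - Y') := (add_sub_cancel _ _).symm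
      generalize X - X' = P at *
      generalize Y - Y' = Q at *
      subst e5 e6
      rw [add_mul, mul_add, mul_add, add_mul, mul_add, mul_add, e1, e3, ← e2]
      abel
    rw [e4]
    exact A.LA_bracket hX' hY'
  exact hodge_of_kills _ A.isRationalStructure φ fun Z hZ => h1 hZ m φ hφ

end AbVar

end Pool.Agent.Y102
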