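import Pool.Agent.Y102.AV15

set_option autoImplicit false
set_option linter.unusedSectionVars false

/-!
# Weights of de Rham-Betti classes
-/

open Module Function TensorProduct

noncomputable section

namespace Pool.Agent.Y102

open Pool.Agent.W516.DR Pool.Agent.H204R3.GP Pool.Agent.W516.KC Pool.Agent.H204R3.SP

/-- The pair of the array `a` and the form `φ` is compatible with `F` and `t`, in the twist `w`. -/
def Compat {ι W κ : Type} [Fintype ι] [AddCommGroup W] [Module ℚ W] [Fintype κ] [DecidableEq κ]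
    (F : ι → (W →ₗ[ℚ] ℂ)) (t : ℂ) (w : ℤ) (a : (κ → ι) → QBar)
    (φ : MultilinearMap ℚ (fun _ : κ => W) ℚ) : Prop :=
  ∀ v : κ → W, t ^ w * (φ v : ℂ) = ∑ J, algebraMap QBar ℂ (a J) * ∏ l, F (J l) (v l)

theorem actsBy_of_basis {k W κ ν : Type} [Field k] [CharZero k] [AddCommGroup W] [Module k W]
    [Fintype κ] [DecidableEq κ] [Fintype ν] [DecidableEq ν] (b : Basis ν k W)
    {φ : MultilinearMap k (fun _ : κ => W) k} {X : Module.End k W} {c : k}
    (h : ∀ I : κ → ν, ∑ j, φ (update (fun l => b (I l)) j (X (b (I j)))) =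
      c * φ (fun l => b (I l))) : ActsBy X φ c := by
  by_cases hκ : Fintype.card κ = 0
  · intro v
    have h0 := Fintype.card_eq_zero_iff.1 hκ
    have h1 := h (fun l => (h0.false l).elim)
    have h2 : (fun l => b ((fun l => (h0.false l).elim : κ → ν) l)) = v :=
      funext fun l => (h0.false l).elim
    rw [h2] at h1
    rw [← h1]
    exact Finset.sum_congr rfl fun k _ => (h0.false k).elim
  · have hr : (Fintype.card κ : k) ≠ 0 := Nat.cast_ne_zero.2 hκ
    have h1 : Kills (X + (-(c / Fintype.card κ)) • (1 : Module.End k W)) φ := by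
      refine kills_of_basis b _ _ fun I => ?_
      have h2 := (actsBy_one (φ := φ)).smul (-(c / Fintype.card κ)) (fun l => b (I l))
      have h3 : ∀ j, φ (update (fun l => b (I l)) j ((X + (-(c / Fintype.card κ)) •
          (1 : Module.End k W)) (b (I j)))) = φ (update (fun l => b (I l)) j (X (b (I j)))) +
          φ (update (fun l => b (I l)) j (((-(c / Fintype.card κ)) •
          (1 : Module.End k W)) (b (I j)))) := by
        intro j
        rw [LinearMap.add_apply, MultilinearMap.map_update_add]
      rw [Finset.sum_congr rfl fun j _ => h3 j, Finset.sum_add_distrib, h, h2]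
      field_simp
      ring
    have h2 := (actsBy_zero_iff.2 h1).add ((actsBy_one (φ := φ)).smul (c / Fintype.card κ))
    have h3 : X + (-(c / Fintype.card κ)) • (1 : Module.End k W) +
        (c / Fintype.card κ) • (1 : Module.End k W) = X := by module
    have h4 : 0 + c / (Fintype.card κ : k) * (Fintype.card κ : k) = c := by
      field_simp
      ring
    rwa [h3, h4] at h2

theorem scal_aux {t T S P dt R w : ℂ} (hT : T ≠ 0)
    (h : T * S + P * (w * (T / t * dt)) = 0) :
    -S - R * (dt / (2 * t) * P) = (w - R / 2) * (dt / t) * P := by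
  rw [← mul_right_inj' hT]
  linear_combination (-1 : ℂ) * h

namespace AbVar

variable {g : ℕ} (A : AbVar g)

section Acts

variable {κ : Type} [Fintype κ] [DecidableEq κ] {w : ℤ} {a : (κ → Fin g ⊕ Fin g) → QBar}
  {φ : MultilinearMap ℚ (fun _ : κ => A.H1) ℚ}

theorem XL_acts (h : Compat A.dR tau w a φ) (D : Derivation QBar ℂ ℂ) :
    ActsBy (XL A.basis tau D) (bcm (Ω := ℂ) (Module.finBasis ℚ A.H1) φ)
      (((w : ℂ) - Fintype.card κ / 2) * (D tau / tau)) := by
  have htau : (tau : ℂ) ≠ 0 := tau_ne
  refine actsBy_of_basis (ee A.basis) fun J => ?_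
  set Φ := bcm (Ω := ℂ) (Module.finBasis ℚ A.H1) φ with hΦ
  have h1 : tau ^ w * Φ (fun l => ee A.basis (J l)) = algebraMap QBar ℂ (a J) := by
    refine coef_unique A.basis (Module.finBasis ℚ A.H1) φ (tau ^ w)
      (fun J => algebraMap QBar ℂ (a J)) (fun v => ?_) J
    rw [coe_basis]
    exact h v
  have h2 := congrArg D h1
  rw [Derivation.leibniz, Derivation.map_algebraMap, Derivation.leibniz_zpow, der_bcm,
    smul_eq_mul, smul_eq_mul, smul_eq_mul, zsmul_eq_mul] at h2
  have h3 : ∀ j, Φ (update (fun l => ee A.basis (J l)) j (XL A.basis tau D (ee A.basis (J j)))) =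
      -Φ (update (fun l => ee A.basis (J l)) j (dW D (ee A.basis (J j)))) -
        (D tau / (2 * tau)) * Φ (fun l => ee A.basis (J l)) := by
    intro j
    have h2 : XL A.basis tau D (ee A.basis (J j)) = (-1 : ℂ) • dW D (ee A.basis (J j)) +
        (-(D tau / (2 * tau))) • ee A.basis (J j) := by
      unfold XL
      rw [LinearMap.sub_apply, XX_ee, LinearMap.smul_apply, Module.End.one_apply]
      module
    have h3 : update (fun l => ee A.basis (J l)) j (ee A.basis (J j)) =
        fun l => ee A.basis (J l) := update_eq_self j (fun l => ee A.basis (J l))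
    rw [h2, MultilinearMap.map_update_add, MultilinearMap.map_update_smul,
      MultilinearMap.map_update_smul, h3, smul_eq_mul, smul_eq_mul]
    ring
  rw [Finset.sum_congr rfl (fun j _ => h3 j), Finset.sum_sub_distrib, Finset.sum_neg_distrib,
    Finset.sum_const, Finset.card_univ, nsmul_eq_mul]
  have h4 : (tau : ℂ) ^ (w - 1) = tau ^ w / tau := by rw [zpow_sub_one₀ htau, div_eq_mul_inv]
  rw [h4] at h2
  have h5 : (tau : ℂ) ^ w ≠ 0 := zpow_ne_zero _ htau
  exact scal_aux h5 h2

theorem X0_acts (h : Compat A.dR tau w a φ) (D : Derivation QBar ℂ ℂ) (lam : ℂ →ₗ[ℚ] ℚ) :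
    ActsBy (X0 A.basis tau D lam) φ
      (lam (((w : ℂ) - Fintype.card κ / 2) * (D tau / tau))) := by
  intro v
  have h1 := congrArg lam (A.XL_acts h D (fun l => (1 : ℂ) ⊗ₜ[ℚ] v l))
  rw [bcm_one, map_sum] at h1
  have h2 : lam ((((w : ℂ) - Fintype.card κ / 2) * (D tau / tau)) * algebraMap ℚ ℂ (φ v)) =
      lam (((w : ℂ) - Fintype.card κ / 2) * (D tau / tau)) * φ v := by
    rw [mul_comm _ (algebraMap ℚ ℂ (φ v)), ← Algebra.smul_def, map_smul, smul_eq_mul, mul_comm]
  rw [h2] at h1
  rw [← h1]
  refine Finset.sum_congr rfl fun j _ => ?_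
  rw [cmp_bcm]
  rfl

end Acts

/-- Subobjects are stable under the Lie algebra. -/
theorem LA_stable {U : Submodule ℚ A.H1} (hU : IsDeRhamBettiSubspace QBar A.dR U)
    {X : Module.End ℚ A.H1} (hX : X ∈ A.LA) {u : A.H1} (hu : u ∈ U) : X u ∈ U := by
  obtain ⟨U', hU', hc⟩ := A.semisimple U hU
  rw [← coe_basis] at hU hU'
  let P : Module.End ℚ A.H1 := U.projection U' hc
  have hP : ∀ (D : Derivation QBar ℂ ℂ) (lam : ℂ →ₗ[ℚ] ℚ),
      X0 A.basis tau D lam * P = P * X0 A.basis tau D lam := by
    intro D lam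
    refine LinearMap.ext fun w => ?_
    obtain ⟨u, hu, u', hu', rfl⟩ : ∃ u ∈ U, ∃ u' ∈ U', u + u' = w := by
      have h2 : w ∈ U ⊔ U' := by rw [hc.sup_eq_top]; trivial
      exact Submodule.mem_sup.1 h2
    have h2 : P (u + u') = u := by
      rw [map_add]
      have e1 : P u = u := Submodule.projection_apply_of_mem_left hc hu
      have e2 : P u' = 0 := Submodule.projection_apply_of_mem_right hc hu'
      rw [e1, e2, add_zero]
    have h3 : P (X0 A.basis tau D lam (u + u')) = X0 A.basis tau D lam u := by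
      rw [map_add, map_add]
      have e1 : P (X0 A.basis tau D lam u) = X0 A.basis tau D lam u :=
        Submodule.projection_apply_of_mem_left hc (stable_of_sub A.basis (τ := tau) U hU D lam hu)
      have e2 : P (X0 A.basis tau D lam u') = 0 :=
        Submodule.projection_apply_of_mem_right hc
          (stable_of_sub A.basis (τ := tau) U' hU' D lam hu')
      rw [e1, e2, add_zero]
    rw [Module.End.mul_apply, Module.End.mul_apply, h2, h3]
  have hPE : P ∈ A.EA := by
    rw [mem_EA, ← coe_basis]
    exact end_of_comm A.basis P hP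
  have h3 := congrArg (fun T : Module.End ℚ A.H1 => T u) (hPE X hX)
  simp only [Module.End.mul_apply] at h3
  have e2 : P u = u := Submodule.projection_apply_of_mem_left hc hu
  rw [e2] at h3
  rw [h3]
  exact (Submodule.projection_apply_mem hc _ : _)

end AbVar

end Pool.Agent.Y102
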