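import Pool.Agent.Y102.AV3
import Pool.Agent.Y102.Core

set_option autoImplicit false
set_option linter.unusedSectionVars false

/-!
# Abelian varieties with many symmetric endomorphisms: the coordinates
-/

open Module Function

noncomputable section

namespace Pool.Agent.Y102

open Pool.Agent.W516.DR Pool.Agent.H204R3.GP Pool.Agent.W516.KC FT

namespace AbVar

variable {g : ℕ} (A : AbVar g)

/-- An algebra of endomorphisms which is stable under the Rosati involution. -/
structure EndAlg (C : Submodule ℚ (Module.End ℚ A.H1)) : Prop where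
  hodge : ∀ Q ∈ C, IsHodgeEnd (A.per : A.H1 →+ (Fin g → ℂ)) Q
  one : (1 : Module.End ℚ A.H1) ∈ C
  mul : ∀ Q ∈ C, ∀ Q' ∈ C, Q * Q' ∈ C
  adj : ∀ Q ∈ C, ∃ Q' ∈ C, ∀ u v, A.om (Q u) v = A.om u (Q' v)

/-- the real span of the algebra -/
def CR (C : Submodule ℚ (Module.End ℚ A.H1)) :
    Submodule ℝ ((Fin g → ℂ) →ₗ[ℝ] (Fin g → ℂ)) :=
  Submodule.span ℝ {X | ∃ Q ∈ C, X = A.ext Q}

variable {A} {C : Submodule ℚ (Module.End ℚ A.H1)} (hC : A.EndAlg C)

theorem ext_mul (Q Q' : Module.End ℚ A.H1) : A.ext (Q * Q') = (A.ext Q).comp (A.ext Q') := by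
  refine A.ext_per fun w => ?_
  rw [LinearMap.comp_apply, ext_apply, ext_apply, ext_apply]
  rfl

include hC in
theorem CR_mul {X Y : (Fin g → ℂ) →ₗ[ℝ] (Fin g → ℂ)} (hX : X ∈ A.CR C) (hY : Y ∈ A.CR C) :
    X.comp Y ∈ A.CR C := by
  unfold CR at hX
  induction hX using Submodule.span_induction with
  | mem X hX =>
    obtain ⟨Q, hQ, rfl⟩ := hX
    unfold CR at hY
    induction hY using Submodule.span_induction with
    | mem Y hY =>
      obtain ⟨Q', hQ', rfl⟩ := hY
      exact Submodule.subset_span ⟨Q * Q', hC.mul Q hQ Q' hQ', (ext_mul Q Q').symm⟩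
    | zero => rw [LinearMap.comp_zero]; exact Submodule.zero_mem _
    | add a b _ _ ha hb => rw [LinearMap.comp_add]; exact Submodule.add_mem _ ha hb
    | smul c a _ ha => rw [LinearMap.comp_smul]; exact Submodule.smul_mem _ _ ha
  | zero => rw [LinearMap.zero_comp]; exact Submodule.zero_mem _
  | add a b _ _ ha hb => rw [LinearMap.add_comp]; exact Submodule.add_mem _ ha hb
  | smul c a _ ha => rw [LinearMap.smul_comp]; exact Submodule.smul_mem _ _ ha

include hC in
theorem CR_complex {X : (Fin g → ℂ) →ₗ[ℝ] (Fin g → ℂ)} (hX : X ∈ A.CR C) (z : ℂ)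
    (u : Fin g → ℂ) : X (z • u) = z • X u := by
  unfold CR at hX
  induction hX using Submodule.span_induction with
  | mem X hX =>
    obtain ⟨Q, hQ, rfl⟩ := hX
    obtain ⟨Q', hQ'⟩ := hC.hodge Q hQ
    have h1 : A.ext Q = Q'.restrictScalars ℝ := A.ext_per fun w => by
      rw [ext_apply]
      exact (hQ' w).symm
    rw [h1]
    exact Q'.map_smul z u
  | zero => simp
  | add a b _ _ ha hb => rw [LinearMap.add_apply, LinearMap.add_apply, ha, hb, smul_add]
  | smul c a _ ha => rw [LinearMap.smul_apply, LinearMap.smul_apply, ha, smul_comm]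

include hC in
theorem CR_adj {X : (Fin g → ℂ) →ₗ[ℝ] (Fin g → ℂ)} (hX : X ∈ A.CR C) :
    ∃ Y ∈ A.CR C, ∀ u v, A.E (X u) v = A.E u (Y v) := by
  unfold CR at hX
  induction hX using Submodule.span_induction with
  | mem X hX =>
    obtain ⟨Q, hQ, rfl⟩ := hX
    obtain ⟨Q', hQ', h⟩ := hC.adj Q hQ
    refine ⟨A.ext Q', Submodule.subset_span ⟨Q', hQ', rfl⟩, fun u v => ?_⟩
    have h2 : A.E.comp (A.ext Q) = (A.E.flip.comp (A.ext Q')).flip := by
      refine A.ext_per fun u => A.ext_per fun v => ?_
      change A.E (A.ext Q (A.per u)) (A.per v) = A.E (A.per u) (A.ext Q' (A.per v))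
      rw [ext_apply, ext_apply, ← om_coe, ← om_coe, h]
    exact congrArg (fun F : (Fin g → ℂ) →ₗ[ℝ] (Fin g → ℂ) →ₗ[ℝ] ℝ => F u v) h2
  | zero => exact ⟨0, Submodule.zero_mem _, fun u v => by simp⟩
  | add a b _ _ ha hb =>
    obtain ⟨a', ha1, ha2⟩ := ha
    obtain ⟨b', hb1, hb2⟩ := hb
    refine ⟨a' + b', Submodule.add_mem _ ha1 hb1, fun u v => ?_⟩
    rw [LinearMap.add_apply, LinearMap.add_apply, map_add, map_add, LinearMap.add_apply, ha2, hb2]
  | smul c a _ ha =>
    obtain ⟨a', ha1, ha2⟩ := ha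
    refine ⟨c • a', Submodule.smul_mem _ _ ha1, fun u v => ?_⟩
    rw [LinearMap.smul_apply, LinearMap.smul_apply, map_smul, map_smul, LinearMap.smul_apply, ha2]

/-- the components of the elements of the real span -/
theorem CR_cmp {X : (Fin g → ℂ) →ₗ[ℝ] (Fin g → ℂ)} (hX : X ∈ A.CR C) (f : ℝ →ₗ[ℚ] ℚ) :
    A.cmpE f X ∈ C := by
  unfold CR at hX
  have key : ∀ (r : ℝ), A.cmpE f (r • X) ∈ C := by
    induction hX using Submodule.span_induction with
    | mem X hX =>
      obtain ⟨Q, hQ, rfl⟩ := hX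
      intro r
      have h1 : A.cmpE f (r • A.ext Q) = f r • Q := by
        refine LinearMap.ext fun w => ?_
        rw [cmpE_apply, LinearMap.smul_apply, ext_apply, cmp_smul_per, LinearMap.smul_apply]
      rw [h1]
      exact C.smul_mem _ hQ
    | zero =>
      intro r
      have h1 : A.cmpE f (r • (0 : (Fin g → ℂ) →ₗ[ℝ] (Fin g → ℂ))) = 0 := by
        refine LinearMap.ext fun w => ?_
        rw [cmpE_apply, smul_zero, LinearMap.zero_apply, LinearMap.zero_apply, map_zero]
      rw [h1]
      exact C.zero_mem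
    | add a b _ _ ha hb =>
      intro r
      have h1 : A.cmpE f (r • (a + b)) = A.cmpE f (r • a) + A.cmpE f (r • b) := by
        refine LinearMap.ext fun w => ?_
        rw [LinearMap.add_apply, cmpE_apply, cmpE_apply, cmpE_apply, smul_add,
          LinearMap.add_apply, map_add]
      rw [h1]
      exact C.add_mem (ha r) (hb r)
    | smul c a _ ha =>
      intro r
      rw [smul_smul]
      exact ha _
  have h := key 1
  rwa [one_smul] at h

/-- The independence of endomorphisms is preserved under the extension to the real numbers. -/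
theorem indep_ext {n : ℕ} {P : Fin n → Module.End ℚ A.H1} (hP : LinearIndependent ℚ P) :
    LinearIndependent ℝ (fun i => A.ext (P i)) := by
  rw [Fintype.linearIndependent_iff]
  intro r hr i
  apply exists_sep
  intro f
  rw [Fintype.linearIndependent_iff] at hP
  apply hP (fun i => f (r i)) _ i
  refine LinearMap.ext fun w => ?_
  have h1 : A.cmp f (∑ i, r i • A.ext (P i) (A.per w)) = 0 := by
    have h2 := congrArg (fun F : (Fin g → ℂ) →ₗ[ℝ] (Fin g → ℂ) => F (A.per w)) hr
    simp only [LinearMap.sum_apply, LinearMap.smul_apply, LinearMap.zero_apply] at h2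
    rw [h2, map_zero]
  rw [map_sum] at h1
  rw [LinearMap.sum_apply, LinearMap.zero_apply, ← h1]
  refine Finset.sum_congr rfl fun i _ => ?_
  rw [ext_apply, cmp_smul_per, LinearMap.smul_apply]

/-- Coordinates adapted to the algebra. -/
structure Adapted (C : Submodule ℚ (Module.End ℚ A.H1)) (e : Basis (Fin g) ℂ (Fin g → ℂ)) :
    Prop where
  /-- all real diagonal matrices belong to the real span -/
  diag : ∀ d : Fin g → ℝ, ∃ X ∈ A.CR C, ∀ k, X (e k) = (d k : ℂ) • e k
  orth : ∀ k l, k ≠ l → ∀ z w : ℂ, A.E (z • e k) (w • e l) = 0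

include hC in
/-- Adapted coordinates exist if there are enough symmetric endomorphisms. -/
theorem exists_adapted (P : Fin g → Module.End ℚ A.H1) (hP : ∀ i, P i ∈ C)
    (hcomm : ∀ i j, P i * P j = P j * P i) (hsym : ∀ i u v, A.om (P i u) v = A.om u (P i v))
    (hli : LinearIndependent ℚ P) :
    ∃ e : Basis (Fin g) ℂ (Fin g → ℂ), Adapted C e ∧
      ∃ r : Fin g → Fin g → ℝ, ∀ i k, A.ext (P i) (e k) = (r i k : ℂ) • e k := by
  choose P' hP' using fun i => hC.hodge (P i) (hP i)
  have hext : ∀ i u, A.ext (P i) u = P' i u := by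
    intro i u
    have h1 : A.ext (P i) = (P' i).restrictScalars ℝ := A.ext_per fun w => by
      rw [ext_apply]
      exact (hP' i w).symm
    rw [h1]
    rfl
  have hcomm' : ∀ i j, P' i * P' j = P' j * P' i := by
    intro i j
    refine LinearMap.ext fun u => ?_
    have h1 := ext_mul (A := A) (P i) (P j)
    rw [hcomm, ext_mul] at h1
    have h2 := congrArg (fun F : (Fin g → ℂ) →ₗ[ℝ] (Fin g → ℂ) => F u) h1
    simp only [LinearMap.comp_apply, hext] at h2
    exact h2.symm
  have hsym' : ∀ i u v, A.E (P' i u) v = A.E u (P' i v) := by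
    intro i u v
    have h2 : A.E.comp (A.ext (P i)) = (A.E.flip.comp (A.ext (P i))).flip := by
      refine A.ext_per fun u => A.ext_per fun v => ?_
      change A.E (A.ext (P i) (A.per u)) (A.per v) = A.E (A.per u) (A.ext (P i) (A.per v))
      rw [ext_apply, ext_apply, ← om_coe, ← om_coe, hsym]
    have h3 := congrArg (fun F : (Fin g → ℂ) →ₗ[ℝ] (Fin g → ℂ) →ₗ[ℝ] ℝ => F u v) h2
    rw [← hext, ← hext]
    exact h3
  obtain ⟨e, r, her⟩ := A.exists_eigenbasis P' hcomm' hsym'
  have hli' := indep_ext hli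
  have hadd : ∀ (X : (Fin g → ℂ) →ₗ[ℝ] (Fin g → ℂ)), (∀ (z : ℂ) (u : Fin g → ℂ), X (z • u) = z • X u) →
      (∀ k, X (e k) = 0) → X = 0 := by
    intro X hX h0
    refine LinearMap.ext fun u => ?_
    rw [← e.sum_repr u, map_sum]
    refine Finset.sum_eq_zero fun k _ => ?_
    rw [hX, h0, smul_zero]
  -- the eigenvalues
  have hrli : LinearIndependent ℝ r := by
    rw [Fintype.linearIndependent_iff]
    intro c hc i
    rw [Fintype.linearIndependent_iff] at hli'
    apply hli' c _ i
    apply hadd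
    · intro z u
      simp only [LinearMap.sum_apply, LinearMap.smul_apply, hext, map_smul]
      rw [Finset.smul_sum]
      exact Finset.sum_congr rfl fun i _ => smul_comm _ _ _
    · intro k
      simp only [LinearMap.sum_apply, LinearMap.smul_apply, hext, her]
      have h1 : ∀ i, c i • (r i k : ℂ) • e k = ((c i * r i k : ℝ) : ℂ) • e k := by
        intro i
        rw [Complex.ofReal_mul, mul_smul]
        rfl
      rw [Finset.sum_congr rfl fun i _ => h1 i, ← Finset.sum_smul, ← Complex.ofReal_sum]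
      have h2 := congrFun hc k
      rw [Finset.sum_apply] at h2
      simp only [Pi.smul_apply, smul_eq_mul, Pi.zero_apply] at h2
      rw [h2, Complex.ofReal_zero, zero_smul]
  have hrspan : Submodule.span ℝ (Set.range r) = ⊤ := by
    apply hrli.span_eq_top_of_card_eq_finrank'
    rw [Module.finrank_pi]
  have hdiag : ∀ d : Fin g → ℝ, ∃ X ∈ A.CR C, (∀ u v, A.E (X u) v = A.E u (X v)) ∧
      (∀ (z : ℂ) (u : Fin g → ℂ), X (z • u) = z • X u) ∧ ∀ k, X (e k) = (d k : ℂ) • e k := by
    intro d
    have hd : d ∈ Submodule.span ℝ (Set.range r) := by rw [hrspan]; trivial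
    obtain ⟨c, hc⟩ := (Submodule.mem_span_range_iff_exists_fun ℝ).1 hd
    refine ⟨∑ i, c i • A.ext (P i), Submodule.sum_mem _ fun i _ =>
      Submodule.smul_mem _ _ (Submodule.subset_span ⟨P i, hP i, rfl⟩), fun u v => ?_,
      fun z u => ?_, fun k => ?_⟩
    · simp only [LinearMap.sum_apply, LinearMap.smul_apply, map_sum, map_smul, hext, hsym']
    · simp only [LinearMap.sum_apply, LinearMap.smul_apply, hext, map_smul]
      rw [Finset.smul_sum]
      exact Finset.sum_congr rfl fun i _ => smul_comm _ _ _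
    · simp only [LinearMap.sum_apply, LinearMap.smul_apply, hext, her]
      have h1 : ∀ i, c i • (r i k : ℂ) • e k = ((c i * r i k : ℝ) : ℂ) • e k := by
        intro i
        rw [Complex.ofReal_mul, mul_smul]
        rfl
      rw [Finset.sum_congr rfl fun i _ => h1 i, ← Finset.sum_smul, ← Complex.ofReal_sum]
      have h2 := congrFun hc k
      rw [Finset.sum_apply] at h2
      simp only [Pi.smul_apply, smul_eq_mul] at h2
      rw [h2]
  refine ⟨e, ⟨fun d => ?_, fun k l hkl z w => ?_⟩, r, fun i k => by rw [hext, her]⟩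
  · obtain ⟨X, hX, -, -, h⟩ := hdiag d
    exact ⟨X, hX, h⟩
  · obtain ⟨X, hX, hs, hz, h⟩ := hdiag (Pi.single k 1)
    have h1 := hs (z • e k) (w • e l)
    rw [hz, hz, h, h, Pi.single_eq_same, Pi.single_eq_of_ne (Ne.symm hkl), Complex.ofReal_one,
      one_smul, Complex.ofReal_zero, zero_smul, smul_zero, map_zero] at h1
    exact h1

end AbVar

end Pool.Agent.Y102
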