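import Pool.Agent.Y102.AV4

set_option autoImplicit false
set_option linter.unusedSectionVars false

/-!
# Abelian varieties with many symmetric endomorphisms: the links
-/

open Module Function

noncomputable section

namespace Pool.Agent.Y102

open Pool.Agent.W516.DR Pool.Agent.H204R3.GP Pool.Agent.W516.KC FT

/-- elementary matrices -/
def El {g : ℕ} (e : Basis (Fin g) ℂ (Fin g → ℂ)) (k l : Fin g) (q : ℂ) :
    (Fin g → ℂ) →ₗ[ℝ] (Fin g → ℂ) where
  toFun u := (q * e.repr u k) • e l
  map_add' u v := by rw [map_add, Finsupp.add_apply, mul_add, add_smul]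
  map_smul' c u := by
    have h1 : c • u = (c : ℂ) • u := rfl
    rw [h1, map_smul, Finsupp.smul_apply, smul_eq_mul, RingHom.id_apply]
    have h2 : c • ((q * e.repr u k) • e l) = (c : ℂ) • ((q * e.repr u k) • e l) := rfl
    rw [h2, smul_smul]
    congr 1
    ring

section El

variable {g : ℕ} (e : Basis (Fin g) ℂ (Fin g → ℂ))

theorem El_apply (k l : Fin g) (q : ℂ) (u : Fin g → ℂ) :
    El e k l q u = (q * e.repr u k) • e l := rfl

theorem repr_smul_self (k j : Fin g) (z : ℂ) : e.repr (z • e k) j = if j = k then z else 0 := by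
  rw [map_smul, Finsupp.smul_apply, Basis.repr_self, Finsupp.single_apply, smul_eq_mul]
  by_cases h : k = j
  · subst h; simp
  · rw [if_neg h, if_neg (Ne.symm h), mul_zero]

theorem El_comp (k l m : Fin g) (q q' : ℂ) : (El e l m q').comp (El e k l q) = El e k m (q' * q) := by
  refine LinearMap.ext fun u => ?_
  rw [LinearMap.comp_apply, El_apply, El_apply, El_apply, repr_smul_self, if_pos rfl, mul_assoc]

theorem El_smul (k l : Fin g) (t : ℝ) (q : ℂ) : t • El e k l q = El e k l (t * q) := by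
  refine LinearMap.ext fun u => ?_
  rw [LinearMap.smul_apply, El_apply, El_apply]
  have h2 : t • ((q * e.repr u k) • e l) = (t : ℂ) • ((q * e.repr u k) • e l) := rfl
  rw [h2, smul_smul, mul_assoc]

theorem El_add (k l : Fin g) (q q' : ℂ) : El e k l q + El e k l q' = El e k l (q + q') := by
  refine LinearMap.ext fun u => ?_
  rw [LinearMap.add_apply, El_apply, El_apply, El_apply, ← add_smul, add_mul]

theorem El_zero (k l : Fin g) : El e k l 0 = 0 := by
  refine LinearMap.ext fun u => ?_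
  rw [El_apply, zero_mul, zero_smul, LinearMap.zero_apply]

/-- A complex linear map is the sum of its entries. -/
theorem sum_El {X : (Fin g → ℂ) →ₗ[ℝ] (Fin g → ℂ)} (hX : ∀ (z : ℂ) (u : Fin g → ℂ),
    X (z • u) = z • X u) : X = ∑ k, ∑ l, El e k l (e.repr (X (e k)) l) := by
  refine LinearMap.ext fun u => ?_
  rw [LinearMap.sum_apply]
  conv_lhs => rw [← e.sum_repr u]
  rw [map_sum]
  refine Finset.sum_congr rfl fun k _ => ?_
  rw [LinearMap.sum_apply, hX]
  conv_lhs => rw [← e.sum_repr (X (e k))]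
  rw [Finset.smul_sum]
  refine Finset.sum_congr rfl fun l _ => ?_
  rw [El_apply, smul_smul, mul_comm]

theorem ext_complex {X Y : (Fin g → ℂ) →ₗ[ℝ] (Fin g → ℂ)} (hX : ∀ (z : ℂ) (u : Fin g → ℂ),
    X (z • u) = z • X u) (hY : ∀ (z : ℂ) (u : Fin g → ℂ), Y (z • u) = z • Y u)
    (h : ∀ k, X (e k) = Y (e k)) : X = Y := by
  refine LinearMap.ext fun u => ?_
  rw [← e.sum_repr u, map_sum, map_sum]
  exact Finset.sum_congr rfl fun k _ => by rw [hX, hY, h]

end El

namespace AbVar

variable {g : ℕ} {A : AbVar g} {C : Submodule ℚ (Module.End ℚ A.H1)} (hC : A.EndAlg C)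
  {e : Basis (Fin g) ℂ (Fin g → ℂ)} (he : Adapted C e)

include hC he

theorem proj_mem (k : Fin g) : El e k k 1 ∈ A.CR C := by
  obtain ⟨X, hX, h⟩ := he.diag (Pi.single k 1)
  have h1 : El e k k 1 = X := by
    refine ext_complex e (fun z u => ?_) (fun z u => CR_complex hC hX z u) fun j => ?_
    · rw [El_apply, El_apply, map_smul, Finsupp.smul_apply, smul_eq_mul, smul_smul]
      congr 1
      ring
    · rw [h, El_apply, Basis.repr_self, Finsupp.single_apply, one_mul]
      by_cases hj : j = k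
      · subst hj; simp
      · rw [if_neg hj, Pi.single_eq_of_ne hj, Complex.ofReal_zero, zero_smul, zero_smul]
  rw [h1]
  exact hX

theorem entry_mem {X : (Fin g → ℂ) →ₗ[ℝ] (Fin g → ℂ)} (hX : X ∈ A.CR C) (k l : Fin g) :
    El e k l (e.repr (X (e k)) l) ∈ A.CR C := by
  have h1 := CR_mul hC (proj_mem hC he l) (CR_mul hC hX (proj_mem hC he k))
  have h2 : (El e l l 1).comp (X.comp (El e k k 1)) = El e k l (e.repr (X (e k)) l) := by
    refine LinearMap.ext fun u => ?_
    rw [LinearMap.comp_apply, LinearMap.comp_apply, El_apply, El_apply, El_apply, one_mul,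
      CR_complex hC hX, map_smul, Finsupp.smul_apply, smul_eq_mul, one_mul, mul_comm]
  rwa [h2] at h1

omit hC he in
theorem E_line (k : Fin g) (z w : ℂ) :
    A.E (z • e k) (w • e k) = A.E (e k) (Complex.I • e k) * dt z w := by
  have h3 : ∀ z : ℂ, z • e k = z.re • e k + z.im • (Complex.I • e k) := by
    intro z
    conv_lhs => rw [← Complex.re_add_im z]
    rw [add_smul, mul_smul]
    rfl
  have hII : Complex.I • Complex.I • e k = -(e k) := by
    rw [smul_smul, Complex.I_mul_I, neg_one_smul]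
  rw [h3, h3 w]
  simp only [map_add, map_smul, LinearMap.add_apply, LinearMap.smul_apply, (A.E_I _ _).2,
    hII, map_neg, E_self, smul_eq_mul, dt]
  ring

omit hC he in
theorem norm_pos' (k : Fin g) : 0 < A.E (e k) (Complex.I • e k) := A.E_pos (e.ne_zero k)

omit hC in
theorem E_left (l : Fin g) (z : ℂ) (v : Fin g → ℂ) :
    A.E (z • e l) v = A.E (e l) (Complex.I • e l) * dt z (e.repr v l) := by
  conv_lhs => rw [← e.sum_repr v]
  rw [map_sum, Finset.sum_eq_single l]
  · rw [E_line]
  · intro k _ hk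
    exact he.orth l k (Ne.symm hk) _ _
  · intro h
    exact absurd (Finset.mem_univ _) h

omit hC in
theorem E_expand (u v : Fin g → ℂ) :
    A.E u v = ∑ k, A.E (e k) (Complex.I • e k) * dt (e.repr u k) (e.repr v k) := by
  conv_lhs => rw [← e.sum_repr u]
  rw [map_sum, LinearMap.sum_apply]
  exact Finset.sum_congr rfl fun k _ => E_left he k _ v

omit hC in
theorem E_El (k l : Fin g) (q : ℂ) (u v : Fin g → ℂ) : A.E (El e k l q u) v =
    A.E (e l) (Complex.I • e l) * dt (q * e.repr u k) (e.repr v l) := by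
  rw [El_apply, E_left he]

theorem El_adj {k l : Fin g} {q : ℂ} (h : El e k l q ∈ A.CR C) :
    El e l k (starRingEnd ℂ q) ∈ A.CR C := by
  obtain ⟨Y, hY, hY'⟩ := CR_adj hC h
  set cl := A.E (e l) (Complex.I • e l) with hcl
  set ck := A.E (e k) (Complex.I • e k) with hck
  have hcl0 : 0 < cl := norm_pos' l
  have hck0 : 0 < ck := norm_pos' k
  have h1 : Y = El e l k (((cl / ck : ℝ) : ℂ) * starRingEnd ℂ q) := by
    refine LinearMap.ext fun v => ?_
    rw [← sub_eq_zero]
    apply A.E_nondeg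
    intro u
    have e1 : A.E u (Y v) = cl * dt (q * e.repr u k) (e.repr v l) := by
      rw [← hY', E_El he]
    have e2 : A.E u (El e l k (((cl / ck : ℝ) : ℂ) * starRingEnd ℂ q) v) =
        cl * dt (q * e.repr u k) (e.repr v l) := by
      rw [A.E_anti u, E_El he, ← hck]
      simp only [dt, Complex.mul_re, Complex.mul_im, Complex.conj_re, Complex.conj_im,
        Complex.ofReal_re, Complex.ofReal_im]
      field_simp
      ring
    rw [A.E_anti, map_sub, e1, e2, sub_self, neg_zero]
  rw [h1] at hY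
  have h2 := (A.CR C).smul_mem (ck / cl) hY
  rw [El_smul, ← mul_assoc, ← Complex.ofReal_mul, div_mul_div_cancel₀ hcl0.ne', div_self hck0.ne',
    Complex.ofReal_one, one_mul] at h2
  exact h2

/-- The relation of the indices. -/
def Rel (A : AbVar g) (C : Submodule ℚ (Module.End ℚ A.H1)) (e : Basis (Fin g) ℂ (Fin g → ℂ))
    (k l : Fin g) : Prop := ∃ q : ℂ, q ≠ 0 ∧ El e k l q ∈ A.CR C

theorem rel_equiv : Equivalence (Rel A C e) where
  refl k := ⟨1, one_ne_zero, proj_mem hC he k⟩
  symm := by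
    rintro k l ⟨q, hq, h⟩
    exact ⟨_, (map_ne_zero _).2 hq, El_adj hC he h⟩
  trans := by
    rintro k l m ⟨q, hq, h⟩ ⟨q', hq', h'⟩
    refine ⟨q' * q, mul_ne_zero hq' hq, ?_⟩
    rw [← El_comp]
    exact CR_mul hC h' h

/-- The coordinates can be normalized. -/
theorem exists_normalized : ∃ e' : Basis (Fin g) ℂ (Fin g → ℂ), Adapted C e' ∧
    (∀ k, ∃ c : ℂ, c ≠ 0 ∧ e' k = c • e k) ∧
    ∀ k l, Rel A C e' k l → El e' k l 1 ∈ A.CR C := by
  classical
  let s : Setoid (Fin g) := ⟨Rel A C e, rel_equiv hC he⟩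
  let rep : Fin g → Fin g := fun k => (Quotient.mk s k).out
  have hrep : ∀ k, Rel A C e (rep k) k := fun k => Quotient.exact (Quotient.out_eq (Quotient.mk s k))
  have hrep' : ∀ k l, Rel A C e k l → rep k = rep l := fun k l h =>
    congrArg Quotient.out (Quotient.sound h : Quotient.mk s k = Quotient.mk s l)
  choose q hq0 hq using hrep
  have hlink : ∀ k l, Rel A C e k l → El e k l (q l / q k) ∈ A.CR C := by
    intro k l hkl
    have h1 := El_adj hC he (hq k)
    have h2 := (A.CR C).smul_mem (Complex.normSq (q k))⁻¹ h1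
    have h3 : (((Complex.normSq (q k))⁻¹ : ℝ) : ℂ) * starRingEnd ℂ (q k) = (q k)⁻¹ := by
      rw [Complex.inv_def, mul_comm]
    rw [El_smul, h3, hrep' k l hkl] at h2
    have h4 := CR_mul hC (hq l) h2
    rwa [El_comp, ← div_eq_mul_inv] at h4
  let e' : Basis (Fin g) ℂ (Fin g → ℂ) := e.unitsSMul fun k => Units.mk0 (q k) (hq0 k)
  have he' : ∀ k, e' k = q k • e k := fun k => by
    rw [Basis.unitsSMul_apply]
    rfl
  have hrepr : ∀ u k, e'.repr u k = (q k)⁻¹ * e.repr u k := by
    intro u k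
    rw [Basis.repr_unitsSMul]
    rfl
  have hEl : ∀ k l x, El e' k l x = El e k l (x * (q l / q k)) := by
    intro k l x
    refine LinearMap.ext fun u => ?_
    rw [El_apply, El_apply, hrepr, he', smul_smul]
    congr 1
    ring
  refine ⟨e', ⟨fun d => ?_, fun k l hkl z w => ?_⟩, fun k => ⟨q k, hq0 k, he' k⟩,
    fun k l hkl => ?_⟩
  · obtain ⟨X, hX, h⟩ := he.diag d
    refine ⟨X, hX, fun k => ?_⟩
    rw [he', CR_complex hC hX, h, smul_comm]
  · rw [he', he', smul_smul, smul_smul]
    exact he.orth k l hkl _ _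
  · obtain ⟨x, hx0, hx⟩ := hkl
    rw [hEl] at hx
    have h1 : Rel A C e k l := ⟨_, mul_ne_zero hx0 (div_ne_zero (hq0 l) (hq0 k)), hx⟩
    rw [hEl, one_mul]
    exact hlink k l h1

end AbVar

end Pool.Agent.Y102
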