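import Pool.Agent.Y102.AV6
import Pool.Agent.W516.DRRank

set_option autoImplicit false
set_option linter.unusedSectionVars false

/-!
# The Lie algebra of an abelian variety, and the case of enough symmetric endomorphisms
-/

open Module Function

noncomputable section

namespace Pool.Agent.Y102

open Pool.Agent.W516.DR Pool.Agent.H204R3.GP Pool.Agent.W516.KC Pool.Agent.H204R3.SP FT

/-- `2 π i` -/
abbrev tau : ℂ := 2 * Real.pi * Complex.I

namespace AbVar

variable {g : ℕ} (A : AbVar g)

/-- the Lie algebra of the de Rham-Betti object -/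
def LA : Submodule ℚ (Module.End ℚ A.H1) := hh QBar A.dR tau

theorem LA_eq : A.LA = hh QBar (A.basis : Fin g ⊕ Fin g → (A.H1 →ₗ[ℚ] ℂ)) tau := by
  rw [coe_basis]
  rfl

theorem om_drb' : IsDeRhamBettiBilinear QBar (A.basis : Fin g ⊕ Fin g → (A.H1 →ₗ[ℚ] ℂ)) tau
    A.om := by
  rw [coe_basis]
  exact A.om_drb

theorem LA_skew {X : Module.End ℚ A.H1} (hX : X ∈ A.LA) : IsSkew A.om X := by
  rw [LA_eq] at hX
  exact skew_of_mem A.basis tau_ne A.om A.om_drb' hX

theorem LA_bracket {X Y : Module.End ℚ A.H1} (hX : X ∈ A.LA) (hY : Y ∈ A.LA) :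
    X * Y - Y * X ∈ A.LA := hh_bracket _ _ hX hY

/-- the algebra of the endomorphisms of the de Rham-Betti object -/
def EA : Submodule ℚ (Module.End ℚ A.H1) where
  carrier := {P | ∀ X ∈ A.LA, X * P = P * X}
  zero_mem' := fun X _ => by rw [mul_zero, zero_mul]
  add_mem' := fun {P Q} hP hQ X hX => by rw [mul_add, add_mul, hP X hX, hQ X hX]
  smul_mem' := fun c P hP X hX => by rw [mul_smul_comm, smul_mul_assoc, hP X hX]

theorem mem_EA {P : Module.End ℚ A.H1} : P ∈ A.EA ↔ IsDeRhamBettiEnd QBar A.dR P := by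
  constructor
  · intro h
    rw [← coe_basis]
    refine end_of_comm_hh A.basis (τ := tau) tau_ne P fun X hX => ?_
    rw [← LA_eq] at hX
    exact h X hX
  · intro h X hX
    rw [LA_eq] at hX
    rw [← coe_basis] at h
    exact comm_of_end A.basis tau_ne A.om (fun u hu => A.om_nondeg hu) A.om_drb' h hX

theorem om_surj {f : A.H1 →ₗ[ℚ] ℚ} : ∃ u, ∀ v, A.om u v = f v := by
  have h1 : Function.Injective A.om := by
    rw [injective_iff_map_eq_zero]
    intro u hu
    apply A.om_nondeg
    intro v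
    rw [hu]
    rfl
  have h2 : Function.Surjective A.om := by
    rw [← LinearMap.injective_iff_surjective_of_finrank_eq_finrank]
    · exact h1
    · rw [← Subspace.dual_finrank_eq]
  obtain ⟨u, hu⟩ := h2 f
  exact ⟨u, fun v => by rw [hu]⟩

/-- the adjoint endomorphism -/
theorem exists_adj (P : Module.End ℚ A.H1) :
    ∃ P' : Module.End ℚ A.H1, ∀ u v, A.om (P u) v = A.om u (P' v) := by
  have h1 : ∀ v : A.H1, ∃ w : A.H1, ∀ u, A.om (P u) v = A.om u w := by
    intro v
    obtain ⟨w, hw⟩ := A.om_surj (f := -((A.om.flip v).comp P))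
    refine ⟨w, fun u => ?_⟩
    rw [A.om_anti u w, hw]
    simp
  choose F hF using h1
  refine ⟨{ toFun := F, map_add' := fun v w => ?_, map_smul' := fun c v => ?_ }, fun u v => hF v u⟩
  · rw [← sub_eq_zero]
    apply A.om_nondeg
    intro u
    rw [A.om_anti, map_sub, map_add, ← hF, ← hF, ← hF, map_add]
    simp
  · rw [← sub_eq_zero]
    apply A.om_nondeg
    intro u
    rw [A.om_anti, map_sub, RingHom.id_apply, map_smul, ← hF, ← hF, map_smul]
    simp

theorem endAlg : A.EndAlg A.EA where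
  hodge Q hQ := A.hodge_end (A.mem_EA.1 hQ)
  one X _ := by rw [mul_one, one_mul]
  mul Q hQ Q' hQ' X hX := by rw [← mul_assoc, hQ X hX, mul_assoc, hQ' X hX, mul_assoc]
  adj Q hQ := by
    obtain ⟨Q', h⟩ := A.exists_adj Q
    refine ⟨Q', fun X hX => ?_, h⟩
    refine LinearMap.ext fun v => ?_
    rw [← sub_eq_zero]
    apply A.om_nondeg
    intro u
    have hs := A.LA_skew hX
    have e1 := hs u (Q' v)
    have e2 := hs (Q u) v
    have e3 := h (X u) v
    have e4 := h u (X v)
    have e5 : Q (X u) = X (Q u) := by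
      have := congrArg (fun T : Module.End ℚ A.H1 => T u) (hQ X hX)
      exact this.symm
    rw [e5] at e3
    rw [A.om_anti, map_sub, Module.End.mul_apply, Module.End.mul_apply, neg_eq_zero]
    linear_combination e1 - e2 + e3 + e4

theorem semi_LA : Semi A.LA := by
  rw [LA_eq]
  exact semi_hh A.basis tau_ne A.om (fun u hu => A.om_nondeg hu) A.om_drb'
    (by rw [coe_basis]; exact A.semisimple)

theorem commComm_iff {Z : Module.End ℚ A.H1} : CommComm A.LA Z ↔ ∀ Q ∈ A.EA, Z * Q = Q * Z :=
  Iff.rfl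

/-- de Rham-Betti classes are killed by the Lie algebra -/
theorem kills_of_mem {m : ℕ} {φ : MultilinearMap ℚ (fun _ : Fin m × Fin 2 => A.H1) ℚ}
    (hφ : IsDeRhamBettiForm QBar A.dR tau m φ) {X : Module.End ℚ A.H1} (hX : X ∈ A.LA) :
    Kills X φ := hX m φ hφ

/-- A real linear map which is symmetric and preserves the coordinate lines is a real diagonal
matrix. -/
theorem scalar_of_sym {e : Basis (Fin g) ℂ (Fin g → ℂ)} (k : Fin g) (x : ℂ →ₗ[ℝ] ℂ)
    (h : ∀ z w, A.E (x z • e k) (w • e k) = A.E (z • e k) (x w • e k)) :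
    ∃ s : ℝ, ∀ z, x z = s * z := by
  have hpos := norm_pos' (A := A) (e := e) k
  have h1 : ∀ z w, dt (x z) w = dt z (x w) := by
    intro z w
    have h2 := h z w
    rw [E_line, E_line] at h2
    exact mul_left_cancel₀ hpos.ne' h2
  have e1 := h1 1 Complex.I
  have e2 := h1 1 1
  have e3 := h1 Complex.I Complex.I
  simp only [dt, Complex.one_re, Complex.one_im, Complex.I_re, Complex.I_im] at e1 e2 e3
  refine ⟨(x 1).re, fun z => ?_⟩
  have h2 : x z = z.re • x 1 + z.im • x Complex.I := by
    have h3 : z = z.re • (1 : ℂ) + z.im • Complex.I := by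
      apply Complex.ext <;> simp
    conv_lhs => rw [h3]
    rw [map_add, map_smul, map_smul]
  have h3 : x 1 = ((x 1).re : ℂ) := by
    apply Complex.ext
    · rw [Complex.ofReal_re]
    · rw [Complex.ofReal_im]; linarith
  have h4 : x Complex.I = ((x 1).re : ℂ) * Complex.I := by
    apply Complex.ext
    · simp; linarith
    · simp; linarith
  rw [h2, h4, h3]
  simp only [Complex.real_smul, Complex.ofReal_re]
  conv_rhs => rw [← Complex.re_add_im z]
  ring

/-- **Symmetric endomorphisms of the homology which commute with the endomorphisms belong to the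
real span of the endomorphisms**, if there are enough symmetric endomorphisms. -/
theorem mem_CR_of_sym {C : Submodule ℚ (Module.End ℚ A.H1)} (hC : A.EndAlg C)
    {e : Basis (Fin g) ℂ (Fin g → ℂ)} (he : Adapted C e) {X : Module.End ℚ A.H1}
    (hs : ∀ u v, A.om (X u) v = A.om u (X v)) (hc : ∀ Q ∈ C, X * Q = Q * X) :
    A.ext X ∈ A.CR C := by
  -- commutation with the real span
  have hcR : ∀ Y ∈ A.CR C, ∀ u, A.ext X (Y u) = Y (A.ext X u) := by
    intro Y hY
    unfold CR at hY
    induction hY using Submodule.span_induction with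
    | mem Y hY =>
      obtain ⟨Q, hQ, rfl⟩ := hY
      intro u
      have h1 := ext_mul (A := A) X Q
      rw [hc Q hQ, ext_mul] at h1
      exact (congrArg (fun F : (Fin g → ℂ) →ₗ[ℝ] (Fin g → ℂ) => F u) h1).symm
    | zero => intro u; simp
    | add a b _ _ ha hb => intro u; rw [LinearMap.add_apply, map_add, ha, hb]; rfl
    | smul c a _ ha => intro u; rw [LinearMap.smul_apply, map_smul, ha]; rfl
  have hsR : ∀ u v, A.E (A.ext X u) v = A.E u (A.ext X v) := by
    have h2 : A.E.comp (A.ext X) = (A.E.flip.comp (A.ext X)).flip := by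
      refine A.ext_per fun u => A.ext_per fun v => ?_
      change A.E (A.ext X (A.per u)) (A.per v) = A.E (A.per u) (A.ext X (A.per v))
      rw [ext_apply, ext_apply, ← om_coe, ← om_coe, hs]
    exact fun u v => congrArg (fun F : (Fin g → ℂ) →ₗ[ℝ] (Fin g → ℂ) →ₗ[ℝ] ℝ => F u v) h2
  -- the action on the lines
  let x : Fin g → (ℂ →ₗ[ℝ] ℂ) := fun k =>
    { toFun := fun z => e.repr (A.ext X (z • e k)) k
      map_add' := fun z w => by rw [add_smul, map_add, map_add, Finsupp.add_apply]
      map_smul' := fun c z => by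
        rw [smul_assoc, map_smul, repr_real_smul, RingHom.id_apply, Complex.real_smul] }
  have hline : ∀ k (z : ℂ), A.ext X (z • e k) = x k z • e k := by
    intro k z
    have h1 := hcR _ (proj_mem hC he k) (z • e k)
    rw [El_apply, El_apply, repr_smul_self, if_pos rfl, one_mul, one_mul] at h1
    exact h1
  choose s hs' using fun k => A.scalar_of_sym (e := e) k (x k) fun z w => by
    rw [← hline, ← hline, hsR]
  obtain ⟨Y, hY, hY'⟩ := he.diag s
  have h1 : A.ext X = Y := by
    refine LinearMap.ext fun u => ?_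
    rw [← e.sum_repr u, map_sum, map_sum]
    refine Finset.sum_congr rfl fun k _ => ?_
    rw [hline, hs', CR_complex hC hY, hY', smul_smul, mul_comm]
  rw [h1]
  exact hY

/-- Such endomorphisms are endomorphisms of the abelian variety. -/
theorem mem_EA_of_sym {e : Basis (Fin g) ℂ (Fin g → ℂ)} (he : Adapted A.EA e)
    {X : Module.End ℚ A.H1} (hs : ∀ u v, A.om (X u) v = A.om u (X v))
    (hc : ∀ Q ∈ A.EA, X * Q = Q * X) : X ∈ A.EA := by
  have h1 := A.mem_CR_of_sym A.endAlg he hs hc
  obtain ⟨lam, hlam⟩ : ∃ lam : ℝ →ₗ[ℚ] ℚ, lam 1 = 1 := by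
    obtain ⟨G, hG⟩ := exists_lin (F := ℚ) (v := fun _ : Unit => (1 : ℝ)) (by
      rw [linearIndependent_unique_iff]
      exact one_ne_zero) (fun _ => (1 : ℚ))
    exact ⟨G, hG ()⟩
  have h2 := CR_cmp h1 lam
  have h3 : A.cmpE lam (A.ext X) = X := by
    refine LinearMap.ext fun w => ?_
    rw [cmpE_apply, ext_apply]
    have h4 := A.cmp_smul_per lam 1 (X w)
    rw [one_smul, hlam, one_smul] at h4
    exact h4
  rwa [h3] at h2

/-- **The case without complex multiplication.** -/
theorem products_of_real (P : Fin g → Module.End ℚ A.H1)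
    (hP : ∀ i, IsDeRhamBettiEnd QBar A.dR (P i))
    (hcomm : ∀ i j, P i * P j = P j * P i) (hsym : ∀ i u v, A.om (P i u) v = A.om u (P i v))
    (hli : LinearIndependent ℚ P)
    (hreal : ∀ Q : Module.End ℚ A.H1, IsDeRhamBettiEnd QBar A.dR Q →
      (∀ i, Q * P i = P i * Q) → ∀ u v, A.om (Q u) v = A.om u (Q v))
    {m : ℕ} (φ : MultilinearMap ℚ (fun _ : Fin m × Fin 2 => A.H1) ℚ)
    (hφ : IsDeRhamBettiForm QBar A.dR tau m φ) :
    φ ∈ Submodule.span ℚ (LefProd A A.EA m) := by
  obtain ⟨e, he, -⟩ := exists_adapted A.endAlg P (fun i => A.mem_EA.2 (hP i)) hcomm hsym hli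
  obtain ⟨e', he', -, hn⟩ := exists_normalized A.endAlg he
  refine lefschetz A.endAlg he' hn φ fun Z hZ hZc => A.kills_of_mem hφ ?_
  refine mem_of_rank_two A.LA A.semi_LA (fun X hX Y hY => A.LA_bracket hX hY) A.om
    (fun X hX => A.LA_skew hX) ?_ (fun u hu => A.om_nondeg hu) ?_ hZ hZc
  · -- the center
    intro Z hZs hZc hZcc
    have h1 : Z ∈ A.EA := hZc
    have h2 := hreal Z (A.mem_EA.1 h1) fun i => hZcc (P i) (A.mem_EA.2 (hP i))
    refine LinearMap.ext fun u => ?_
    apply A.om_nondeg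
    intro v
    have h3 := hZs u v
    rw [← h2 u v] at h3
    exact add_self_eq_zero.1 h3
  · intro X hX hXs Y hY
    exact A.mem_EA_of_sym he hXs hX Y hY

end AbVar

end Pool.Agent.Y102
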