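import Mathlib
import Pool.Agent.W516.DRDefs

set_option autoImplicit false

/-!
# Abelian varieties over the field of algebraic numbers, in terms of theta functions

Every abelian variety `A` of dimension `g` over the field `ℚ̄` of algebraic numbers gives data as in
`AbVar g`. Let `z 1, ..., z g` be the coordinates of the tangent space at the origin given by a basis
of the invariant differentials of `A / ℚ̄`, and let `Λ` be the lattice of periods. Let `M` be a
projectively normal very ample line bundle on `A` (for instance the third power of an ample one),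
with a basis of the sections over `ℚ̄` the first of which does not vanish at the origin. The pull
back of `M` to the tangent space is trivial, and the sections become theta functions `θ i`, with
`θ i (z + λ) = exp (∑ k, η λ k * z k + c λ) * θ i z`. The trivialization can be changed by the
exponential function of a polynomial of degree at most two. So one can assume that `θ 0 0 = 1` and
that the first derivatives of `θ 0` at the origin are zero (so algebraic). The quotients `θ i / θ 0`
are rational functions on `A / ℚ̄` and give an embedding of an open subset. The second logarithmic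
derivatives `∂ k ∂ l (log θ 0)` are rational functions on `A` over `ℂ` whose polar parts are defined
over `ℚ̄` (they are given by local equations of the divisor of `θ 0`), so each of them is the sum of
a rational function on `A / ℚ̄` and of a constant, and by the choice of the polynomial one can assume
that these constants are zero. The derivatives `∂ k (θ i / θ 0)` and `∂ k ∂ l (log θ 0)` become, after
the multiplication by `(θ 0) ^ 2`, sections of `M ^ 2` over `ℚ̄`, so quadratic forms in the `θ i` with
coefficients in `ℚ̄`. The form `(λ, μ) ↦ (∑ k, η λ k * μ k - η μ k * λ k) / (2 π i)` is the Riemann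
form of `M`. The classes of the `d z k` and of the differentials of the second kind
`d (∂ k (log θ 0))` form a basis of `H^1_dR(A / ℚ̄)`.
-/

namespace Pool.Agent.Y102

open Module

noncomputable section

/-- The partial derivative. -/
def pd {g : ℕ} (k : Fin g) (f : (Fin g → ℂ) → ℂ) (z : Fin g → ℂ) : ℂ :=
  fderiv ℂ f z (Pi.single k 1)

/-- The Riemann form: the real bilinear form with the value
`(∑ k, η i k * lam j k - η j k * lam i k) / (2 π i)` on the vectors `lam i`, `lam j`. -/
def riemannForm {g : ℕ} (lam : Basis (Fin (2 * g)) ℝ (Fin g → ℂ)) (η : Fin (2 * g) → Fin g → ℂ)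
    (u v : Fin g → ℂ) : ℂ :=
  (∑ k, ((∑ j, lam.repr u j * η j k) * v k - (∑ j, lam.repr v j * η j k) * u k)) /
    (2 * Real.pi * Complex.I)

/-- An abelian variety `A` of dimension `g` over the field of algebraic numbers, with a projective
embedding, in terms of the theta functions which give the embedding. -/
structure AbVar (g : ℕ) where
  /-- the basis of the lattice of periods, `A = ℂ ^ g / Λ` -/
  lam : Basis (Fin (2 * g)) ℝ (Fin g → ℂ)
  /-- the dimension of the projective space -/
  N : ℕ
  /-- the theta functions -/
  θ : Fin (N + 1) → (Fin g → ℂ) → ℂ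
  entire : ∀ i, AnalyticOnNhd ℂ (θ i) Set.univ
  /-- the quasi-periods of the logarithmic derivatives of the theta functions -/
  η : Fin (2 * g) → Fin g → ℂ
  c : Fin (2 * g) → ℂ
  quasiperiodic : ∀ i j z, θ i (z + lam j) = Complex.exp (∑ k, η j k * z k + c j) * θ i z
  positive : ∀ u, u ≠ 0 → 0 < (riemannForm lam η u (Complex.I • u)).re
  /-- the origin is a point over the field of algebraic numbers -/
  origin : θ 0 0 = 1 ∧ (∀ i, IsAlgebraic ℚ (θ i 0)) ∧ ∀ k, IsAlgebraic ℚ (pd k (θ 0) 0)
  /-- the map to the projective space is an immersion at the origin -/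
  immersion : ∀ v, (∀ i, θ 0 0 * fderiv ℂ (θ i) 0 v = θ i 0 * fderiv ℂ (θ 0) 0 v) → v = 0
  /-- the invariant differentials `d z k` are defined over the field of algebraic numbers -/
  first : ∀ k i, ∃ a : Fin (N + 1) → Fin (N + 1) → ℂ, (∀ p q, IsAlgebraic ℚ (a p q)) ∧
    ∀ z, θ 0 z * pd k (θ i) z - θ i z * pd k (θ 0) z = ∑ p, ∑ q, a p q * (θ p z * θ q z)
  /-- the differentials of the second kind `d (∂ k (log θ 0))` are defined over the field of
  algebraic numbers -/
  second : ∀ k l, ∃ b : Fin (N + 1) → Fin (N + 1) → ℂ, (∀ p q, IsAlgebraic ℚ (b p q)) ∧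
    ∀ z, θ 0 z * pd l (pd k (θ 0)) z - pd l (θ 0) z * pd k (θ 0) z =
      ∑ p, ∑ q, b p q * (θ p z * θ q z)

namespace AbVar

variable {g : ℕ} (A : AbVar g)

/-- The rational homology `H_1(A, ℚ)`, with the basis given by the basis of the lattice. -/
abbrev H1 (_ : AbVar g) : Type := Fin (2 * g) → ℚ

/-- The inclusion of the rational homology in the tangent space: the periods of the invariant
differentials `d z k`. -/
def per : A.H1 →ₗ[ℚ] (Fin g → ℂ) := Fintype.linearCombination ℚ (fun j => A.lam j)

/-- The periods of the differentials of the second kind `d (∂ k (log θ 0))`. -/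
def eta : A.H1 →ₗ[ℚ] (Fin g → ℂ) := Fintype.linearCombination ℚ A.η

/-- The basis of `H^1_dR(A / ℚ̄)` given by the `d z k` and the `d (∂ k (log θ 0))`: the periods
as linear functions on the homology. -/
def dR : Fin g ⊕ Fin g → (A.H1 →ₗ[ℚ] ℂ) :=
  Sum.elim (fun k => ((LinearMap.proj k : (Fin g → ℂ) →ₗ[ℂ] ℂ).restrictScalars ℚ).comp A.per)
    (fun k => ((LinearMap.proj k : (Fin g → ℂ) →ₗ[ℂ] ℂ).restrictScalars ℚ).comp A.eta)

end AbVar

end

end Pool.Agent.Y102
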