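import Pool.Agent.Y102.Sub2
import Pool.Agent.W516.DRComm

set_option autoImplicit false

/-!
# De Rham-Betti subspaces and the theorem on subspaces
-/

open Filter Topology Module MvPolynomial

noncomputable section

namespace Pool.Agent.Y102

open Pool.Agent.W516.DR

namespace Dat

variable {ι κ : Type} [Fintype ι] [Fintype κ] [DecidableEq ι] [DecidableEq κ] {W : Type}
  [AddCommGroup W] [Module ℚ W] (d : Dat ι κ W)

/-- the periods as linear functions -/
def pp : ι ⊕ κ → (W →ₗ[ℚ] ℂ) :=
  Sum.elim (fun i => ((LinearMap.proj i : (ι → ℂ) →ₗ[ℂ] ℂ).restrictScalars ℚ).comp d.per)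
    (fun k => ((LinearMap.proj k : (κ → ℂ) →ₗ[ℂ] ℂ).restrictScalars ℚ).comp d.eta)

@[simp] theorem pp_inl (i : ι) (w : W) : d.pp (Sum.inl i) w = d.per w i := rfl

@[simp] theorem pp_inr (k : κ) (w : W) : d.pp (Sum.inr k) w = d.eta w k := rfl

variable {K : Type} [Field K] [Algebra K ℂ] (hK : ∀ x : K, IsAlgebraic ℚ (algebraMap K ℂ x))

include hK in
/-- A de Rham-Betti subspace gives a subspace to which the transcendence theory applies. -/
theorem exists_Sb [FiniteDimensional ℚ W] (hsp : Submodule.span ℂ (Set.range d.pp) = ⊤)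
    (U : Submodule ℚ W) (hU : IsDeRhamBettiSubspace K d.pp U) (hU0 : 0 < finrank ℚ U) :
    ∃ b : d.Sb (finrank ℚ U), Submodule.span ℚ (Set.range b.w) = U := by
  classical
  unfold IsDeRhamBettiSubspace at hU
  obtain ⟨κ', f, hf, hspf, hli'⟩ :=
    exists_linearIndependent' K (fun (i : ι ⊕ κ) (u : U) => d.pp i u)
  have _ : Finite κ' := Finite.of_injective f hf
  have _ : Fintype κ' := Fintype.ofFinite κ'
  have hcard : Fintype.card κ' = finrank ℚ U := by
    rw [← finrank_span_eq_card hli', hspf, hU]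
  let e : Fin (finrank ℚ U) ≃ κ' := (Fintype.equivFinOfCardEq hcard).symm
  let g : Fin (finrank ℚ U) → ι ⊕ κ := fun s => f (e s)
  have hli : LinearIndependent K (fun (s : Fin (finrank ℚ U)) (u : U) => d.pp (g s) u) :=
    hli'.comp e e.injective
  -- the coefficients
  have hc : ∀ i, ∃ a : Fin (finrank ℚ U) → K, ∀ u : U,
      d.pp i u = ∑ s, algebraMap K ℂ (a s) * d.pp (g s) u := by
    intro i
    have h1 : (fun u : U => d.pp i u) ∈
        Submodule.span K (Set.range ((fun (i : ι ⊕ κ) (u : U) => d.pp i u) ∘ f)) := by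
      rw [hspf]
      exact Submodule.subset_span ⟨i, rfl⟩
    obtain ⟨a, ha⟩ := (Submodule.mem_span_range_iff_exists_fun K).1 h1
    refine ⟨fun s => a (e s), fun u => ?_⟩
    have h2 := congrFun ha u
    rw [Finset.sum_apply] at h2
    simp only [Pi.smul_apply, Algebra.smul_def, Function.comp_apply] at h2
    rw [← h2, ← Equiv.sum_comp e]
  choose a ha using hc
  have hag : ∀ t s, a (g t) s = if s = t then 1 else 0 := by
    intro t s
    have h1 : ∑ s, (a (g t) s - if s = t then 1 else 0) •
        (fun (u : U) => d.pp (g s) u) = 0 := by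
      funext u
      rw [Finset.sum_apply]
      simp only [Pi.smul_apply, Algebra.smul_def, map_sub, sub_mul, Finset.sum_sub_distrib]
      rw [← ha, Finset.sum_eq_single t]
      · rw [if_pos rfl, map_one, one_mul, sub_self]
        rfl
      · intro s _ hs
        rw [if_neg hs, map_zero, zero_mul]
      · intro h
        exact absurd (Finset.mem_univ _) h
    have h2 := Fintype.linearIndependent_iff.1 hli _ h1 s
    exact sub_eq_zero.1 h2
  -- the span over the complex numbers
  have hres : ∀ F : U →ₗ[ℚ] ℂ, ∃ c : Fin (finrank ℚ U) → ℂ, ∀ u, F u = ∑ s, c s * d.pp (g s) u := by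
    intro F
    obtain ⟨G, hG⟩ := LinearMap.exists_extend F
    have h1 : G ∈ Submodule.span ℂ (Set.range d.pp) := by rw [hsp]; trivial
    obtain ⟨c, hc⟩ := (Submodule.mem_span_range_iff_exists_fun ℂ).1 h1
    refine ⟨fun s => ∑ i, c i * algebraMap K ℂ (a i s), fun u => ?_⟩
    have h2 : F u = G u := by
      rw [← hG]
      rfl
    have h3 : ∀ i, (c i • d.pp i) (u : W) =
        ∑ s, (c i * algebraMap K ℂ (a i s)) * d.pp (g s) u := by
      intro i
      rw [LinearMap.smul_apply, smul_eq_mul, ha i u, Finset.mul_sum]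
      exact Finset.sum_congr rfl fun s _ => by ring
    rw [h2, ← hc, LinearMap.sum_apply, Finset.sum_congr rfl fun i _ => h3 i, Finset.sum_comm]
    exact Finset.sum_congr rfl fun s _ => by rw [Finset.sum_mul]
  -- the vectors
  have hm : ∀ k, ∃ m : ℕ, 0 < m ∧ m • ((finBasis ℚ U k : U) : W) ∈ d.Λ := fun k => d.full _
  choose m hm0 hm using hm
  let w : Fin (finrank ℚ U) → W := fun k => m k • ((finBasis ℚ U k : U) : W)
  have hwU : ∀ k, w k ∈ U := fun k => U.smul_of_tower_mem (m k) (finBasis ℚ U k).2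
  let M : (Fin (finrank ℚ U) → ℂ) →L[ℂ] (ι → ℂ) := LinearMap.toContinuousLinearMap
    (Matrix.mulVecLin (Matrix.of fun i s => algebraMap K ℂ (a (Sum.inl i) s)))
  let M' : (Fin (finrank ℚ U) → ℂ) →L[ℂ] (κ → ℂ) := LinearMap.toContinuousLinearMap
    (Matrix.mulVecLin (Matrix.of fun i s => algebraMap K ℂ (a (Sum.inr i) s)))
  have hM : ∀ x i, M x i = ∑ s, algebraMap K ℂ (a (Sum.inl i) s) * x s := fun x i => rfl
  have hM' : ∀ x i, M' x i = ∑ s, algebraMap K ℂ (a (Sum.inr i) s) * x s := fun x i => rfl
  have hMs : ∀ s i, M (Pi.single s 1) i = algebraMap K ℂ (a (Sum.inl i) s) := by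
    intro s i
    rw [hM, Finset.sum_eq_single s]
    · rw [Pi.single_eq_same, mul_one]
    · intro t _ ht
      rw [Pi.single_eq_of_ne ht, mul_zero]
    · intro h
      exact absurd (Finset.mem_univ _) h
  have hMs' : ∀ s i, M' (Pi.single s 1) i = algebraMap K ℂ (a (Sum.inr i) s) := by
    intro s i
    rw [hM', Finset.sum_eq_single s]
    · rw [Pi.single_eq_same, mul_one]
    · intro t _ ht
      rw [Pi.single_eq_of_ne ht, mul_zero]
    · intro h
      exact absurd (Finset.mem_univ _) h
  refine ⟨⟨hU0, M, M', fun s i => by rw [hMs]; exact hK _, fun s i => by rw [hMs']; exact hK _,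
    fun k s => d.pp (g s) (w k), ?_, w, hm, ?_, ?_, ?_⟩, ?_⟩
  · rw [Fintype.linearIndependent_iff]
    intro c hc k
    have h0 : ∀ s, ∑ j, c j * d.pp (g s) (w j) = 0 := by
      intro s
      have h1 := congrFun hc s
      rw [Finset.sum_apply] at h1
      simpa only [Pi.smul_apply, smul_eq_mul, Pi.zero_apply] using h1
    have h1 : ∀ F : U →ₗ[ℚ] ℂ, ∑ j, c j * F (m j • finBasis ℚ U j) = 0 := by
      intro F
      obtain ⟨c', hc'⟩ := hres F
      have h2 : ∀ j, c j * F (m j • finBasis ℚ U j) = ∑ s, c' s * (c j * d.pp (g s) (w j)) := by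
        intro j
        rw [hc', Finset.mul_sum]
        refine Finset.sum_congr rfl fun s _ => ?_
        have h3 : (((m j • finBasis ℚ U j : U)) : W) = w j := by simp [w]
        rw [h3]
        ring
      rw [Finset.sum_congr rfl fun j _ => h2 j, Finset.sum_comm]
      refine Finset.sum_eq_zero fun s _ => ?_
      rw [← Finset.mul_sum, h0, mul_zero]
    have h2 := h1 ((Algebra.linearMap ℚ ℂ).comp ((finBasis ℚ U).coord k))
    rw [Finset.sum_eq_single k] at h2
    · rw [LinearMap.comp_apply, map_nsmul, Basis.coord_apply, Basis.repr_self,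
        Finsupp.single_eq_same] at h2
      rcases mul_eq_zero.1 h2 with h3 | h3
      · exact h3
      · exfalso
        have h4 := (hm0 k).ne'
        rw [nsmul_eq_mul, mul_one, Algebra.linearMap_apply, map_natCast] at h3
        exact h4 (by exact_mod_cast h3)
    · intro j _ hj
      rw [LinearMap.comp_apply, map_nsmul, Basis.coord_apply, Basis.repr_self,
        Finsupp.single_eq_of_ne (by first | exact hj | exact Ne.symm hj), smul_zero, map_zero, mul_zero]
    · intro h
      exact absurd (Finset.mem_univ _) h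
  · intro k
    funext i
    rw [hM]
    exact (ha (Sum.inl i) ⟨w k, hwU k⟩).symm
  · intro k
    funext i
    rw [hM']
    exact (ha (Sum.inr i) ⟨w k, hwU k⟩).symm
  · intro x hx hx'
    funext t
    have h1 : ∑ s, algebraMap K ℂ (a (g t) s) * x s = 0 := by
      rcases hgt : g t with i | i
      · rw [← hM, hx]; rfl
      · rw [← hM', hx']; rfl
    rw [Finset.sum_eq_single t] at h1
    · rw [hag, if_pos rfl, map_one, one_mul] at h1
      exact h1
    · intro s _ hs
      rw [hag, if_neg hs, map_zero, zero_mul]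
    · intro h
      exact absurd (Finset.mem_univ _) h
  · apply le_antisymm
    · rw [Submodule.span_le]
      rintro _ ⟨k, rfl⟩
      exact hwU k
    · intro u hu
      have h1 := (finBasis ℚ U).sum_repr ⟨u, hu⟩
      have h2 : u = ∑ k, ((finBasis ℚ U).repr ⟨u, hu⟩ k) • ((finBasis ℚ U k : U) : W) := by
        conv_lhs => rw [show u = ((⟨u, hu⟩ : U) : W) from rfl, ← h1]
        rw [Submodule.coe_sum]
        rfl
      rw [h2]
      refine Submodule.sum_mem _ fun k _ => ?_
      have h3 : ((finBasis ℚ U k : U) : W) = (m k : ℚ)⁻¹ • w k := by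
        have : (m k : ℚ) ≠ 0 := by exact_mod_cast (hm0 k).ne'
        simp only [w]
        rw [← Nat.cast_smul_eq_nsmul ℚ, smul_smul, inv_mul_cancel₀ this, one_smul]
      rw [h3]
      exact Submodule.smul_mem _ _ (Submodule.smul_mem _ _ (Submodule.subset_span ⟨k, rfl⟩))

end Dat

end Pool.Agent.Y102
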