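import Pool.Agent.Y102.T1

set_option autoImplicit false
set_option linter.unusedSectionVars false
set_option linter.unusedSimpArgs false

/-!
# Goursat's lemma for subalgebras of a product of copies of `sl(2)`
-/

open Matrix

noncomputable section

namespace Pool.Agent.Y102.TA

/-- the matrix units -/
def U (r s : Fin 2) : S := Matrix.single r s 1

theorem U_mul (r s t u : Fin 2) : U r s * U t u = if s = t then U r u else 0 := by
  unfold U
  split_ifs with h
  · subst h
    rw [Matrix.single_mul_single_same, mul_one]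
  · exact Matrix.single_mul_single_of_ne (1 : ℂ) r s t h 1

theorem E_eq : E = U 0 1 := by
  ext i j
  fin_cases i <;> fin_cases j <;> simp [mk, E, U, Matrix.single]

theorem F_eq : F = U 1 0 := by
  ext i j
  fin_cases i <;> fin_cases j <;> simp [mk, F, U, Matrix.single]

theorem sum_U (x : S) : x = ∑ r, ∑ s, x r s • U r s := by
  simp only [Fin.sum_univ_two]
  ext i j
  fin_cases i <;> fin_cases j <;> simp [U, Matrix.single]

theorem U_one : U 0 0 + U 1 1 = (1 : S) := by
  ext i j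
  fin_cases i <;> fin_cases j <;> simp [U, Matrix.single]

theorem EF_eq : E * F = U 0 0 := by rw [E_eq, F_eq, U_mul, if_pos rfl]

theorem FE_eq : F * E = U 1 1 := by rw [E_eq, F_eq, U_mul, if_pos rfl]

/-- traceless matrices of size two -/
theorem anti {x y : S} (hx : x.trace = 0) (hy : y.trace = 0) :
    x * y + y * x = (x * y).trace • (1 : S) := by
  rw [eq_mk hx, eq_mk hy]
  ext i j
  fin_cases i <;> fin_cases j <;>
    simp [mk, Matrix.mul_apply, Fin.sum_univ_two, Matrix.trace_fin_two] <;> ring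

/-- An `sl(2)` triple in `sl(2)` gives an endomorphism of the algebra of matrices. -/
theorem exists_theta {e f : S} (he : e.trace = 0) (hf : f.trace = 0) (he0 : e ≠ 0)
    (h1 : (e * f - f * e) * e - e * (e * f - f * e) = (2 : ℂ) • e)
    (h2 : (e * f - f * e) * f - f * (e * f - f * e) = (-2 : ℂ) • f) :
    ∃ Θ : S →ₗ[ℂ] S, (∀ a b, Θ (a * b) = Θ a * Θ b) ∧ Θ 1 = 1 ∧ Θ H = e * f - f * e ∧ Θ E = e ∧
      Θ F = f := by
  have hee : e * e = 0 := by
    have h3 := anti he he
    have h4 : (e * e).trace = 0 := by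
      have h5 := congrArg (fun x : S => (x * e).trace) h1
      simp only [Matrix.smul_mul, Matrix.trace_smul, smul_eq_mul, sub_mul, mul_sub,
        Matrix.trace_sub] at h5
      have e1 : (e * f * e * e).trace = (e * (e * f) * e).trace := by
        rw [Matrix.trace_mul_comm (e * f * e) e]
        simp only [mul_assoc]
      have e2 : (f * e * e * e).trace = (e * (f * e) * e).trace := by
        rw [Matrix.trace_mul_comm (f * e * e) e]
        simp only [mul_assoc]
      rw [e1, e2] at h5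
      have h6 : (2 : ℂ) * (e * e).trace = 0 := by rw [← h5]; ring
      exact (mul_eq_zero.1 h6).resolve_left two_ne_zero
    rw [h4, zero_smul] at h3
    have h5 : (2 : ℂ) • (e * e) = 0 := by rw [two_smul]; exact h3
    exact (smul_eq_zero.1 h5).resolve_left two_ne_zero
  have hff : f * f = 0 := by
    have h3 := anti hf hf
    have h4 : (f * f).trace = 0 := by
      have h5 := congrArg (fun x : S => (x * f).trace) h2
      simp only [Matrix.smul_mul, Matrix.trace_smul, smul_eq_mul, sub_mul, mul_sub,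
        Matrix.trace_sub] at h5
      have e1 : (e * f * f * f).trace = (f * (e * f) * f).trace := by
        rw [Matrix.trace_mul_comm (e * f * f) f]
        simp only [mul_assoc]
      have e2 : (f * e * f * f).trace = (f * (f * e) * f).trace := by
        rw [Matrix.trace_mul_comm (f * e * f) f]
        simp only [mul_assoc]
      rw [e1, e2] at h5
      have h6 : (-2 : ℂ) * (f * f).trace = 0 := by rw [← h5]; ring
      exact (mul_eq_zero.1 h6).resolve_left (by norm_num)
    rw [h4, zero_smul] at h3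
    have h5 : (2 : ℂ) • (f * f) = 0 := by rw [two_smul]; exact h3
    exact (smul_eq_zero.1 h5).resolve_left two_ne_zero
  have hefe : e * f * e = e := by
    have h3 : (e * f - f * e) * e - e * (e * f - f * e) = (2 : ℂ) • (e * f * e) := by
      rw [sub_mul, mul_sub, ← mul_assoc e e f, hee, zero_mul, mul_assoc f e e, hee, mul_zero,
        ← mul_assoc e f e, two_smul]
      abel
    rw [h3] at h1
    exact smul_right_injective _ (two_ne_zero (α := ℂ)) h1
  have hfef : f * e * f = f := by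
    have h3 : (e * f - f * e) * f - f * (e * f - f * e) = (-2 : ℂ) • (f * e * f) := by
      rw [sub_mul, mul_sub, ← mul_assoc f f e, hff, zero_mul, mul_assoc e f f, hff, mul_zero,
        ← mul_assoc f e f, neg_smul, two_smul]
      abel
    rw [h3] at h2
    exact smul_right_injective _ (by norm_num : (-2 : ℂ) ≠ 0) h2
  have hsum : e * f + f * e = 1 := by
    have h3 := anti he hf
    have h4 : (e * f).trace = 1 := by
      have h5 := congrArg (fun x : S => x * e) h3
      simp only [add_mul, Matrix.smul_mul, one_mul] at h5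
      rw [mul_assoc f e e, hee, mul_zero, add_zero, hefe] at h5
      have h6 : ((e * f).trace - 1) • e = 0 := by rw [sub_smul, one_smul, ← h5, sub_self]
      exact sub_eq_zero.1 ((smul_eq_zero.1 h6).resolve_right he0)
    rw [h4, one_smul] at h3
    exact h3
  let V : Fin 2 → Fin 2 → S := fun r s => if r = 0 then (if s = 0 then e * f else e) else
    (if s = 0 then f else f * e)
  have hV : ∀ r s t u, V r s * V t u = if s = t then V r u else 0 := by
    intro r s t u
    fin_cases r <;> fin_cases s <;> fin_cases t <;> fin_cases u <;> simp [V]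
    · rw [← mul_assoc, hefe]
    · rw [hefe]
    · rw [mul_assoc, hff, mul_zero]
    · rw [mul_assoc, ← mul_assoc f f e, hff, zero_mul, mul_zero]
    · rw [← mul_assoc, hee, zero_mul]
    · exact hee
    · rw [← mul_assoc, hefe]
    · rw [← mul_assoc, hfef]
    · exact hff
    · rw [← mul_assoc, hff, zero_mul]
    · rw [mul_assoc, ← mul_assoc e e f, hee, zero_mul, mul_zero]
    · rw [mul_assoc, hee, mul_zero]
    · exact hfef
    · rw [← mul_assoc, hfef]
  let Θ : S →ₗ[ℂ] S :=
    { toFun := fun x => ∑ r, ∑ s, x r s • V r s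
      map_add' := fun x y => by
        simp only [Matrix.add_apply, add_smul, Finset.sum_add_distrib]
      map_smul' := fun c x => by
        simp only [Matrix.smul_apply, smul_eq_mul, mul_smul, Finset.smul_sum, RingHom.id_apply] }
  have hΘ : ∀ x, Θ x = ∑ r, ∑ s, x r s • V r s := fun x => rfl
  have hΘU : ∀ r s, Θ (U r s) = V r s := by
    intro r s
    rw [hΘ]
    fin_cases r <;> fin_cases s <;> simp [U, Matrix.single, Fin.sum_univ_two, V]
  refine ⟨Θ, fun a b => ?_, ?_, ?_, ?_, ?_⟩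
  · rw [hΘ a, hΘ b]
    rw [hΘ (a * b)]
    simp only [Fin.sum_univ_two, Matrix.mul_apply]
    simp only [add_mul, mul_add, smul_mul_smul_comm, hV]
    simp only [if_true, if_neg (zero_ne_one : (0 : Fin 2) ≠ 1), if_neg (one_ne_zero : (1 : Fin 2) ≠ 0),
      smul_zero, add_zero, zero_add, add_smul]
    abel
  · have h3 : (1 : S) = U 0 0 + U 1 1 := U_one.symm
    rw [h3, map_add, hΘU, hΘU, ← h3, ← hsum]
    simp [V]
  · have h3 : H = U 0 0 - U 1 1 := by
      ext i j
      fin_cases i <;> fin_cases j <;> simp [H, mk, U, Matrix.single]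
    rw [h3, map_sub, hΘU, hΘU]
    simp [V]
  · rw [E_eq, hΘU]
    simp [V]
  · rw [F_eq, hΘU]
    simp [V]

section Goursat

variable {I : Type} [DecidableEq I] (X : Submodule ℂ (I → S))

/-- Goursat's lemma for two factors. -/
theorem goursat (h0 : ∀ ξ ∈ X, ∀ i, (ξ i).trace = 0)
    (hbr : ∀ ξ ∈ X, ∀ η ∈ X, (fun l => ξ l * η l - η l * ξ l) ∈ X)
    (hsur : ∀ i, ∀ x : S, x.trace = 0 → ∃ ξ ∈ X, ξ i = x) {i k : I}
    (hno : ¬ ∃ Θ : S →ₗ[ℂ] S, (∀ a b, Θ (a * b) = Θ a * Θ b) ∧ Θ 1 = 1 ∧ ∀ ξ ∈ X, ξ i = Θ (ξ k))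
    {x : S} (hx : x.trace = 0) : ∃ ξ ∈ X, ξ i = x ∧ ξ k = 0 := by
  let N : Submodule ℂ S := Submodule.map (LinearMap.proj i) (X ⊓ LinearMap.ker (LinearMap.proj k))
  have hN : ∀ y, y ∈ N ↔ ∃ ξ ∈ X, ξ i = y ∧ ξ k = 0 := by
    intro y
    simp only [N, Submodule.mem_map, Submodule.mem_inf, LinearMap.mem_ker, LinearMap.proj_apply]
    constructor
    · rintro ⟨ξ, ⟨h1, h2⟩, h3⟩
      exact ⟨ξ, h1, h3, h2⟩
    · rintro ⟨ξ, h1, h3, h2⟩
      exact ⟨ξ, ⟨h1, h2⟩, h3⟩
  rcases simple N (fun y hy => by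
      obtain ⟨ξ, h1, h2, _⟩ := (hN y).1 hy
      rw [← h2]
      exact h0 ξ h1 i) (fun y hy z hz => by
      obtain ⟨ξ, h1, h2, h3⟩ := (hN z).1 hz
      obtain ⟨η, h4, h5⟩ := hsur i y hy
      refine (hN _).2 ⟨_, hbr η h4 ξ h1, ?_, ?_⟩
      · rw [h5, h2]
      · rw [h3, mul_zero, zero_mul, sub_zero]) with h | h
  · exfalso
    apply hno
    have hinj : ∀ ξ ∈ X, ξ k = 0 → ξ i = 0 := by
      intro ξ hξ hk
      have h1 : ξ i ∈ N := (hN _).2 ⟨ξ, hξ, rfl, hk⟩
      rwa [h, Submodule.mem_bot] at h1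
    obtain ⟨ξE, hE1, hE2⟩ := hsur k E (trace_mk _ _ _)
    obtain ⟨ξF, hF1, hF2⟩ := hsur k F (trace_mk _ _ _)
    have hH1 := hbr ξE hE1 ξF hF1
    set ξH : I → S := fun l => ξE l * ξF l - ξF l * ξE l with hξH
    have hH2 : ξH k = H := by
      rw [hξH]
      simp only
      rw [hE2, hF2, br_EF]
    have r1 : (ξE i * ξF i - ξF i * ξE i) * ξE i - ξE i * (ξE i * ξF i - ξF i * ξE i) =
        (2 : ℂ) • ξE i := by
      have h1 := hbr ξH hH1 ξE hE1
      have h2 := hinj _ (X.sub_mem h1 (X.smul_mem (2 : ℂ) hE1)) (by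
        rw [Pi.sub_apply, Pi.smul_apply, hH2, hE2, br_HE, sub_self])
      rw [Pi.sub_apply, Pi.smul_apply, sub_eq_zero] at h2
      exact h2
    have r2 : (ξE i * ξF i - ξF i * ξE i) * ξF i - ξF i * (ξE i * ξF i - ξF i * ξE i) =
        (-2 : ℂ) • ξF i := by
      have h1 := hbr ξH hH1 ξF hF1
      have h2 := hinj _ (X.sub_mem h1 (X.smul_mem (-2 : ℂ) hF1)) (by
        rw [Pi.sub_apply, Pi.smul_apply, hH2, hF2, br_HF, sub_self])
      rw [Pi.sub_apply, Pi.smul_apply, sub_eq_zero] at h2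
      exact h2
    have hexp : ∀ ξ ∈ X, ξ i = (ξ k 0 0) • ξH i + (ξ k 0 1) • ξE i + (ξ k 1 0) • ξF i := by
      intro ξ hξ
      have h2 := hinj _ (X.sub_mem hξ (X.add_mem (X.add_mem (X.smul_mem (ξ k 0 0) hH1)
        (X.smul_mem (ξ k 0 1) hE1)) (X.smul_mem (ξ k 1 0) hF1))) (by
          rw [Pi.sub_apply, Pi.add_apply, Pi.add_apply, Pi.smul_apply, Pi.smul_apply, Pi.smul_apply,
            hH2, hE2, hF2, ← mk_eq, ← eq_mk (h0 ξ hξ k), sub_self])
      rw [Pi.sub_apply, sub_eq_zero] at h2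
      exact h2
    have he0 : ξE i ≠ 0 := by
      intro h1
      obtain ⟨ξ, h2, h3⟩ := hsur i E (trace_mk _ _ _)
      have h4 := hexp ξ h2
      have h5 : ξF i = 0 := by
        rw [h1] at r2
        simp only [zero_mul, mul_zero, sub_zero] at r2
        exact (smul_eq_zero.1 r2.symm).resolve_left (by norm_num)
      have h6 : ξH i = 0 := by
        rw [hξH]
        simp only
        rw [h1, zero_mul, mul_zero, sub_zero]
      rw [h1, h5, h6, smul_zero, smul_zero, smul_zero, add_zero, add_zero, h3] at h4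
      have h7 := congrFun (congrFun h4 0) 1
      simp [E, mk] at h7
    obtain ⟨Θ, h1, h2, h3, h4, h5⟩ := exists_theta (h0 ξE hE1 i) (h0 ξF hF1 i) he0 r1 r2
    refine ⟨Θ, h1, h2, fun ξ hξ => ?_⟩
    have h6 : ξ k = (ξ k 0 0) • H + (ξ k 0 1) • E + (ξ k 1 0) • F := by
      rw [← mk_eq, ← eq_mk (h0 ξ hξ k)]
    have h7 : Θ (ξ k) = (ξ k 0 0) • Θ H + (ξ k 0 1) • Θ E + (ξ k 1 0) • Θ F := by
      conv_lhs => rw [h6]
      rw [map_add, map_add, map_smul, map_smul, map_smul]
    rw [hexp ξ hξ, h7, h3, h4, h5]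
  · exact (hN x).1 (h x hx)

/-- **Ribet's lemma**: a subalgebra with large projections to all pairs of factors. -/
theorem ribet (h0 : ∀ ξ ∈ X, ∀ i, (ξ i).trace = 0)
    (hbr : ∀ ξ ∈ X, ∀ η ∈ X, (fun l => ξ l * η l - η l * ξ l) ∈ X)
    (hsur : ∀ i, ∀ x : S, x.trace = 0 → ∃ ξ ∈ X, ξ i = x)
    (hno : ∀ i k : I, i ≠ k → ¬ ∃ Θ : S →ₗ[ℂ] S, (∀ a b, Θ (a * b) = Θ a * Θ b) ∧ Θ 1 = 1 ∧
      ∀ ξ ∈ X, ξ i = Θ (ξ k)) (s : Finset I) (i : I) (hi : i ∉ s) {x : S} (hx : x.trace = 0) :
    ∃ ξ ∈ X, ξ i = x ∧ ∀ k ∈ s, ξ k = 0 := by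
  induction s using Finset.induction_on generalizing x with
  | empty =>
    obtain ⟨ξ, h1, h2⟩ := hsur i x hx
    exact ⟨ξ, h1, h2, fun k hk => absurd hk (Finset.notMem_empty k)⟩
  | insert k s hk ih =>
    have hik : i ≠ k := fun h => hi (h ▸ Finset.mem_insert_self _ _)
    have his : i ∉ s := fun h => hi (Finset.mem_insert_of_mem h)
    let W : Submodule ℂ S :=
      { carrier := {y | ∃ ξ ∈ X, ξ i = y ∧ ∀ l ∈ insert k s, ξ l = 0}
        zero_mem' := ⟨0, X.zero_mem, rfl, fun _ _ => rfl⟩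
        add_mem' := by
          rintro y z ⟨ξ, h1, h2, h3⟩ ⟨η, h4, h5, h6⟩
          exact ⟨ξ + η, X.add_mem h1 h4, by rw [Pi.add_apply, h2, h5], fun l hl => by
            rw [Pi.add_apply, h3 l hl, h6 l hl, add_zero]⟩
        smul_mem' := by
          rintro c y ⟨ξ, h1, h2, h3⟩
          exact ⟨c • ξ, X.smul_mem c h1, by rw [Pi.smul_apply, h2], fun l hl => by
            rw [Pi.smul_apply, h3 l hl, smul_zero]⟩ }
    have hW : ∀ u v : S, u.trace = 0 → v.trace = 0 → u * v - v * u ∈ W := by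
      intro u v hu hv
      obtain ⟨ξ, h1, h2, h3⟩ := ih his hu
      obtain ⟨η, h4, h5, h6⟩ := goursat X h0 hbr hsur (hno i k hik) hv
      refine ⟨_, hbr ξ h1 η h4, ?_, fun l hl => ?_⟩
      · rw [h2, h5]
      · rcases Finset.mem_insert.1 hl with rfl | hl
        · rw [h6, mul_zero, zero_mul, sub_zero]
        · rw [h3 l hl, mul_zero, zero_mul, sub_zero]
    have hH : H ∈ W := by
      rw [← br_EF]
      exact hW _ _ (trace_mk _ _ _) (trace_mk _ _ _)
    have hE : E ∈ W := by
      have h1 := W.smul_mem (2⁻¹ : ℂ) (hW H E (trace_mk _ _ _) (trace_mk _ _ _))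
      rwa [br_HE, smul_smul, inv_mul_cancel₀ two_ne_zero, one_smul] at h1
    have hF : F ∈ W := by
      have h1 := W.smul_mem ((-2)⁻¹ : ℂ) (hW H F (trace_mk _ _ _) (trace_mk _ _ _))
      rwa [br_HF, smul_smul, inv_mul_cancel₀ (by norm_num), one_smul] at h1
    exact all_of hH hE hF hx

end Goursat

end Pool.Agent.Y102.TA
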