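import Pool.Agent.Y102.T3

set_option autoImplicit false
set_option linter.unusedSectionVars false
set_option linter.unusedSimpArgs false
set_option linter.unusedVariables false

/-!
# Lie algebras of type `A_1` and their subalgebras with the same commutant: the theorem
-/

open Matrix

noncomputable section

namespace Pool.Agent.Y102.TA

variable {R : Type} [Ring R] [Algebra ℂ R] {I : Type} [Fintype I] [DecidableEq I]

section two

variable {p q : S →ₗ[ℂ] R} (hp : ∀ a b, p (a * b) = p a * p b) (hq : ∀ a b, q (a * b) = q a * q b)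

/-- the Casimir element -/
def cas (p q : S →ₗ[ℂ] R) : R := ∑ r, ∑ s, p (U r s) * q (U s r)

include hp hq in
theorem cas_comm (hpq : ∀ a b, p a * q b = q b * p a) (x : S) :
    cas p q * (p x + q x) = (p x + q x) * cas p q := by
  have key : ∀ t u : Fin 2, cas p q * (p (U t u) + q (U t u)) = (p (U t u) + q (U t u)) * cas p q := by
    intro t u
    have e1 : cas p q * p (U t u) = ∑ r, p (U r u) * q (U t r) := by
      unfold cas
      rw [Finset.sum_mul]
      refine Finset.sum_congr rfl fun r _ => ?_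
      rw [Finset.sum_mul, Finset.sum_eq_single t]
      · rw [mul_assoc, ← hpq, ← mul_assoc, ← hp, U_mul, if_pos rfl]
      · intro s _ hs
        rw [mul_assoc, ← hpq, ← mul_assoc, ← hp, U_mul, if_neg hs, map_zero, zero_mul]
      · intro h4
        exact absurd (Finset.mem_univ _) h4
    have e2 : p (U t u) * cas p q = ∑ s, p (U t s) * q (U s u) := by
      unfold cas
      rw [Finset.mul_sum, Finset.sum_eq_single u]
      · rw [Finset.mul_sum]
        refine Finset.sum_congr rfl fun s _ => ?_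
        rw [← mul_assoc, ← hp, U_mul, if_pos rfl]
      · intro r _ hr
        rw [Finset.mul_sum]
        refine Finset.sum_eq_zero fun s _ => ?_
        rw [← mul_assoc, ← hp, U_mul, if_neg (Ne.symm hr), map_zero, zero_mul]
      · intro h4
        exact absurd (Finset.mem_univ _) h4
    have e3 : cas p q * q (U t u) = ∑ s, p (U t s) * q (U s u) := by
      unfold cas
      rw [Finset.sum_mul, Finset.sum_eq_single t]
      · rw [Finset.sum_mul]
        refine Finset.sum_congr rfl fun s _ => ?_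
        rw [mul_assoc, ← hq, U_mul, if_pos rfl]
      · intro r _ hr
        rw [Finset.sum_mul]
        refine Finset.sum_eq_zero fun s _ => ?_
        rw [mul_assoc, ← hq, U_mul, if_neg hr, map_zero, mul_zero]
      · intro h4
        exact absurd (Finset.mem_univ _) h4
    have e4 : q (U t u) * cas p q = ∑ r, p (U r u) * q (U t r) := by
      unfold cas
      rw [Finset.mul_sum]
      refine Finset.sum_congr rfl fun r _ => ?_
      rw [Finset.mul_sum, Finset.sum_eq_single u]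
      · rw [← mul_assoc, ← hpq, mul_assoc, ← hq, U_mul, if_pos rfl]
      · intro s _ hs
        rw [← mul_assoc, ← hpq, mul_assoc, ← hq, U_mul, if_neg (Ne.symm hs), map_zero, mul_zero]
      · intro h4
        exact absurd (Finset.mem_univ _) h4
    rw [mul_add, add_mul, e1, e2, e3, e4, add_comm]
  rw [sum_U x]
  simp only [map_sum, map_smul]
  rw [← Finset.sum_add_distrib]
  simp only [← Finset.sum_add_distrib, ← smul_add]
  rw [Finset.mul_sum, Finset.sum_mul]
  refine Finset.sum_congr rfl fun r _ => ?_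
  rw [Finset.mul_sum, Finset.sum_mul]
  refine Finset.sum_congr rfl fun s _ => ?_
  rw [mul_smul_comm, smul_mul_assoc, key]

include hp hq in
theorem cas_zero (hpq : ∀ a b, p a * q b = q b * p a) (h1 : cas p q * p E = p E * cas p q) :
    q 1 * p 1 = 0 := by
  rw [E_eq] at h1
  unfold cas at h1
  simp only [Fin.sum_univ_two, add_mul, mul_add, mul_assoc] at h1
  have e : ∀ a b c, p a * (q b * p c) = p (a * c) * q b := by
    intro a b c
    rw [← hpq c b, ← mul_assoc, ← hp]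
  have e' : ∀ a b c, p a * (p b * q c) = p (a * b) * q c := by
    intro a b c
    rw [← mul_assoc, ← hp]
  simp only [e, e', U_mul, if_true, if_neg (zero_ne_one : (0 : Fin 2) ≠ 1),
    if_neg (one_ne_zero : (1 : Fin 2) ≠ 0), map_zero, zero_mul, add_zero, zero_add] at h1
  have h2 := congrArg (fun T => p (U 0 0) * T * p (U 0 0)) h1
  simp only [mul_add, add_mul, mul_assoc, e, e', U_mul, if_true,
    if_neg (zero_ne_one : (0 : Fin 2) ≠ 1),
    if_neg (one_ne_zero : (1 : Fin 2) ≠ 0), map_zero, zero_mul, add_zero, zero_add] at h2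
  have h3 : p (U 0 0) * q (U 0 1) = 0 := h2.symm
  have h4 : p (U 0 0) * q 1 = 0 := by
    have e1 : q (U 0 0) = q (U 0 1) * q (U 1 0) := by rw [← hq, U_mul, if_pos rfl]
    have e2 : q (U 1 1) = q (U 1 0) * q (U 0 1) := by rw [← hq, U_mul, if_pos rfl]
    rw [← U_one, map_add, mul_add, e1, e2, ← mul_assoc, h3, zero_mul, zero_add, ← mul_assoc,
      hpq, mul_assoc, h3, mul_zero]
  have h5 : p 1 * q 1 = 0 := by
    have e1 : p (U 1 1) = p (U 1 0) * p (U 0 0) * p (U 0 1) := by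
      rw [← hp, ← hp, U_mul, if_pos rfl, U_mul, if_pos rfl]
    rw [← U_one, map_add, add_mul]
    rw [U_one, h4, zero_add, e1, mul_assoc, hpq, mul_assoc, ← mul_assoc (p (U 0 0)), h4, zero_mul,
      mul_zero]
  rw [← hpq, h5]

include hp hq in
/-- The intertwining operator. -/
theorem inter {N : R} (hN : N ≠ 0) (h1 : q 1 * N = N) (h2 : N * p 1 = N) :
    ∃ N' : R, N' ≠ 0 ∧ (∀ x, q x * N' = N' * p x) ∧ q 1 * N' = N' ∧ N' * p 1 = N' ∧
      ∀ z : R, (∀ a, z * p a = p a * z) → (∀ a, z * q a = q a * z) → z * N = N * z →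
        z * N' = N' * z := by
  obtain ⟨a, b, hab⟩ : ∃ a b : Fin 2, q (U a a) * N * p (U b b) ≠ 0 := by
    by_contra hcon
    push Not at hcon
    apply hN
    rw [← h2, ← h1, ← U_one, map_add, map_add, mul_add, add_mul, add_mul, add_mul, hcon, hcon, hcon,
      hcon]
    simp
  obtain ⟨N₀, hN₀⟩ : ∃ N₀, N₀ = q (U 0 a) * N * p (U b 0) := ⟨_, rfl⟩
  have hN0 : N₀ ≠ 0 := by
    intro h3
    apply hab
    have e1 : q (U a a) = q (U a 0) * q (U 0 a) := by rw [← hq, U_mul, if_pos rfl]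
    have e2 : p (U b b) = p (U b 0) * p (U 0 b) := by rw [← hp, U_mul, if_pos rfl]
    have e3 : q (U a a) * N * p (U b b) = q (U a 0) * N₀ * p (U 0 b) := by
      rw [e1, e2, hN₀]
      simp only [mul_assoc]
    rw [e3, h3, mul_zero, zero_mul]
  have hq0 : q (U 0 0) * N₀ = N₀ := by
    rw [hN₀, ← mul_assoc, ← mul_assoc, ← hq, U_mul, if_pos rfl]
  have hp0 : N₀ * p (U 0 0) = N₀ := by
    rw [hN₀, mul_assoc, ← hp, U_mul, if_pos rfl]
  obtain ⟨N', hN'⟩ : ∃ N', N' = ∑ r, q (U r 0) * N₀ * p (U 0 r) := ⟨_, rfl⟩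
  have hU1 : ∀ t u, q (U t u) * N' = q (U t 0) * N₀ * p (U 0 u) := by
    intro t u
    rw [hN', Finset.mul_sum, Finset.sum_eq_single u]
    · rw [← mul_assoc, ← mul_assoc, ← hq, U_mul, if_pos rfl]
    · intro r _ hr
      rw [← mul_assoc, ← mul_assoc, ← hq, U_mul, if_neg (Ne.symm hr), map_zero, zero_mul, zero_mul]
    · intro h4
      exact absurd (Finset.mem_univ _) h4
  have hU2 : ∀ t u, N' * p (U t u) = q (U t 0) * N₀ * p (U 0 u) := by
    intro t u
    rw [hN', Finset.sum_mul, Finset.sum_eq_single t]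
    · rw [mul_assoc, ← hp, U_mul, if_pos rfl]
    · intro r _ hr
      rw [mul_assoc, ← hp, U_mul, if_neg hr, map_zero, mul_zero]
    · intro h4
      exact absurd (Finset.mem_univ _) h4
  refine ⟨N', ?_, ?_, ?_, ?_, ?_⟩
  · intro h3
    apply hN0
    have h4 : q (U 0 0) * N' * p (U 0 0) = N₀ := by
      rw [hU1, mul_assoc, mul_assoc, ← hp, U_mul, if_pos rfl, ← mul_assoc, hq0, hp0]
    rw [← h4, h3, mul_zero, zero_mul]
  · intro x
    rw [sum_U x]
    simp only [map_sum, map_smul]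
    rw [Finset.sum_mul, Finset.mul_sum]
    refine Finset.sum_congr rfl fun r _ => ?_
    rw [Finset.sum_mul, Finset.mul_sum]
    refine Finset.sum_congr rfl fun s _ => ?_
    rw [smul_mul_assoc, mul_smul_comm, hU1, hU2]
  · rw [← U_one, map_add, add_mul, hU1, hU1, hN', Fin.sum_univ_two]
  · rw [← U_one, map_add, mul_add, hU2, hU2, hN', Fin.sum_univ_two]
  · intro z h3 h4 h5
    rw [hN', Finset.mul_sum, Finset.sum_mul]
    refine Finset.sum_congr rfl fun r _ => ?_
    have h6 : z * N₀ = N₀ * z := by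
      rw [hN₀, mul_assoc _ _ z, ← h3, ← mul_assoc, ← mul_assoc, h4, mul_assoc _ z N, h5]
      simp only [mul_assoc]
    rw [mul_assoc _ _ z, ← h3, ← mul_assoc, ← mul_assoc, h4, mul_assoc _ z N₀, h6]
    simp only [mul_assoc]

end two

namespace TypeA

variable {φ : I → S →ₗ[ℂ] R} {M : Submodule ℂ R} (h : TypeA φ M)
include h

variable {L D : Submodule ℂ R} (hLM : L ≤ M) (hDL : D ≤ L)
  (hLbr : ∀ X ∈ L, ∀ Y ∈ L, X * Y - Y * X ∈ L)
  (hperf : D ≤ Submodule.span ℂ {Z | ∃ X ∈ D, ∃ Y ∈ D, Z = X * Y - Y * X})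
  (hdec : ∀ X ∈ L, ∃ Z ∈ L, ∃ d ∈ D, X = Z + d ∧ ∀ Y ∈ L, Z * Y = Y * Z)
  (hcom : ∀ T : R, (∀ X ∈ L, T * X = X * T) → ∀ X ∈ M, T * X = X * T)

include hLM hcom in
theorem no_theta {i k : I} (hik : i ≠ k) : ¬ ∃ Θ : S →ₗ[ℂ] S, (∀ a b, Θ (a * b) = Θ a * Θ b) ∧
    Θ 1 = 1 ∧ ∀ ξ ∈ XX φ M L, ξ i = Θ (ξ k) := by
  rintro ⟨Θ, h1, h2, h3⟩
  let ψ : S →ₗ[ℂ] R := (φ i).comp Θ
  have hψ : ∀ a, ψ a = φ i (Θ a) := fun a => rfl
  have hψm : ∀ a b, ψ (a * b) = ψ a * ψ b := fun a b => by rw [hψ, hψ, hψ, h1, h.mul]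
  have hψ1 : ψ 1 = φ i 1 := by rw [hψ, h2]
  have hc : ∀ a b, φ k a * ψ b = ψ b * φ k a := fun a b => h.comm k i (Ne.symm hik) a _
  have hX : ∀ X ∈ L, ∃ ξ, Dec φ M X ξ ∧ ∀ T : R,
      (∀ z ∈ M, Cen M z → T * z = z * T) → (∀ l, l ≠ i → l ≠ k → ∀ a, T * φ l a = φ l a * T) →
      T * (φ k (ξ k) + ψ (ξ k)) = (φ k (ξ k) + ψ (ξ k)) * T → T * X = X * T := by
    intro X hX
    obtain ⟨ξ, hξ⟩ := h.dec X (hLM hX)
    refine ⟨ξ, hξ, fun T h4 h5 h6 => ?_⟩
    have e1 : ∑ l, φ l (ξ l) = φ k (ξ k) + ψ (ξ k) + ∑ l ∈ (Finset.univ.erase i).erase k, φ l (ξ l) := by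
      rw [← Finset.add_sum_erase _ _ (Finset.mem_univ i),
        ← Finset.add_sum_erase _ _ (Finset.mem_erase.2 ⟨Ne.symm hik, Finset.mem_univ k⟩),
        h3 ξ ⟨X, hX, hξ⟩, hψ]
      abel
    have e2 : X = (X - ∑ l, φ l (ξ l)) + ∑ l, φ l (ξ l) := by abel
    have e3 := h4 _ (M.sub_mem (hLM hX) (h.sum_mem hξ.1)) hξ.2
    have e4 : T * ∑ l ∈ (Finset.univ.erase i).erase k, φ l (ξ l) =
        (∑ l ∈ (Finset.univ.erase i).erase k, φ l (ξ l)) * T := by
      rw [Finset.mul_sum, Finset.sum_mul]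
      refine Finset.sum_congr rfl fun l hl => ?_
      exact h5 l (Finset.ne_of_mem_erase (Finset.mem_of_mem_erase hl)) (Finset.ne_of_mem_erase hl) _
    have e5 : T * ∑ l, φ l (ξ l) = (∑ l, φ l (ξ l)) * T := by
      rw [e1, mul_add, add_mul, h6, e4]
    rw [e2, mul_add, add_mul, e3, e5]
  by_cases hz : φ i 1 * φ k 1 = 0
  swap
  · apply hz
    have h4 : cas (φ k) ψ * φ k E = φ k E * cas (φ k) ψ := by
      refine hcom _ (fun X hXL => ?_) _ (h.mem k E (trace_mk _ _ _))
      obtain ⟨ξ, hξ, h5⟩ := hX X hXL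
      refine h5 _ (fun z hz hzc => ?_) (fun l hl1 hl2 a => ?_) (cas_comm (h.mul k) hψm hc _)
      · unfold cas
        rw [Finset.mul_sum, Finset.sum_mul]
        refine Finset.sum_congr rfl fun r _ => ?_
        rw [Finset.mul_sum, Finset.sum_mul]
        refine Finset.sum_congr rfl fun s _ => ?_
        rw [← mul_assoc, h.cen_phi hzc k, mul_assoc, mul_assoc, hψ, h.cen_phi hzc i]
      · unfold cas
        rw [Finset.mul_sum, Finset.sum_mul]
        refine Finset.sum_congr rfl fun r _ => ?_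
        rw [Finset.mul_sum, Finset.sum_mul]
        refine Finset.sum_congr rfl fun s _ => ?_
        rw [← mul_assoc, h.comm l k hl2, mul_assoc, mul_assoc, hψ, h.comm l i hl1]
    have h5 := cas_zero (h.mul k) hψm hc h4
    rwa [hψ1] at h5
  · rcases h.pair i k hik with h4 | ⟨N, hN, h4, h5, h6, h7⟩
    · exact h4 hz
    obtain ⟨N', h8, h9, h10, h11, h12⟩ := inter (p := φ k) (q := ψ) (h.mul k) hψm hN
      (by rw [hψ1]; exact h4) h5
    apply h8
    have hki : ∀ x, φ k x * N' = 0 := by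
      intro x
      have e1 : φ k x = φ k x * φ k 1 := by rw [← h.mul, mul_one]
      rw [← h10, hψ1, e1, mul_assoc, ← mul_assoc (φ k 1), h.comm k i (Ne.symm hik), hz, zero_mul,
        mul_zero]
    have hik' : ∀ x, N' * ψ x = 0 := by
      intro x
      have e1 : ψ x = φ i 1 * ψ x := by rw [← hψ1, ← hψm, one_mul]
      rw [← h11, e1, mul_assoc, ← mul_assoc (φ k 1), h.comm k i (Ne.symm hik), hz, zero_mul,
        mul_zero]
    have hcomm : ∀ X ∈ M, N' * X = X * N' := by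
      refine hcom _ fun X hXL => ?_
      obtain ⟨ξ, hξ, h5⟩ := hX X hXL
      refine h5 _ (fun z hz hzc => ?_) (fun l hl1 hl2 a => ?_) ?_
      · refine (h12 z (h.cen_phi hzc k) (fun a => h.cen_phi hzc i _) ?_).symm
        exact (h7 z hz hzc).symm
      · refine (h12 _ (h.comm l k hl2 a) (fun b => h.comm l i hl1 a _) ?_).symm
        exact (h6 l hl1 hl2 a).symm
      · rw [mul_add, add_mul, hki, hik', h9]
        abel
    have hx : ∀ x : S, x.trace = 0 → N' * φ k x = 0 := by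
      intro x hx
      rw [hcomm _ (h.mem k x hx), hki]
    have h13 : (1 : S) = E * F + F * E := by rw [EF_eq, FE_eq, U_one]
    rw [← h11, h13, map_add, h.mul, h.mul, mul_add, ← mul_assoc, ← mul_assoc,
      hx E (trace_mk _ _ _), hx F (trace_mk _ _ _), zero_mul, zero_mul, add_zero]

include hLM hDL hLbr hperf hdec hcom in
/-- **Theorem.** A subalgebra with the same commutant as an algebra of type `A_1` contains the
semisimple part. -/
theorem phi_mem (i : I) {x : S} (hx : x.trace = 0) : φ i x ∈ L := by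
  have h0 : ∀ ξ ∈ XX φ M L, ∀ i, (ξ i).trace = 0 := by
    rintro ξ ⟨X, _, hξ⟩ i
    exact hξ.1 i
  have hbr : ∀ ξ ∈ XX φ M L, ∀ η ∈ XX φ M L, (fun l => ξ l * η l - η l * ξ l) ∈ XX φ M L := by
    rintro ξ ⟨X, hX, hξ⟩ η ⟨Y, hY, hη⟩
    exact ⟨_, hLbr X hX Y hY, h.dec_br (hLM hX) (hLM hY) hξ hη⟩
  have hr := fun (u : S) (hu : u.trace = 0) => ribet (XX φ M L) h0 hbr
    (fun i x hx => h.sur hLM hDL hLbr hperf hdec hcom i x hx)
    (fun i k hik => h.no_theta hLM hcom hik) (Finset.univ.erase i) i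
    (Finset.notMem_erase i _) (x := u) hu
  have hb : ∀ u v : S, u.trace = 0 → v.trace = 0 → φ i (u * v - v * u) ∈ L := by
    intro u v hu hv
    obtain ⟨ξ, ⟨X, hX, hξ⟩, h1, h2⟩ := hr u hu
    obtain ⟨η, ⟨Y, hY, hη⟩, h3, h4⟩ := hr v hv
    have h5 := h.br (hLM hX) (hLM hY) hξ hη
    have h6 : ∑ l, φ l (ξ l * η l - η l * ξ l) = φ i (u * v - v * u) := by
      rw [Finset.sum_eq_single i]
      · rw [h1, h3]
      · intro l _ hl
        rw [h2 l (Finset.mem_erase.2 ⟨hl, Finset.mem_univ l⟩), zero_mul, mul_zero, sub_zero, map_zero]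
      · intro h4
        exact absurd (Finset.mem_univ _) h4
    rw [← h6, ← h5]
    exact hLbr X hX Y hY
  let W : Submodule ℂ S := L.comap (φ i)
  have hH : H ∈ W := by
    rw [← br_EF]
    exact hb _ _ (trace_mk _ _ _) (trace_mk _ _ _)
  have hE : E ∈ W := by
    have h1 : H * E - E * H ∈ W := hb H E (trace_mk _ _ _) (trace_mk _ _ _)
    have h2 := W.smul_mem (2⁻¹ : ℂ) h1
    rwa [br_HE, smul_smul, inv_mul_cancel₀ two_ne_zero, one_smul] at h2
  have hF : F ∈ W := by
    have h1 : H * F - F * H ∈ W := hb H F (trace_mk _ _ _) (trace_mk _ _ _)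
    have h2 := W.smul_mem ((-2)⁻¹ : ℂ) h1
    rwa [br_HF, smul_smul, inv_mul_cancel₀ (by norm_num), one_smul] at h2
  exact all_of hH hE hF hx

include hLM hDL hLbr hperf hdec hcom in
theorem br_mem {X Y : R} (hX : X ∈ M) (hY : Y ∈ M) : X * Y - Y * X ∈ L := by
  obtain ⟨ξ, hξ⟩ := h.dec X hX
  obtain ⟨η, hη⟩ := h.dec Y hY
  rw [h.br hX hY hξ hη]
  exact L.sum_mem fun i _ => h.phi_mem hLM hDL hLbr hperf hdec hcom i (trace_br _ _)

include hLM hDL hLbr hperf hdec hcom in
theorem exists_cen {X : R} (hX : X ∈ M) : ∃ Z ∈ M, Cen M Z ∧ X - Z ∈ L := by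
  obtain ⟨ξ, hξ⟩ := h.dec X hX
  refine ⟨X - ∑ i, φ i (ξ i), M.sub_mem hX (h.sum_mem hξ.1), hξ.2, ?_⟩
  rw [sub_sub_cancel]
  exact L.sum_mem fun i _ => h.phi_mem hLM hDL hLbr hperf hdec hcom i (hξ.1 i)

end TypeA

end Pool.Agent.Y102.TA
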