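import Pool.Agent.Y102.T4
import Pool.Agent.Y102.AV19
import Pool.Agent.W516.DRCoef

set_option autoImplicit false
set_option linter.unusedSectionVars false
set_option linter.unusedSimpArgs false
set_option linter.unusedVariables false

/-!
# De Rham-Betti classes of abelian varieties whose Hodge group is of type `A_1`
-/

open Module Function TensorProduct

noncomputable section

namespace Pool.Agent.Y102

open Pool.Agent.W516.DR Pool.Agent.H204R3.GP Pool.Agent.W516.KC Pool.Agent.H204R3.SP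

section Ext

variable {W : Type} [AddCommGroup W] [Module ℚ W] [FiniteDimensional ℚ W]

/-- the complex span of a space of rational endomorphisms -/
abbrev cx (S : Submodule ℚ (Module.End ℚ W)) : Submodule ℂ (Module.End ℂ (ℂ ⊗[ℚ] W)) :=
  extEnd ℂ (fun P => P ∈ S)

theorem bc_mem {S : Submodule ℚ (Module.End ℚ W)} {X : Module.End ℚ W} (hX : X ∈ S) :
    X.baseChange ℂ ∈ cx S := Submodule.subset_span ⟨X, hX, rfl⟩

theorem bc_mul (X Y : Module.End ℚ W) :
    (X * Y).baseChange ℂ = (X.baseChange ℂ : Module.End ℂ (ℂ ⊗[ℚ] W)) * Y.baseChange ℂ :=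
  LinearMap.baseChange_comp Y X

theorem bc_br (X Y : Module.End ℚ W) :
    (X * Y - Y * X).baseChange ℂ = (X.baseChange ℂ : Module.End ℂ (ℂ ⊗[ℚ] W)) * Y.baseChange ℂ -
      Y.baseChange ℂ * X.baseChange ℂ := by
  rw [LinearMap.baseChange_sub, bc_mul, bc_mul]

theorem cx_mono {S T : Submodule ℚ (Module.End ℚ W)} (h : S ≤ T) : cx S ≤ cx T := by
  refine Submodule.span_mono ?_
  rintro _ ⟨P, hP, rfl⟩
  exact ⟨P, h hP, rfl⟩

theorem exists_lam : ∃ lam : ℂ →ₗ[ℚ] ℚ, lam 1 = 1 := by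
  obtain ⟨G, hG⟩ := exists_lin (F := ℚ) (v := fun _ : Unit => (1 : ℂ)) (by
    rw [linearIndependent_unique_iff]
    exact one_ne_zero) (fun _ => (1 : ℚ))
  exact ⟨G, hG ()⟩

theorem mem_of_bc {S : Submodule ℚ (Module.End ℚ W)} {X : Module.End ℚ W}
    (h : X.baseChange ℂ ∈ cx S) : X ∈ S := by
  obtain ⟨lam, hlam⟩ := exists_lam
  have h1 := cmp_of_ext S h lam
  have h2 : cmpE lam (X.baseChange ℂ) = X := by
    ext w
    rw [cmpE_apply, LinearMap.baseChange_tmul, cmp_tmul, hlam, one_smul]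
  rwa [h2] at h1

/-- Commutation can be checked on the rational elements. -/
theorem cx_comm {S : Submodule ℚ (Module.End ℚ W)} {T : Module.End ℂ (ℂ ⊗[ℚ] W)}
    (h : ∀ X ∈ S, T * X.baseChange ℂ = X.baseChange ℂ * T) : ∀ X ∈ cx S, T * X = X * T := by
  intro X hX
  induction hX using Submodule.span_induction with
  | mem X hX =>
    obtain ⟨P, hP, rfl⟩ := hX
    exact h P hP
  | zero => rw [mul_zero, zero_mul]
  | add a b _ _ ha hb => rw [mul_add, add_mul, ha, hb]
  | smul c a _ ha => rw [mul_smul_comm, smul_mul_assoc, ha]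

/-- Brackets -/
theorem cx_br {S : Submodule ℚ (Module.End ℚ W)} {T : Submodule ℂ (Module.End ℂ (ℂ ⊗[ℚ] W))}
    (h : ∀ X ∈ S, ∀ Y ∈ S, X.baseChange ℂ * Y.baseChange ℂ - Y.baseChange ℂ * X.baseChange ℂ ∈ T) :
    ∀ X ∈ cx S, ∀ Y ∈ cx S, X * Y - Y * X ∈ T := by
  intro X hX
  induction hX using Submodule.span_induction with
  | mem X hX =>
    obtain ⟨P, hP, rfl⟩ := hX
    intro Y hY
    induction hY using Submodule.span_induction with
    | mem Y hY =>
      obtain ⟨Q, hQ, rfl⟩ := hY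
      exact h P hP Q hQ
    | zero => rw [mul_zero, zero_mul, sub_zero]; exact T.zero_mem
    | add a b _ _ ha hb =>
      have h1 := T.add_mem ha hb
      convert h1 using 1
      rw [mul_add, add_mul]
      abel
    | smul c a _ ha =>
      have h1 := T.smul_mem c ha
      convert h1 using 1
      rw [mul_smul_comm, smul_mul_assoc, smul_sub]
  | zero => intro Y _; rw [mul_zero, zero_mul, sub_zero]; exact T.zero_mem
  | add a b _ _ ha hb =>
    intro Y hY
    have h1 := T.add_mem (ha Y hY) (hb Y hY)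
    convert h1 using 1
    rw [mul_add, add_mul]
    abel
  | smul c a _ ha =>
    intro Y hY
    have h1 := T.smul_mem c (ha Y hY)
    convert h1 using 1
    rw [mul_smul_comm, smul_mul_assoc, smul_sub]

end Ext

namespace AbVar

variable {g : ℕ} (A : AbVar g)

/-- the derived algebra of the Lie algebra -/
def DA : Submodule ℚ (Module.End ℚ A.H1) :=
  Submodule.span ℚ {Z | ∃ X ∈ A.LA, ∃ Y ∈ A.LA, Z = X * Y - Y * X}

/-- the centre of the Lie algebra -/
def CL : Submodule ℚ (Module.End ℚ A.H1) where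
  carrier := {X | X ∈ A.LA ∧ ∀ Y ∈ A.LA, Y * X = X * Y}
  zero_mem' := ⟨A.LA.zero_mem, fun Y _ => by rw [mul_zero, zero_mul]⟩
  add_mem' := fun {P Q} hP hQ => ⟨A.LA.add_mem hP.1 hQ.1, fun X hX => by
    rw [mul_add, add_mul, hP.2 X hX, hQ.2 X hX]⟩
  smul_mem' := fun c P hP => ⟨A.LA.smul_mem c hP.1, fun X hX => by
    rw [mul_smul_comm, smul_mul_assoc, hP.2 X hX]⟩

theorem DA_le : A.DA ≤ A.LA := by
  unfold DA
  rw [Submodule.span_le]
  rintro _ ⟨X, hX, Y, hY, rfl⟩
  exact A.LA_bracket hX hY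

theorem LA_le_sup : A.LA ≤ A.CL ⊔ A.DA := by
  refine le_of_trace A.LA A.trace_LA (fun X hX Y hY => A.LA_bracket hX hY) ?_ ?_ ?_
  · intro X hX hc htr
    have h2 : X ∈ A.EA := hc
    obtain ⟨M, hM⟩ := A.hodge_end (A.mem_EA.1 h2)
    exact A.trace_sq hM (A.LA_skew hX) htr
  · intro X hX Y hY
    exact Submodule.mem_sup_right (Submodule.subset_span ⟨X, hX, Y, hY, rfl⟩)
  · intro X hX hc
    exact Submodule.mem_sup_left ⟨hX, hc⟩

theorem LA_dec {X : Module.End ℚ A.H1} (hX : X ∈ A.LA) : ∃ Z ∈ A.LA, ∃ d ∈ A.DA, X = Z + d ∧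
    ∀ Y ∈ A.LA, Z * Y = Y * Z := by
  obtain ⟨Z, hZ, d, hd, h⟩ := Submodule.mem_sup.1 (A.LA_le_sup hX)
  exact ⟨Z, hZ.1, d, hd, h.symm, fun Y hY => (hZ.2 Y hY).symm⟩

theorem DA_perfect : A.DA ≤ Submodule.span ℚ {Z | ∃ X ∈ A.DA, ∃ Y ∈ A.DA, Z = X * Y - Y * X} := by
  conv_lhs => unfold DA
  rw [Submodule.span_le]
  rintro _ ⟨X, hX, Y, hY, rfl⟩
  obtain ⟨Z, hZ, d, hd, rfl, hZc⟩ := A.LA_dec hX
  obtain ⟨Z', hZ', d', hd', rfl, hZc'⟩ := A.LA_dec hY
  refine Submodule.subset_span ⟨d, hd, d', hd', ?_⟩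
  have e1 := hZc Z' hZ'
  have e2 := hZc d' (A.DA_le hd')
  have e3 := hZc' d (A.DA_le hd)
  rw [add_mul, mul_add, mul_add, add_mul, mul_add, mul_add, e1, e2, ← e3]
  abel

theorem cx_perfect : cx A.DA ≤
    Submodule.span ℂ {Z | ∃ X ∈ cx A.DA, ∃ Y ∈ cx A.DA, Z = X * Y - Y * X} := by
  have key : ∀ P ∈ Submodule.span ℚ {Z | ∃ X ∈ A.DA, ∃ Y ∈ A.DA, Z = X * Y - Y * X},
      P.baseChange ℂ ∈
        Submodule.span ℂ {Z | ∃ X ∈ cx A.DA, ∃ Y ∈ cx A.DA, Z = X * Y - Y * X} := by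
    intro P hP
    induction hP using Submodule.span_induction with
    | mem P hP =>
      obtain ⟨X, hX, Y, hY, rfl⟩ := hP
      exact Submodule.subset_span ⟨_, bc_mem hX, _, bc_mem hY, bc_br X Y⟩
    | zero => rw [LinearMap.baseChange_zero]; exact Submodule.zero_mem _
    | add a b _ _ ha hb => rw [LinearMap.baseChange_add]; exact Submodule.add_mem _ ha hb
    | smul c a _ ha =>
      have h1 : (c • a).baseChange ℂ = (c : ℂ) • a.baseChange ℂ := by
        rw [LinearMap.baseChange_smul]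
        exact (Rat.cast_smul_eq_qsmul ℂ c _).symm
      rw [h1]
      exact Submodule.smul_mem _ _ ha
  refine Submodule.span_le.2 ?_
  rintro _ ⟨P, hP, rfl⟩
  exact key P (A.DA_perfect hP)

theorem cx_dec : ∀ X ∈ cx A.LA, ∃ Z ∈ cx A.LA, ∃ d ∈ cx A.DA, X = Z + d ∧
    ∀ Y ∈ cx A.LA, Z * Y = Y * Z := by
  intro X hX
  induction hX using Submodule.span_induction with
  | mem X hX =>
    obtain ⟨P, hP, rfl⟩ := hX
    obtain ⟨Z, hZ, d, hd, h, hc⟩ := A.LA_dec hP
    refine ⟨_, bc_mem hZ, _, bc_mem hd, ?_, cx_comm fun Y hY => ?_⟩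
    · rw [← LinearMap.baseChange_add, ← h]
    · rw [← bc_mul, ← bc_mul, hc Y hY]
  | zero => exact ⟨0, Submodule.zero_mem _, 0, Submodule.zero_mem _, (add_zero _).symm, fun Y _ => by
      rw [zero_mul, mul_zero]⟩
  | add a b _ _ ha hb =>
    obtain ⟨Z, hZ, d, hd, h, hc⟩ := ha
    obtain ⟨Z', hZ', d', hd', h', hc'⟩ := hb
    refine ⟨Z + Z', Submodule.add_mem _ hZ hZ', d + d', Submodule.add_mem _ hd hd', ?_,
      fun Y hY => by rw [add_mul, mul_add, hc Y hY, hc' Y hY]⟩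
    rw [h, h']
    abel
  | smul c a _ ha =>
    obtain ⟨Z, hZ, d, hd, h, hc⟩ := ha
    refine ⟨c • Z, Submodule.smul_mem _ c hZ, c • d, Submodule.smul_mem _ c hd, ?_,
      fun Y hY => by rw [smul_mul_assoc, mul_smul_comm, hc Y hY]⟩
    rw [h, smul_add]

/-- the endomorphisms killing all classes that are Hodge and de Rham-Betti classes -/
def NA : Submodule ℚ (Module.End ℚ A.H1) where
  carrier := {X | ∀ (m : ℕ) (ψ : MultilinearMap ℚ (fun _ : Fin m × Fin 2 => A.H1) ℚ),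
    IsHodgeTensor (A.per : A.H1 →+ (Fin g → ℂ)) ψ → IsDeRhamBettiForm QBar A.dR tau m ψ →
      Kills X ψ}
  zero_mem' := by
    intro m φ _ _ v
    refine Finset.sum_eq_zero fun k _ => ?_
    rw [LinearMap.zero_apply]
    exact φ.map_coord_zero k (Function.update_self _ _ _)
  add_mem' := by
    intro X Y hX hY m φ hφ hφ'
    exact A.kills_sum (hX m φ hφ hφ') (hY m φ hφ hφ')
  smul_mem' := by
    intro c X hX m φ hφ hφ' v
    have h1 := hX m φ hφ hφ' v
    rw [← mul_zero c, ← h1, Finset.mul_sum]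
    refine Finset.sum_congr rfl fun k _ => ?_
    rw [LinearMap.smul_apply, MultilinearMap.map_update_smul, smul_eq_mul]

theorem NA_bracket {X Y : Module.End ℚ A.H1} (hX : X ∈ A.NA) (hY : Y ∈ A.NA) :
    X * Y - Y * X ∈ A.NA := fun m ψ hψ hψ' => kills_bracket (hX m ψ hψ hψ') (hY m ψ hψ hψ')

theorem LA_le_NA : A.LA ≤ A.NA := fun _ hX m ψ _ hψ => hX m ψ hψ

theorem MA_le_NA : A.MA ≤ A.NA := fun _ hX m ψ hψ _ => hX m ψ hψ

theorem NA_skew {X : Module.End ℚ A.H1} (hX : X ∈ A.NA) : IsSkew A.om X :=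
  (kills_one2 A.om X).1 (hX 1 _ (one2_hodge _ A.om A.isHodge_om) (one2_drb _ A.dR tau A.om_drb))

theorem NA_comm {X P : Module.End ℚ A.H1} (hX : X ∈ A.NA) (hP : P ∈ A.EA) : X * P = P * X := by
  have hE := A.mem_EA.1 hP
  have hs := A.NA_skew hX
  have h4 : Kills X (one2 (A.om.comp P)) := by
    refine hX 1 _ (one2_hodge _ _ ?_) (one2_drb _ A.dR tau ?_)
    · obtain ⟨E, hE', hinv⟩ := A.isHodge_om
      obtain ⟨P', hP'⟩ := A.hodge_end hE
      refine ⟨E.comp (P'.restrictScalars ℝ), fun x y => ?_, fun z hz u v => ?_⟩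
      · rw [LinearMap.comp_apply, LinearMap.comp_apply, LinearMap.restrictScalars_apply,
          hP', hE']
      · rw [LinearMap.comp_apply, LinearMap.comp_apply, LinearMap.restrictScalars_apply,
          LinearMap.restrictScalars_apply, P'.map_smul, hinv z hz]
    · rw [← coe_basis] at hE ⊢
      exact drb_comp_end A.basis tau A.om A.om_drb' P hE
  rw [kills_one2] at h4
  refine LinearMap.ext fun u => ?_
  rw [← sub_eq_zero]
  apply A.om_nondeg
  intro v
  have h5 := h4 u v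
  rw [LinearMap.comp_apply, LinearMap.comp_apply] at h5
  have h6 := hs (P u) v
  rw [map_sub, LinearMap.sub_apply, Module.End.mul_apply, Module.End.mul_apply]
  linear_combination h6 - h5

/-- A Lie algebra which contains the Lie algebra of the Hodge group and respects the polarization
acts semisimply. -/
theorem semi_NA : Semi A.NA := by
  intro U hU
  let U' : Submodule ℚ A.H1 :=
    { carrier := {v | ∀ u ∈ U, A.om u v = 0}
      zero_mem' := fun u _ => map_zero _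
      add_mem' := fun {v w} hv hw u hu => by rw [map_add, hv u hu, hw u hu, add_zero]
      smul_mem' := fun c v hv u hu => by rw [map_smul, hv u hu, smul_zero] }
  have hstab : ∀ X ∈ A.NA, ∀ u ∈ U', X u ∈ U' := by
    intro X hX v hv u hu
    have h1 := A.NA_skew hX u v
    have h2 : A.om (X u) v = 0 := hv _ (hU X hX u hu)
    rwa [h2, zero_add] at h1
  have hdisj : U ⊓ U' = ⊥ := by
    rw [eq_bot_iff]
    rintro u ⟨hu, hu'⟩
    rw [Submodule.mem_bot]
    have h1 : A.E (Complex.I • A.per u) (A.per u) = 0 := by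
      apply exists_sep
      intro f
      rw [← om_cmp]
      exact hu' _ (hU _ (A.MA_le_NA (A.J_mem f)) u hu)
    apply A.per_inj
    rw [map_zero]
    by_contra hne
    have h2 := A.E_pos hne
    rw [A.E_anti, h1, neg_zero] at h2
    exact lt_irrefl _ h2
  have hU' : U' = LinearMap.BilinForm.orthogonal (A.om : LinearMap.BilinForm ℚ A.H1) U := by
    ext v
    rw [LinearMap.BilinForm.mem_orthogonal_iff]
    rfl
  refine ⟨U', hstab, ?_⟩
  rw [hU', LinearMap.BilinForm.isCompl_orthogonal_iff_disjoint A.om_isRefl, disjoint_iff, ← hU']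
  exact hdisj

theorem NA_pos {X : Module.End ℚ A.H1} (hX : X ∈ A.NA) (hc : ∀ Y ∈ A.NA, Y * X = X * Y)
    (htr : LinearMap.trace ℚ A.H1 (X * X) = 0) : X = 0 := by
  obtain ⟨M, hM⟩ := A.hodgeEnd_of_comm fun Y hY => hc Y (A.MA_le_NA hY)
  exact A.trace_sq hM (A.NA_skew hX) htr

theorem trace_NA : Pool.Agent.W516.KC2.TraceNondeg A.NA := by
  intro X hX htr
  have h1 := central_of_trace A.NA A.semi_NA (fun X hX Y hY => A.NA_bracket hX hY) hX htr
  exact A.NA_pos hX h1 (htr X hX)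

/-- the centre -/
def CN : Submodule ℚ (Module.End ℚ A.H1) where
  carrier := {X | X ∈ A.NA ∧ ∀ Y ∈ A.NA, Y * X = X * Y}
  zero_mem' := ⟨A.NA.zero_mem, fun Y _ => by rw [mul_zero, zero_mul]⟩
  add_mem' := fun {P Q} hP hQ => ⟨A.NA.add_mem hP.1 hQ.1, fun X hX => by
    rw [mul_add, add_mul, hP.2 X hX, hQ.2 X hX]⟩
  smul_mem' := fun c P hP => ⟨A.NA.smul_mem c hP.1, fun X hX => by
    rw [mul_smul_comm, smul_mul_assoc, hP.2 X hX]⟩

/-- Endomorphisms which commute with the Lie algebra of the de Rham-Betti classes commute with the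
larger Lie algebra. -/
theorem cx_com (T : Module.End ℂ (ℂ ⊗[ℚ] A.H1)) (h : ∀ X ∈ cx A.LA, T * X = X * T) :
    ∀ X ∈ cx A.NA, T * X = X * T := by
  refine cx_comm fun X hX => ?_
  rw [← comm_iff]
  intro lam
  have h1 : Pool.Agent.W516.DR.cmpE lam T ∈ A.EA := fun Y hY =>
    (((comm_iff Y T).2 (h _ (bc_mem hY))) lam).symm
  exact (A.NA_comm hX h1).symm

/-- **Main theorem**: the Lie algebra of the Hodge group is the sum of its centre and of the Lie
algebra of the de Rham-Betti classes, if it is of type `A_1`. -/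
theorem NA_le_of_typeA {n : ℕ} {φ : Fin n → TA.S →ₗ[ℂ] Module.End ℂ (ℂ ⊗[ℚ] A.H1)}
    (h : TA.TypeA φ (cx A.NA)) : A.NA ≤ A.LA ⊔ A.CN := by
  refine le_of_trace A.NA A.trace_NA (fun X hX Y hY => A.NA_bracket hX hY)
    (fun X hX hc htr => A.NA_pos hX hc htr) (fun X hX Y hY => ?_)
    fun X hX hc => Submodule.mem_sup_right ⟨hX, hc⟩
  refine Submodule.mem_sup_left (mem_of_bc ?_)
  rw [bc_br]
  exact h.br_mem (cx_mono A.LA_le_NA) (cx_mono A.DA_le)
    (cx_br fun X hX Y hY => by rw [← bc_br]; exact bc_mem (A.LA_bracket hX hY))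
    A.cx_perfect A.cx_dec A.cx_com (bc_mem hX) (bc_mem hY)

/-- The de Rham-Betti classes which are killed by the centre are Hodge classes. -/
theorem hodge_of_typeA {n : ℕ} {φ : Fin n → TA.S →ₗ[ℂ] Module.End ℂ (ℂ ⊗[ℚ] A.H1)}
    (h : TA.TypeA φ (cx A.NA)) {m : ℕ} {ψ : MultilinearMap ℚ (fun _ : Fin m × Fin 2 => A.H1) ℚ}
    (hψ : IsDeRhamBettiForm QBar A.dR tau m ψ) (hz : ∀ X ∈ A.CN, Kills X ψ) :
    IsHodgeTensor (A.per : A.H1 →+ (Fin g → ℂ)) ψ := by
  refine hodge_of_kills _ A.isRationalStructure ψ fun Z hZ => ?_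
  obtain ⟨Y, hY, Z', hZ', rfl⟩ := Submodule.mem_sup.1 (A.NA_le_of_typeA h (A.MA_le_NA hZ))
  exact A.kills_sum (hY m ψ hψ) (hz _ hZ')

end AbVar

end Pool.Agent.Y102
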