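import Pool.Agent.Y102.T6

set_option autoImplicit false
set_option linter.unusedSectionVars false
set_option linter.unusedSimpArgs false
set_option linter.unusedVariables false

/-!
# Algebras of type `A_1` in terms of matrices
-/

open Module Function TensorProduct

noncomputable section

namespace Pool.Agent.Y102

open Pool.Agent.W516.DR Pool.Agent.H204R3.GP Pool.Agent.W516.KC Pool.Agent.H204R3.SP

theorem TA.TypeA.map {R R' : Type} [Ring R] [Algebra ℂ R] [Ring R'] [Algebra ℂ R'] (e : R' ≃ₐ[ℂ] R)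
    {I : Type} [Fintype I] [DecidableEq I] {φ : I → TA.S →ₗ[ℂ] R'} {M : Submodule ℂ R'}
    (h : TA.TypeA φ M) :
    TA.TypeA (fun i => e.toLinearMap ∘ₗ φ i) (M.map e.toLinearMap) := by
  have he : ∀ x, e.toLinearMap x = e x := fun _ => rfl
  have hφ : ∀ i a, (e.toLinearMap ∘ₗ φ i) a = e (φ i a) := fun _ _ => rfl
  have hcen : ∀ z, TA.Cen M z → TA.Cen (M.map e.toLinearMap) (e z) := by
    rintro z hz _ ⟨Y, hY, rfl⟩
    rw [he, ← map_mul, ← map_mul, hz Y hY]
  refine ⟨fun i a b => ?_, fun i k hik a b => ?_, fun i => ?_, fun i x hx => ?_, ?_,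
    fun i k hik => ?_⟩
  · rw [hφ, hφ, hφ, ← map_mul, h.mul]
  · rw [hφ, hφ, ← map_mul, ← map_mul, h.comm i k hik]
  · rw [hφ]
    exact fun h1 => h.one i ((map_eq_zero_iff e e.injective).1 h1)
  · exact ⟨φ i x, h.mem i x hx, rfl⟩
  · rintro _ ⟨X, hX, rfl⟩
    obtain ⟨ξ, h1, h2⟩ := h.dec X hX
    refine ⟨ξ, h1, ?_⟩
    have h3 := hcen _ h2
    rw [map_sub, map_sum] at h3
    exact h3
  · rcases h.pair i k hik with h1 | ⟨N, h1, h2, h3, h4, h5⟩
    · left
      rw [hφ, hφ, ← map_mul]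
      exact fun h2 => h1 ((map_eq_zero_iff e e.injective).1 h2)
    · right
      refine ⟨e N, fun h6 => h1 ((map_eq_zero_iff e e.injective).1 h6), ?_, ?_, ?_, ?_⟩
      · rw [hφ, ← map_mul, h2]
      · rw [hφ, ← map_mul, h3]
      · intro l hl1 hl2 a
        rw [hφ, ← map_mul, ← map_mul, h4 l hl1 hl2]
      · rintro _ ⟨z, hz, rfl⟩ hzc
        have h6 : TA.Cen M z := by
          intro Y hY
          have h7 := hzc _ ⟨Y, hY, rfl⟩
          rw [he, he, ← map_mul, ← map_mul] at h7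
          exact e.injective h7
        rw [he, ← map_mul, ← map_mul, h5 z hz h6]

section Mat

variable {n : ℕ}

/-- the matrix over the complex numbers -/
def toC (X : Module.End ℚ (Fin n → ℚ)) : Matrix (Fin n) (Fin n) ℂ :=
  Matrix.of fun i j => (X (Pi.single j 1) i : ℂ)

theorem toC_eq (X : Module.End ℚ (Fin n → ℚ)) :
    toC X = (LinearMap.toMatrix' X).map (algebraMap ℚ ℂ) := by
  ext i j
  rw [Matrix.map_apply, LinearMap.toMatrix'_apply]
  rfl

/-- matrices and endomorphisms -/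
def matE (n : ℕ) : Matrix (Fin n) (Fin n) ℂ ≃ₐ[ℂ] Module.End ℂ (ℂ ⊗[ℚ] (Fin n → ℚ)) :=
  (LinearMap.toMatrixAlgEquiv (Algebra.TensorProduct.basis ℂ (Pi.basisFun ℚ (Fin n)))).symm

theorem matE_toC (X : Module.End ℚ (Fin n → ℚ)) : matE n (toC X) = X.baseChange ℂ := by
  unfold matE
  rw [AlgEquiv.symm_apply_eq]
  have h1 := LinearMap.toMatrix_baseChange (A := ℂ) X (Pi.basisFun ℚ (Fin n))
    (Pi.basisFun ℚ (Fin n))
  rw [LinearMap.toMatrix_eq_toMatrix', ← toC_eq] at h1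
  exact h1.symm

end Mat

/-- The span of the matrices of the elements of a space. -/
theorem map_lie {n : ℕ} (S : Submodule ℚ (Module.End ℚ (Fin n → ℚ))) :
    (Submodule.span ℂ {Y | ∃ X ∈ S, Y = toC X}).map (matE n).toLinearMap = cx S := by
  rw [Submodule.map_span]
  congr 1
  ext Y
  constructor
  · rintro ⟨_, ⟨X, hX, rfl⟩, rfl⟩
    exact ⟨X, hX, matE_toC X⟩
  · rintro ⟨X, hX, rfl⟩
    exact ⟨toC X, ⟨X, hX, rfl⟩, matE_toC X⟩

theorem AbVar.cas_hodge' {g : ℕ} (A : AbVar g) {n : ℕ}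
    {φ : Fin n → TA.S →ₗ[ℂ] Matrix (Fin (2 * g)) (Fin (2 * g)) ℂ}
    (h : TA.TypeA φ (Submodule.span ℂ {Y | ∃ X ∈ A.NA, Y = toC X})) :
    IsHodgeTensor (A.per : A.H1 →+ (Fin g → ℂ)) A.cas := by
  have h1 := h.map (matE (2 * g))
  rw [map_lie] at h1
  exact A.cas_hodge h1

end Pool.Agent.Y102
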