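import Pool.Agent.Y102.AVDefs
import Pool.Agent.Y102.Bost
import Pool.Agent.W516.DRHodge

set_option autoImplicit false
set_option linter.unusedSectionVars false

/-!
# The Riemann form
-/

open Module Filter Topology

noncomputable section

namespace Pool.Agent.Y102

open Pool.Agent.W516.DR Pool.Agent.H204R3.GP

namespace AbVar

variable {g : ℕ} (A : AbVar g)

/-- the quasi-periods, extended -/
def etaR : (Fin g → ℂ) →ₗ[ℝ] (Fin g → ℂ) := A.lam.constr ℝ A.η

theorem etaR_lam (j : Fin (2 * g)) : A.etaR (A.lam j) = A.η j := A.lam.constr_basis ℝ _ _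

theorem etaR_apply (u : Fin g → ℂ) (k : Fin g) :
    A.etaR u k = ∑ j, A.lam.repr u j * A.η j k := by
  unfold etaR
  rw [Basis.constr_apply_fintype, Finset.sum_apply]
  refine Finset.sum_congr rfl fun j _ => ?_
  rw [Pi.smul_apply, Complex.real_smul]
  rfl

theorem riemannForm_eq (u v : Fin g → ℂ) : riemannForm A.lam A.η u v =
    (∑ k, (A.etaR u k * v k - A.etaR v k * u k)) / (2 * Real.pi * Complex.I) := by
  unfold riemannForm
  simp only [etaR_apply]

theorem pi_ne : (2 * Real.pi * Complex.I : ℂ) ≠ 0 := by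
  simp [Real.pi_ne_zero]

/-- the form with complex values -/
def BC : (Fin g → ℂ) →ₗ[ℝ] (Fin g → ℂ) →ₗ[ℝ] ℂ :=
  LinearMap.mk₂ ℝ (fun u v => riemannForm A.lam A.η u v)
    (fun u u' v => by
      simp only [riemannForm_eq, map_add, Pi.add_apply]
      rw [← add_div, ← Finset.sum_add_distrib]
      congr 1
      exact Finset.sum_congr rfl fun k _ => by ring)
    (fun c u v => by
      simp only [riemannForm_eq, map_smul, Pi.smul_apply, Complex.real_smul]
      rw [← mul_div_assoc, Finset.mul_sum]
      congr 1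
      exact Finset.sum_congr rfl fun k _ => by ring)
    (fun u v v' => by
      simp only [riemannForm_eq, map_add, Pi.add_apply]
      rw [← add_div, ← Finset.sum_add_distrib]
      congr 1
      exact Finset.sum_congr rfl fun k _ => by ring)
    (fun c u v => by
      simp only [riemannForm_eq, map_smul, Pi.smul_apply, Complex.real_smul]
      rw [← mul_div_assoc, Finset.mul_sum]
      congr 1
      exact Finset.sum_congr rfl fun k _ => by ring)

theorem BC_apply (u v : Fin g → ℂ) : A.BC u v = riemannForm A.lam A.η u v := rfl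

theorem legendre (i j : Fin (2 * g)) :
    ∃ n : ℤ, riemannForm A.lam A.η (A.lam i) (A.lam j) = n := by
  have h1 := A.quasiperiodic 0 j (A.lam i)
  have h2 := A.quasiperiodic 0 i 0
  have h3 := A.quasiperiodic 0 i (A.lam j)
  have h4 := A.quasiperiodic 0 j 0
  rw [zero_add] at h2 h4
  rw [h2, A.origin.1] at h1
  rw [h4, A.origin.1, add_comm (A.lam j) (A.lam i)] at h3
  rw [h1] at h3
  simp only [Pi.zero_apply, mul_zero, Finset.sum_const_zero, zero_add, mul_one] at h3
  rw [← Complex.exp_add, ← Complex.exp_add, Complex.exp_eq_exp_iff_exists_int] at h3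
  obtain ⟨n, hn⟩ := h3
  refine ⟨-n, ?_⟩
  rw [riemannForm_eq, etaR_lam, etaR_lam, div_eq_iff pi_ne, Finset.sum_sub_distrib]
  push_cast
  linear_combination -hn

/-- the Riemann form is real -/
theorem BC_im (u v : Fin g → ℂ) : (A.BC u v).im = 0 := by
  have h1 : A.BC.compr₂ Complex.imLm = 0 := by
    refine A.lam.ext fun i => A.lam.ext fun j => ?_
    obtain ⟨n, hn⟩ := A.legendre i j
    rw [LinearMap.compr₂_apply, BC_apply, hn]
    simp
  exact congrArg (fun F : (Fin g → ℂ) →ₗ[ℝ] (Fin g → ℂ) →ₗ[ℝ] ℝ => F u v) h1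

/-- the Riemann form with real values -/
def E : (Fin g → ℂ) →ₗ[ℝ] (Fin g → ℂ) →ₗ[ℝ] ℝ := A.BC.compr₂ Complex.reLm

theorem E_coe (u v : Fin g → ℂ) : ((A.E u v : ℝ) : ℂ) = riemannForm A.lam A.η u v := by
  apply Complex.ext
  · rfl
  · rw [Complex.ofReal_im]
    exact (A.BC_im u v).symm

theorem E_anti (u v : Fin g → ℂ) : A.E u v = -A.E v u := by
  have h : ((A.E u v : ℝ) : ℂ) = ((-A.E v u : ℝ) : ℂ) := by
    rw [Complex.ofReal_neg, E_coe, E_coe, riemannForm_eq, riemannForm_eq, ← neg_div,
      ← Finset.sum_neg_distrib]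
    congr 1
    exact Finset.sum_congr rfl fun k _ => by ring
  exact_mod_cast h

theorem E_I (u v : Fin g → ℂ) :
    A.E (Complex.I • u) (Complex.I • v) = A.E u v ∧
      A.E (Complex.I • u) v = -A.E u (Complex.I • v) := by
  have h1 : ((A.E u v : ℝ) : ℂ) - A.E (Complex.I • u) (Complex.I • v) +
      Complex.I * (A.E (Complex.I • u) v + A.E u (Complex.I • v)) = 0 := by
    simp only [E_coe, riemannForm_eq, Pi.smul_apply, smul_eq_mul]
    have h2 : ∀ x y z w : ℂ, x / (2 * Real.pi * Complex.I) - y / (2 * Real.pi * Complex.I) +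
        Complex.I * (z / (2 * Real.pi * Complex.I) + w / (2 * Real.pi * Complex.I)) =
        (x - y + Complex.I * (z + w)) / (2 * Real.pi * Complex.I) := by
      intro x y z w
      ring
    rw [h2, ← Finset.sum_sub_distrib, ← Finset.sum_add_distrib, Finset.mul_sum,
      ← Finset.sum_add_distrib]
    rw [div_eq_zero_iff]
    left
    refine Finset.sum_eq_zero fun k _ => ?_
    linear_combination (A.etaR u k * v k - A.etaR v k * u k) * Complex.I_mul_I
  have h2 := congrArg Complex.re h1
  have h3 := congrArg Complex.im h1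
  simp at h2 h3
  constructor
  · linarith
  · linarith

theorem E_unit (z : ℂ) (hz : ‖z‖ = 1) (u v : Fin g → ℂ) : A.E (z • u) (z • v) = A.E u v := by
  obtain ⟨h1, h2⟩ := A.E_I u v
  have h3 : ∀ w : Fin g → ℂ, z • w = z.re • w + z.im • (Complex.I • w) := by
    intro w
    conv_lhs => rw [← Complex.re_add_im z]
    rw [add_smul, mul_smul]
    rfl
  simp only [h3, map_add, LinearMap.add_apply, map_smul, LinearMap.smul_apply, h1, h2]
  have h4 : z.re * z.re + z.im * z.im = 1 := by
    have h5 := Complex.normSq_apply z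
    rw [Complex.normSq_eq_norm_sq, hz] at h5
    linarith
  simp only [smul_eq_mul]
  linear_combination A.E u v * h4

theorem E_pos {u : Fin g → ℂ} (hu : u ≠ 0) : 0 < A.E u (Complex.I • u) := A.positive u hu

theorem E_nondeg {u : Fin g → ℂ} (h : ∀ v, A.E u v = 0) : u = 0 := by
  by_contra hu
  have h1 := A.E_pos hu
  rw [h] at h1
  exact lt_irrefl _ h1

/-- the matrix of the Riemann form -/
def nn (i j : Fin (2 * g)) : ℤ := (A.legendre i j).choose

theorem nn_spec (i j : Fin (2 * g)) : A.E (A.lam i) (A.lam j) = A.nn i j := by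
  have h : riemannForm A.lam A.η (A.lam i) (A.lam j) = ((A.nn i j : ℤ) : ℂ) :=
    (A.legendre i j).choose_spec
  rw [← E_coe] at h
  exact_mod_cast h

/-- the Riemann form on the rational homology -/
def om : A.H1 →ₗ[ℚ] A.H1 →ₗ[ℚ] ℚ :=
  Matrix.toLinearMap₂' ℚ (Matrix.of fun i j => ((A.nn i j : ℤ) : ℚ))

theorem per_apply (w : A.H1) : A.per w = ∑ j, w j • A.lam j := rfl

theorem eta_apply (w : A.H1) : A.eta w = ∑ j, w j • A.η j := rfl

theorem rat_smul (q : ℚ) (v : Fin g → ℂ) : q • v = (q : ℝ) • v :=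
  (Rat.cast_smul_eq_qsmul ℝ q v).symm

theorem etaR_per (w : A.H1) : A.etaR (A.per w) = A.eta w := by
  rw [per_apply, eta_apply, map_sum]
  refine Finset.sum_congr rfl fun j _ => ?_
  rw [rat_smul, rat_smul, map_smul, etaR_lam]

theorem om_coe (u v : A.H1) : ((A.om u v : ℚ) : ℝ) = A.E (A.per u) (A.per v) := by
  unfold om
  rw [Matrix.toLinearMap₂'_apply, per_apply, per_apply]
  simp only [map_sum, LinearMap.sum_apply, rat_smul, map_smul, LinearMap.smul_apply, nn_spec,
    Matrix.of_apply, smul_eq_mul]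
  push_cast
  rw [Finset.sum_comm]
  refine Finset.sum_congr rfl fun j _ => ?_
  rw [Finset.mul_sum]
  exact Finset.sum_congr rfl fun i _ => by ring

theorem om_pairing (u v : A.H1) : ((A.om u v : ℚ) : ℂ) =
    (∑ k, (A.eta u k * A.per v k - A.eta v k * A.per u k)) / (2 * Real.pi * Complex.I) := by
  have h := A.E_coe (A.per u) (A.per v)
  rw [← om_coe, riemannForm_eq, etaR_per, etaR_per] at h
  exact_mod_cast h

/-- the basis of the homology -/
def bas : Basis (Fin (2 * g)) ℚ A.H1 := Pi.basisFun ℚ (Fin (2 * g))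

theorem per_bas (j : Fin (2 * g)) : A.per (A.bas j) = A.lam j := by
  unfold bas
  rw [Pi.basisFun_apply, per_apply, Finset.sum_eq_single j]
  · rw [Pi.single_eq_same, one_smul]
  · intro i _ hi
    rw [Pi.single_eq_of_ne hi, zero_smul]
  · intro h
    exact absurd (Finset.mem_univ _) h

theorem eta_bas (j : Fin (2 * g)) : A.eta (A.bas j) = A.η j := by
  rw [← etaR_per, per_bas, etaR_lam]

theorem indep_per : LinearIndependent ℝ (fun j => A.per (A.bas j)) := by
  have h : (fun j => A.per (A.bas j)) = A.lam := funext fun j => A.per_bas j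
  rw [h]
  exact A.lam.linearIndependent

theorem finrank_H1 : finrank ℚ A.H1 = 2 * Fintype.card (Fin g) := by
  rw [Module.finrank_eq_card_basis A.bas, Fintype.card_fin, Fintype.card_fin]

theorem isRationalStructure : IsRationalStructure (A.per : A.H1 →+ (Fin g → ℂ)) := by
  have h : finrank ℚ A.H1 = 2 * g := by rw [finrank_H1, Fintype.card_fin]
  refine ⟨A.bas.reindex (finCongr h.symm), A.lam.reindex (finCongr h.symm), fun i => ?_⟩
  rw [Basis.reindex_apply, Basis.reindex_apply]
  exact (A.per_bas _).symm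

theorem isHodge_om : IsHodgeBilinear (A.per : A.H1 →+ (Fin g → ℂ)) A.om :=
  ⟨A.E, fun x y => (A.om_coe x y).symm, fun z hz u v => A.E_unit z hz u v⟩

/-- A real-linear identity can be checked on the homology. -/
theorem ext_per {S : Type*} [AddCommGroup S] [Module ℝ S] {F G : (Fin g → ℂ) →ₗ[ℝ] S}
    (h : ∀ w, F (A.per w) = G (A.per w)) : F = G :=
  A.lam.ext fun j => by rw [← per_bas]; exact h _

theorem om_nondeg {u : A.H1} (h : ∀ v, A.om u v = 0) : u = 0 := by
  have h1 : A.E (A.per u) = 0 := A.ext_per fun w => by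
    rw [← om_coe, h]
    simp
  have h2 : A.per u = 0 := A.E_nondeg fun v => by rw [h1]; rfl
  have h3 := A.lam.linearIndependent
  rw [Fintype.linearIndependent_iff] at h3
  funext j
  have h4 := h3 (fun j => (u j : ℝ)) (by
    rw [← h2, per_apply]
    exact Finset.sum_congr rfl fun j _ => (rat_smul _ _).symm) j
  exact_mod_cast h4

/-- The Riemann form is a de Rham-Betti class. -/
theorem om_drb {K : Type} [Field K] [Algebra K ℂ] :
    IsDeRhamBettiBilinear K A.dR (2 * Real.pi * Complex.I) A.om := by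
  classical
  refine ⟨Sum.elim (fun k => Sum.elim (fun _ => 0) (fun l => if k = l then -1 else 0))
    (fun k => Sum.elim (fun l => if k = l then 1 else 0) (fun _ => 0)), fun u v => ?_⟩
  have h1 := A.om_pairing u v
  rw [eq_div_iff pi_ne] at h1
  have h2 : algebraMap ℚ ℂ (A.om u v) = ((A.om u v : ℚ) : ℂ) := rfl
  rw [h2, mul_comm, h1, Fintype.sum_sum_type]
  simp only [Fintype.sum_sum_type, Sum.elim_inl, Sum.elim_inr, map_zero, zero_mul,
    Finset.sum_const_zero, zero_add, add_zero, apply_ite (algebraMap K ℂ), map_neg, map_one,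
    ite_mul, Finset.sum_ite_eq, Finset.mem_univ, if_true, one_mul, neg_mul]
  rw [← Finset.sum_add_distrib]
  refine Finset.sum_congr rfl fun k _ => ?_
  change _ = -(A.per u k * A.eta v k) + A.eta u k * A.per v k
  ring

/-- The periods are linearly independent. -/
theorem indep_dR : LinearIndependent ℂ A.dR := by
  rw [Fintype.linearIndependent_iff]
  intro a ha
  set a₁ : Fin g → ℂ := fun k => a (Sum.inl k) with ha₁
  set b : Fin g → ℂ := fun k => a (Sum.inr k) with hb
  -- the relation on the homology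
  have h1 : ∀ w, ∑ k, a₁ k * A.per w k + ∑ k, b k * A.eta w k = 0 := by
    intro w
    have h2 := congrArg (fun F : A.H1 →ₗ[ℚ] ℂ => F w) ha
    simp only [Fintype.sum_sum_type, LinearMap.add_apply, LinearMap.sum_apply,
      LinearMap.smul_apply, smul_eq_mul] at h2
    exact h2
  -- the relation on the tangent space
  let F : (Fin g → ℂ) →ₗ[ℝ] ℂ :=
    ∑ k, a₁ k • (LinearMap.proj k : (Fin g → ℂ) →ₗ[ℝ] ℂ) +
      ∑ k, b k • ((LinearMap.proj k : (Fin g → ℂ) →ₗ[ℝ] ℂ).comp A.etaR)
  have hF : ∀ u, F u = ∑ k, a₁ k * u k + ∑ k, b k * A.etaR u k := by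
    intro u
    simp only [F, LinearMap.add_apply, LinearMap.sum_apply, LinearMap.smul_apply, smul_eq_mul,
      LinearMap.comp_apply, LinearMap.proj_apply]
  have hF0 : F = 0 := A.ext_per fun w => by
    rw [hF, etaR_per, h1]
    rfl
  have h2 : ∀ u, ∑ k, a₁ k * u k + ∑ k, b k * A.etaR u k = 0 := by
    intro u
    rw [← hF, hF0]
    rfl
  -- the form is complex linear
  let l : (Fin g → ℂ) → ℂ := fun u => (∑ k, (-a₁ k - A.etaR b k) * u k) / (2 * Real.pi * Complex.I)
  have h3 : ∀ u, ((A.E u b : ℝ) : ℂ) = l u := by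
    intro u
    rw [E_coe, riemannForm_eq]
    change _ = (∑ k, (-a₁ k - A.etaR b k) * u k) / (2 * Real.pi * Complex.I)
    congr 1
    have h4 := h2 u
    have h5 : ∑ k, (A.etaR u k * b k - A.etaR b k * u k) =
        ∑ k, b k * A.etaR u k - ∑ k, A.etaR b k * u k := by
      rw [← Finset.sum_sub_distrib]
      exact Finset.sum_congr rfl fun k _ => by ring
    have h6 : ∑ k, (-a₁ k - A.etaR b k) * u k =
        -(∑ k, a₁ k * u k) - ∑ k, A.etaR b k * u k := by
      rw [← Finset.sum_neg_distrib, ← Finset.sum_sub_distrib]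
      exact Finset.sum_congr rfl fun k _ => by ring
    rw [h5, h6]
    linear_combination h4
  have h4 : ∀ u, l (Complex.I • u) = Complex.I * l u := by
    intro u
    change (∑ k, (-a₁ k - A.etaR b k) * (Complex.I • u) k) / (2 * Real.pi * Complex.I) =
      Complex.I * ((∑ k, (-a₁ k - A.etaR b k) * u k) / (2 * Real.pi * Complex.I))
    rw [← mul_div_assoc, Finset.mul_sum]
    congr 1
    refine Finset.sum_congr rfl fun k _ => ?_
    rw [Pi.smul_apply, smul_eq_mul]
    ring
  have h5 : ∀ u, A.E u b = 0 := by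
    intro u
    have h6 := h3 (Complex.I • u)
    rw [h4, ← h3] at h6
    have h7 := congrArg Complex.im h6
    rw [Complex.ofReal_im, Complex.I_mul_im, Complex.ofReal_re] at h7
    exact h7.symm
  have hb0 : b = 0 := A.E_nondeg fun v => by rw [E_anti, h5, neg_zero]
  have h6 : ∀ u : Fin g → ℂ, ∑ k, a₁ k * u k = 0 := by
    intro u
    have h7 := h2 u
    rw [hb0] at h7
    simpa using h7
  rintro (k | k)
  · have h7 := h6 (Pi.single k 1)
    rw [Finset.sum_eq_single k] at h7
    · simpa using h7
    · intro j _ hj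
      rw [Pi.single_eq_of_ne hj, mul_zero]
    · intro h
      exact absurd (Finset.mem_univ _) h
  · exact congrFun hb0 k

theorem span_dR : Submodule.span ℂ (Set.range A.dR) = ⊤ := by
  apply A.indep_dR.span_eq_top_of_card_eq_finrank'
  rw [Module.finrank_linearMap_self, finrank_H1, Fintype.card_sum, two_mul]

end AbVar

end Pool.Agent.Y102
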