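import Mathlib

set_option autoImplicit false
set_option linter.unusedSectionVars false
set_option linter.unusedSimpArgs false
set_option linter.unusedVariables false

/-!
# The grading of a semisimple Lie algebra defined by a long root
-/

open Module LieAlgebra LieModule LieAlgebra.IsKilling

namespace Pool.Agent.Y102.S4

/-- A semisimple Lie algebra contains an `sl_2`-triple coming from a long root. -/
theorem exists_long {L : Type*} [LieRing L] [LieAlgebra ℂ L] [FiniteDimensional ℂ L]
    [IsKilling ℂ L] [Nontrivial L] :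
    ∃ h e f : L, IsSl2Triple h e f ∧ ∀ x : L, ∃ (a b : ℂ) (x1 x0 y1 : L),
      x = a • e + x1 + x0 + y1 + b • f ∧ ⁅h, x1⁆ = x1 ∧ ⁅h, x0⁆ = 0 ∧ ⁅h, y1⁆ = -y1 := by
  obtain ⟨y, hy⟩ := exists_isCartanSubalgebra_engel ℂ L
  set H := LieSubalgebra.engel ℂ y with hH
  have hne : Nonempty H.root := by
    by_contra hcon
    have h1 := cartan_sup_iSup_rootSpace_eq_top (K := ℂ) (L := L) H
    have h2 : (⨆ α : Weight ℂ H L, ⨆ (_ : α.IsNonZero), rootSpace H α) = ⊥ := by
      rw [eq_bot_iff]
      refine iSup₂_le fun α hα => ?_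
      exact absurd ⟨⟨α, by simpa using hα⟩⟩ hcon
    rw [h2, sup_bot_eq] at h1
    have h3 : ∀ x : L, x ∈ H := fun x => by
      have : x ∈ H.toLieSubmodule := by rw [h1]; exact LieSubmodule.mem_top x
      simpa using this
    have h4 : ∀ x y : L, ⁅x, y⁆ = 0 := fun x y => by
      have h5 : ⁅(⟨x, h3 x⟩ : H), (⟨y, h3 y⟩ : H)⁆ = 0 := trivial_lie_zero _ _ _ _
      exact congrArg Subtype.val h5
    obtain ⟨x, hx⟩ := exists_ne (0 : L)
    apply hx
    have h6 := IsKilling.ker_killingForm_eq_bot (R := ℂ) (L := L)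
    rw [LinearMap.ker_eq_bot'] at h6
    apply h6
    ext z
    rw [killingForm_apply_apply]
    have : ad ℂ L x = 0 := by ext w; exact h4 x w
    rw [this]
    simp
  have hfin : Finite H.root := inferInstance
  obtain ⟨α, hα⟩ := Finite.exists_max (fun i : H.root =>
    ((rootSystem H).posRootForm ℤ).rootLength i)
  have hα0 : (α : Weight ℂ H L).IsNonZero := H.isNonZero_coe_root α
  obtain ⟨h, e, f, t, he, hf⟩ := exists_isSl2Triple_of_weight_isNonZero hα0
  have hco := t.h_eq_coroot hα0 he hf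
  refine ⟨h, e, f, t, ?_⟩
  let P : Submodule ℂ L :=
    { carrier := {x | ∃ (a b : ℂ) (x1 x0 y1 : L),
        x = a • e + x1 + x0 + y1 + b • f ∧ ⁅h, x1⁆ = x1 ∧ ⁅h, x0⁆ = 0 ∧ ⁅h, y1⁆ = -y1}
      zero_mem' := ⟨0, 0, 0, 0, 0, by simp, by simp, by simp, by simp⟩
      add_mem' := by
        rintro _ _ ⟨a, b, x1, x0, y1, rfl, h1, h2, h3⟩ ⟨a', b', x1', x0', y1', rfl, h1', h2', h3'⟩
        refine ⟨a + a', b + b', x1 + x1', x0 + x0', y1 + y1', ?_, ?_, ?_, ?_⟩
        · rw [add_smul, add_smul]; abel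
        · rw [lie_add, h1, h1']
        · rw [lie_add, h2, h2', add_zero]
        · rw [lie_add, h3, h3', neg_add]
      smul_mem' := by
        rintro c _ ⟨a, b, x1, x0, y1, rfl, h1, h2, h3⟩
        refine ⟨c * a, c * b, c • x1, c • x0, c • y1, ?_, ?_, ?_, ?_⟩
        · simp only [smul_add, smul_smul]
        · rw [lie_smul, h1]
        · rw [lie_smul, h2, smul_zero]
        · rw [lie_smul, h3, smul_neg] }
  have hcart : ∀ x ∈ H, x ∈ P := by
    intro x hx
    refine ⟨0, 0, 0, x, 0, by simp, by simp, ?_, by simp⟩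
    have hh : h ∈ H := by rw [hco]; exact Submodule.coe_mem _
    have h5 : ⁅(⟨h, hh⟩ : H), (⟨x, hx⟩ : H)⁆ = 0 := trivial_lie_zero _ _ _ _
    exact congrArg Subtype.val h5
  have hroot : ∀ β : Weight ℂ H L, β.IsNonZero → ∀ x ∈ rootSpace H β, x ∈ P := by
    intro β hβ x hx
    have hxh : ⁅h, x⁆ = β (coroot (α : Weight ℂ H L)) • x := by
      rw [hco]
      exact lie_eq_smul_of_mem_rootSpace hx _
    by_cases h1 : β = α
    · subst h1
      obtain ⟨c, hc⟩ := (finrank_eq_one_iff_of_nonzero' (⟨e, he⟩ : rootSpace H α.1)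
        (by simpa using t.e_ne_zero)).mp (finrank_rootSpace_eq_one _ hα0) ⟨x, hx⟩
      have hc' : c • e = x := congrArg Subtype.val hc
      exact ⟨c, 0, 0, 0, 0, by simp [hc'], by simp, by simp, by simp⟩
    by_cases h2 : β = -α.1
    · subst h2
      obtain ⟨c, hc⟩ := (finrank_eq_one_iff_of_nonzero' (⟨f, hf⟩ : rootSpace H (-α.1 : Weight ℂ H L))
        (by simpa using t.f_ne_zero)).mp (finrank_rootSpace_eq_one _ (by simpa using hα0)) ⟨x, hx⟩
      have hc' : c • f = x := congrArg Subtype.val hc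
      exact ⟨0, c, 0, 0, 0, by simp [hc'], by simp, by simp, by simp⟩
    · have hmem : β ∈ H.root := by simpa using hβ
      have h3 : ((rootSystem H).pairingIn ℤ ⟨β, hmem⟩ α) ∈ ({-1, 0, 1} : Set ℤ) := by
        by_contra hcon
        have h4 := ((rootSystem H).posRootForm ℤ).rootLength_lt_of_pairingIn_notMem
          (i := ⟨β, hmem⟩) (j := α) ?_ ?_ hcon
        · exact absurd (hα ⟨β, hmem⟩) (not_le.2 h4)
        · intro h5
          apply h1
          have h6 := (rootSystem H).root.injective h5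
          rw [← h6]
        · intro h5
          apply h2
          ext x
          have h6 := LinearMap.congr_fun h5 x
          simpa using h6
      have h4 : ((rootSystem H).pairingIn ℤ ⟨β, hmem⟩ α : ℂ) =
          β (coroot (α : Weight ℂ H L)) := by
        have := (rootSystem H).algebraMap_pairingIn ℤ ⟨β, hmem⟩ α
        simpa using this
      rw [← h4] at hxh
      rcases h3 with h3 | h3 | h3
      · rw [h3] at hxh
        exact ⟨0, 0, 0, 0, x, by simp, by simp, by simp, by simpa using hxh⟩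
      · rw [h3] at hxh
        exact ⟨0, 0, 0, x, 0, by simp, by simp, by simpa using hxh, by simp⟩
      · rw [Set.mem_singleton_iff.1 h3] at hxh
        exact ⟨0, 0, x, 0, 0, by simp, by simpa using hxh, by simp, by simp⟩
  intro x
  have h1 := cartan_sup_iSup_rootSpace_eq_top (K := ℂ) (L := L) H
  have hx : x ∈ (H.toLieSubmodule ⊔ ⨆ α : Weight ℂ H L, ⨆ (_ : α.IsNonZero), rootSpace H α) := by
    rw [h1]; exact LieSubmodule.mem_top x
  have h2 : ((H.toLieSubmodule ⊔ ⨆ α : Weight ℂ H L, ⨆ (_ : α.IsNonZero),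
      rootSpace H α : LieSubmodule ℂ H L) : Submodule ℂ L) ≤ P := by
    rw [LieSubmodule.sup_toSubmodule]
    refine sup_le (fun z hz => hcart z (by simpa using hz)) ?_
    rw [LieSubmodule.iSup_toSubmodule]
    refine iSup_le fun β => ?_
    rw [LieSubmodule.iSup_toSubmodule]
    exact iSup_le fun hβ => fun z hz => hroot β hβ z hz
  exact h2 hx

end Pool.Agent.Y102.S4
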