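import Pool.Agent.Y102.V7

set_option autoImplicit false
set_option linter.unusedSectionVars false
set_option linter.unusedSimpArgs false
set_option linter.unusedVariables false

/-!
# Subalgebras of `sl_4` acting on `U + U*` with the same enveloping algebra
-/

open Module Matrix

namespace Pool.Agent.Y102.S4

theorem GoodM.all {L : Submodule ℂ M4} (hL : GoodM L) (x : M4) (hx : x.trace = 0) : x ∈ L := by
  have htr : ∀ T : Module.End ℂ (Fin 4 → ℂ),
      LinearMap.trace ℂ (Fin 4 → ℂ) T = (LinearMap.toMatrix' T).trace := by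
    intro T
    rw [LinearMap.trace_eq_matrix_trace ℂ (Pi.basisFun ℂ (Fin 4)), LinearMap.toMatrix_eq_toMatrix']
  have hmul : ∀ S T : Module.End ℂ (Fin 4 → ℂ),
      LinearMap.toMatrix' (S * T) = LinearMap.toMatrix' S * LinearMap.toMatrix' T :=
    fun S T => LinearMap.toMatrix'_mul S T
  have hvec : ∀ (T : Module.End ℂ (Fin 4 → ℂ)) v, T v = LinearMap.toMatrix' T *ᵥ v := by
    intro T v
    rw [LinearMap.toMatrix'_mulVec]
  have hgood : Good (L.comap (LinearMap.toMatrix' (R := ℂ) (m := Fin 4) (n := Fin 4)).toLinearMap) :=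
    { br := fun S hS T hT => by
        have h1 := hL.br _ hS _ hT
        rw [Submodule.mem_comap, LinearEquiv.coe_coe, map_sub, hmul, hmul]
        exact h1
      tr := fun T hT => by
        rw [htr]
        exact hL.tr _ hT
      irr := fun P hP => hL.irr P fun y hy v hv => by
        have h1 := hP (Matrix.toLin' y) (by
          rw [Submodule.mem_comap, LinearEquiv.coe_coe, LinearMap.toMatrix'_toLin']
          exact hy) v hv
        rwa [Matrix.toLin'_apply] at h1
      form := fun B hB => by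
        have h1 := hL.form (Matrix.of fun i j => B (Pi.single i 1) (Pi.single j 1)) fun y hy => by
          have h2 := hB (Matrix.toLin' y) (by
            rw [Submodule.mem_comap, LinearEquiv.coe_coe, LinearMap.toMatrix'_toLin']
            exact hy)
          have h3 : ∀ i, y *ᵥ Pi.single i 1 = ∑ k, y k i • (Pi.single k 1 : Fin 4 → ℂ) := by
            intro i
            rw [Matrix.mulVec_single_one]
            ext k
            simp [Finset.sum_apply, Pi.single_apply]
          ext i j
          have h4 := h2 (Pi.single i 1) (Pi.single j 1)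
          rw [Matrix.toLin'_apply, Matrix.toLin'_apply, h3, h3, map_sum, map_sum,
            LinearMap.sum_apply] at h4
          rw [Matrix.add_apply, Matrix.mul_apply, Matrix.mul_apply, Matrix.zero_apply, ← h4]
          congr 1
          · refine Finset.sum_congr rfl fun k _ => ?_
            rw [map_smul, LinearMap.smul_apply, smul_eq_mul]
            rfl
          · refine Finset.sum_congr rfl fun k _ => ?_
            rw [map_smul, smul_eq_mul, mul_comm]
            rfl
        refine LinearMap.pi_ext' fun i => ?_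
        refine LinearMap.ext_ring ?_
        refine LinearMap.pi_ext' fun j => ?_
        refine LinearMap.ext_ring ?_
        have h2 := congrFun (congrFun h1 i) j
        exact h2 }
  have h1 := hgood.all (by simp) (Matrix.toLin' x) (by
    rw [htr, LinearMap.toMatrix'_toLin']
    exact hx)
  rwa [Submodule.mem_comap, LinearEquiv.coe_coe, LinearMap.toMatrix'_toLin'] at h1

section App

variable {R : Type} [Ring R] [Algebra ℂ R]

/-- The Lie algebra `M` is `sl_4`, acting by copies of the standard representation and of its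
dual. -/
structure TypeD (φ ψ : M4 →ₗ[ℂ] R) (M : Submodule ℂ R) : Prop where
  mulφ : ∀ a b, φ (a * b) = φ a * φ b
  mulψ : ∀ a b, ψ (a * b) = ψ a * ψ b
  oneφ : φ 1 ≠ 0
  oneψ : ψ 1 ≠ 0
  orth : φ 1 * ψ 1 = 0
  orth' : ψ 1 * φ 1 = 0
  mem : ∀ x, x.trace = 0 → φ x - ψ xᵀ ∈ M
  dec : ∀ X ∈ M, ∃ x, x.trace = 0 ∧ X = φ x - ψ xᵀ

theorem inj_of_mul {φ : M4 →ₗ[ℂ] R} (hmul : ∀ a b, φ (a * b) = φ a * φ b) (h1 : φ 1 ≠ 0) {x : M4}
    (hx : φ x = 0) : x = 0 := by
  by_contra hne
  obtain ⟨i, j, hij⟩ : ∃ i j, x i j ≠ 0 := by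
    by_contra hcon
    push Not at hcon
    exact hne (Matrix.ext hcon)
  have h2 : ∀ k l, φ (Matrix.single k l 1) = 0 := by
    intro k l
    have h3 : Matrix.single k l (1 : ℂ) =
        (x i j)⁻¹ • (Matrix.single k i 1 * x * Matrix.single j l 1) := by
      rw [Matrix.single_mul_mul_single, Matrix.smul_single, one_mul, mul_one, smul_eq_mul,
        inv_mul_cancel₀ hij]
    rw [h3, map_smul, hmul, hmul, hx, mul_zero, zero_mul, smul_zero]
  apply h1
  have h4 : (1 : M4) = ∑ k, Matrix.single k k 1 := by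
    ext a b
    fin_cases a <;> fin_cases b <;> simp [Fin.sum_univ_four, Matrix.single]
  rw [h4, map_sum]
  exact Finset.sum_eq_zero fun k _ => h2 k k

variable {φ ψ : M4 →ₗ[ℂ] R} {M L : Submodule ℂ R}

/-- Relations between the two actions which hold for the subalgebra hold for the algebra, if the
enveloping algebras agree. -/
theorem TypeD.rel (h : TypeD φ ψ M) (hLM : L ≤ M) (henv : ∀ X ∈ M, X ∈ Algebra.adjoin ℂ (L : Set R))
    (Q : M4 → M4 → Prop) (hone : ∀ c : ℂ, Q (c • 1) (c • 1))
    (hadd : ∀ u u' v v', Q u u' → Q v v' → Q (u + v) (u' + v'))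
    (hmul : ∀ u u' v v', Q u u' → Q v v' → Q (u * v) (u' * v'))
    (hL : ∀ x, x.trace = 0 → φ x - ψ xᵀ ∈ L → Q x (-xᵀ)) :
    ∀ x, x.trace = 0 → Q x (-xᵀ) := by
  have o1 : ∀ a b, φ a * ψ b = 0 := fun a b => by
    rw [← mul_one a, h.mulφ, ← one_mul b, h.mulψ, mul_assoc, ← mul_assoc (φ 1), h.orth, zero_mul,
      mul_zero]
  have o2 : ∀ a b, ψ a * φ b = 0 := fun a b => by
    rw [← mul_one a, h.mulψ, ← one_mul b, h.mulφ, mul_assoc, ← mul_assoc (ψ 1), h.orth', zero_mul,
      mul_zero]
  have key : ∀ a ∈ Algebra.adjoin ℂ (L : Set R), ∃ u u', Q u u' ∧ φ 1 * a = φ u ∧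
      ψ 1 * a = ψ u' := by
    intro a ha
    refine Algebra.adjoin_induction (p := fun a _ => ∃ u u', Q u u' ∧ φ 1 * a = φ u ∧
      ψ 1 * a = ψ u') ?_ ?_ ?_ ?_ ha
    · intro a ha
      obtain ⟨x, hx, hax⟩ := h.dec a (hLM ha)
      refine ⟨x, -xᵀ, hL x hx (by rw [← hax]; exact ha), ?_, ?_⟩
      · rw [hax, mul_sub, ← h.mulφ, one_mul, o1, sub_zero]
      · rw [hax, mul_sub, o2, ← h.mulψ, one_mul, zero_sub, map_neg]
    · intro c
      refine ⟨c • 1, c • 1, hone c, ?_, ?_⟩
      · rw [Algebra.algebraMap_eq_smul_one, mul_smul_comm, mul_one, map_smul]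
      · rw [Algebra.algebraMap_eq_smul_one, mul_smul_comm, mul_one, map_smul]
    · rintro a b _ _ ⟨u, u', h1, h2, h3⟩ ⟨v, v', h4, h5, h6⟩
      exact ⟨u + v, u' + v', hadd _ _ _ _ h1 h4, by rw [mul_add, h2, h5, map_add],
        by rw [mul_add, h3, h6, map_add]⟩
    · rintro a b _ _ ⟨u, u', h1, h2, h3⟩ ⟨v, v', h4, h5, h6⟩
      refine ⟨u * v, u' * v', hmul _ _ _ _ h1 h4, ?_, ?_⟩
      · rw [← mul_assoc, h2, ← mul_one u, h.mulφ, mul_assoc, h5, mul_one, ← h.mulφ]
      · rw [← mul_assoc, h3, ← mul_one u', h.mulψ, mul_assoc, h6, mul_one, ← h.mulψ]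
  intro x hx
  obtain ⟨u, u', h1, h2, h3⟩ := key _ (henv _ (h.mem x hx))
  rw [mul_sub, ← h.mulφ, one_mul, o1, sub_zero] at h2
  rw [mul_sub, o2, ← h.mulψ, one_mul, zero_sub, ← map_neg] at h3
  have e1 : u = x := by
    have := inj_of_mul h.mulφ h.oneφ (x := u - x) (by rw [map_sub, h2, sub_self])
    exact sub_eq_zero.1 this
  have e2 : u' = -xᵀ := by
    have := inj_of_mul h.mulψ h.oneψ (x := u' - -xᵀ) (by rw [map_sub, h3, sub_self])
    exact sub_eq_zero.1 this
  rw [e1, e2] at h1
  exact h1

/-- A subspace stable under all matrices. -/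
theorem all_stable {P : Submodule ℂ (Fin 4 → ℂ)} (hP : ∀ x : M4, ∀ v ∈ P, x *ᵥ v ∈ P) :
    P = ⊥ ∨ P = ⊤ := by
  by_cases h : P = ⊥
  · exact Or.inl h
  · right
    obtain ⟨v, hv, hv0⟩ := Submodule.exists_mem_ne_zero_of_ne_bot h
    obtain ⟨j, hj⟩ : ∃ j, v j ≠ 0 := by
      by_contra hcon
      push Not at hcon
      exact hv0 (funext hcon)
    rw [eq_top_iff]
    intro w _
    have h1 := hP (Matrix.vecMulVec w (Pi.single j (v j)⁻¹)) v hv
    have h2 : Matrix.vecMulVec w (Pi.single j (v j)⁻¹) *ᵥ v = w := by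
      rw [Matrix.vecMulVec_mulVec]
      simp [hj]
    rwa [h2] at h1

theorem TypeD.le (h : TypeD φ ψ M) (hLM : L ≤ M)
    (hbr : ∀ X ∈ L, ∀ Y ∈ L, X * Y - Y * X ∈ L)
    (henv : ∀ X ∈ M, X ∈ Algebra.adjoin ℂ (L : Set R)) : M ≤ L := by
  have o1 : ∀ a b, φ a * ψ b = 0 := fun a b => by
    rw [← mul_one a, h.mulφ, ← one_mul b, h.mulψ, mul_assoc, ← mul_assoc (φ 1), h.orth, zero_mul,
      mul_zero]
  have o2 : ∀ a b, ψ a * φ b = 0 := fun a b => by
    rw [← mul_one a, h.mulψ, ← one_mul b, h.mulφ, mul_assoc, ← mul_assoc (ψ 1), h.orth', zero_mul,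
      mul_zero]
  let l : Submodule ℂ M4 :=
    { carrier := {x | x.trace = 0 ∧ φ x - ψ xᵀ ∈ L}
      zero_mem' := ⟨Matrix.trace_zero _ _, by
        rw [Matrix.transpose_zero, map_zero, map_zero, sub_zero]; exact L.zero_mem⟩
      add_mem' := by
        rintro x y ⟨hx, hx'⟩ ⟨hy, hy'⟩
        refine ⟨by rw [Matrix.trace_add, hx, hy, add_zero], ?_⟩
        have := L.add_mem hx' hy'
        rw [Matrix.transpose_add, map_add, map_add]
        convert this using 1
        abel
      smul_mem' := by
        rintro c x ⟨hx, hx'⟩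
        refine ⟨by rw [Matrix.trace_smul, hx, smul_zero], ?_⟩
        have := L.smul_mem c hx'
        rw [Matrix.transpose_smul, map_smul, map_smul, ← smul_sub]
        exact this }
  have hgood : GoodM l :=
    { br := by
        rintro x ⟨hx, hx'⟩ y ⟨hy, hy'⟩
        refine ⟨by rw [Matrix.trace_sub, Matrix.trace_mul_comm, sub_self], ?_⟩
        have h1 := hbr _ hx' _ hy'
        convert h1 using 1
        rw [mul_sub, sub_mul, sub_mul, mul_sub, sub_mul, sub_mul, o1, o2, o1, o2, ← h.mulφ,
          ← h.mulφ, ← h.mulψ, ← h.mulψ, Matrix.transpose_sub, Matrix.transpose_mul,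
          Matrix.transpose_mul, map_sub, map_sub]
        abel
      tr := fun x hx => hx.1
      irr := fun P hP => by
        have h1 := h.rel hLM henv (fun u _ => ∀ v ∈ P, u *ᵥ v ∈ P)
          (fun c v hv => by
            rw [Matrix.smul_mulVec, Matrix.one_mulVec]
            exact P.smul_mem c hv)
          (fun u _ v _ hu hv w hw => by
            rw [Matrix.add_mulVec]
            exact P.add_mem (hu w hw) (hv w hw))
          (fun u _ v _ hu hv w hw => by
            rw [← Matrix.mulVec_mulVec]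
            exact hu _ (hv w hw))
          (fun x hx hx' => hP x ⟨hx, hx'⟩)
        refine all_stable fun x v hv => ?_
        have h2 := h1 (x - (x.trace / 4) • 1) (by
          rw [Matrix.trace_sub, Matrix.trace_smul, Matrix.trace_one, Fintype.card_fin, smul_eq_mul]
          push_cast
          ring) v hv
        rw [Matrix.sub_mulVec, Matrix.smul_mulVec, Matrix.one_mulVec] at h2
        have h3 := P.add_mem h2 (P.smul_mem (x.trace / 4) hv)
        rwa [sub_add_cancel] at h3
      form := fun B hB => by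
        have h1 := h.rel hLM henv (fun u u' => u' * B = B * u)
          (fun c => by rw [smul_mul_assoc, mul_smul_comm, one_mul, mul_one])
          (fun u u' v v' hu hv => by rw [add_mul, mul_add, hu, hv])
          (fun u u' v v' hu hv => by rw [mul_assoc, hv, ← mul_assoc, hu, mul_assoc])
          (fun x hx hx' => by
            have h2 := hB x ⟨hx, hx'⟩
            rw [neg_mul]
            exact neg_eq_of_add_eq_zero_right h2)
        ext i l
        obtain ⟨j, hji, hjl⟩ : ∃ j : Fin 4, j ≠ i ∧ j ≠ l := by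
          fin_cases i <;> fin_cases l <;> decide
        have h2 := h1 (Matrix.single i j 1) (by
          rw [Matrix.trace_single_eq_of_ne _ _ _ hji.symm])
        have h3 := congrFun (congrFun h2 j) l
        have h4 : (B * Matrix.single i j (1 : ℂ) : M4) j l = 0 :=
          Matrix.mul_single_apply_of_ne _ _ _ _ _ hjl.symm B
        rw [Matrix.transpose_single, neg_mul, Matrix.neg_apply, Matrix.single_mul_apply_same,
          one_mul, h4] at h3
        exact neg_eq_zero.1 h3 }
  intro X hX
  obtain ⟨x, hx, rfl⟩ := h.dec X hX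
  exact (hgood.all x hx).2

end App

end Pool.Agent.Y102.S4
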