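import Pool.Agent.Y102.V12

set_option autoImplicit false
set_option linter.unusedSectionVars false
set_option linter.unusedSimpArgs false
set_option linter.unusedVariables false

/-!
# Full subalgebras in terms of matrices
-/

open Module Function TensorProduct

noncomputable section

namespace Pool.Agent.Y102

open Pool.Agent.W516.DR Pool.Agent.H204R3.GP Pool.Agent.W516.KC Pool.Agent.H204R3.SP

theorem toMatrix_bc {n : ℕ} (X : Module.End ℚ (Fin n → ℚ)) :
    LinearMap.toMatrix (Algebra.TensorProduct.basis ℂ (Pi.basisFun ℚ (Fin n)))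
      (Algebra.TensorProduct.basis ℂ (Pi.basisFun ℚ (Fin n))) (X.baseChange ℂ) = toC X := by
  have h1 := LinearMap.toMatrix_baseChange (A := ℂ) X (Pi.basisFun ℚ (Fin n))
    (Pi.basisFun ℚ (Fin n))
  rw [LinearMap.toMatrix_eq_toMatrix', ← toC_eq] at h1
  exact h1

/-- Relations between eigenvalues, in terms of matrices. -/
theorem dom_of_matrix {n : ℕ} {X Y : Module.End ℚ (Fin n → ℚ)}
    (h : ∀ (r : ℕ) (v : Fin r → Fin n → ℂ) (x y : Fin r → ℂ),
      (∀ k, v k ≠ 0 ∧ Matrix.mulVec (toC X) (v k) = x k • v k ∧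
        Matrix.mulVec (toC Y) (v k) = y k • v k) → ∑ k, x k = 0 → ∑ k, y k = 0) : Dom X Y := by
  intro r v x y h0 hx hy hs
  let B := Algebra.TensorProduct.basis ℂ (Pi.basisFun ℚ (Fin n))
  refine h r (fun k => B.repr (v k)) x y (fun k => ⟨?_, ?_, ?_⟩) hs
  · intro h1
    apply h0 k
    have h2 : B.repr (v k) = 0 := by
      ext i
      exact congrFun h1 i
    exact (LinearEquiv.map_eq_zero_iff _).1 h2
  · rw [← toMatrix_bc, LinearMap.toMatrix_mulVec_repr, hx k, map_smul]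
    rfl
  · rw [← toMatrix_bc, LinearMap.toMatrix_mulVec_repr, hy k, map_smul]
    rfl

namespace AbVar

variable {g : ℕ} {A : AbVar g} {𝔥 : Submodule ℚ (Module.End ℚ A.H1)}

theorem Full.of_typeA' (h : A.Full 𝔥) {n : ℕ}
    {φ : Fin n → TA.S →ₗ[ℂ] Matrix (Fin (2 * g)) (Fin (2 * g)) ℂ}
    (ht : TA.TypeA φ (Submodule.span ℂ {Y | ∃ X ∈ A.NA, Y = toC X})) {X Y : Module.End ℚ A.H1}
    (hX : X ∈ A.NA) (hY : Y ∈ A.NA) : X * Y - Y * X ∈ 𝔥 := by
  have h1 := ht.map (matE (2 * g))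
  rw [map_lie] at h1
  exact h.of_typeA h1 hX hY

theorem Full.of_typeD' (h : A.Full 𝔥)
    {φ ψ : S4.M4 →ₗ[ℂ] Matrix (Fin (2 * g)) (Fin (2 * g)) ℂ}
    (ht : S4.TypeD φ ψ (Submodule.span ℂ {Y | ∃ X ∈ A.NA, Y = toC X})) : A.NA ≤ 𝔥 := by
  have h1 := ht.map (matE (2 * g))
  rw [map_lie] at h1
  exact h.of_typeD h1

end AbVar

end Pool.Agent.Y102
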