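import Pool.Agent.Y102.V13
import Pool.Agent.Y102.SP.ColMain

set_option autoImplicit false
set_option linter.unusedSectionVars false
set_option linter.unusedSimpArgs false
set_option linter.unusedVariables false

/-!
# Full subalgebras of Lie algebras of spin type
-/

open Module Function TensorProduct

noncomputable section

namespace Pool.Agent.Y102

open Pool.Agent.W516.DR Pool.Agent.H204R3.GP Pool.Agent.W516.KC Pool.Agent.H204R3.SP

namespace AbVar

variable {g : ℕ} {A : AbVar g} {𝔥 : Submodule ℚ (Module.End ℚ A.H1)}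

theorem Full.of_spin (h : A.Full 𝔥) {N k : ℕ} {E : Fin N → Module.End ℂ (ℂ ⊗[ℚ] A.H1)}
    {c : Fin N → Fin k} (hE : SP.CE E)
    (hc : ∀ i, 6 ≤ (Finset.univ.filter fun j => c j = c i).card)
    (hl : cx A.NA = SP.soC E c) : A.NA ≤ 𝔥 := by
  intro X hX
  refine mem_of_bc ?_
  rcases subsingleton_or_nontrivial (ℂ ⊗[ℚ] A.H1) with hs | hn
  · have : X.baseChange ℂ = 0 := by
      ext x
      exact Subsingleton.elim _ _
    rw [this]
    exact Submodule.zero_mem _
  · refine SP.main_col hE hc (cx 𝔥) (hl ▸ cx_mono h.le) h.cx_br' ?_ (hl ▸ bc_mem hX)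
    intro i j hij
    by_cases h1 : i = j
    · subst h1
      rw [hE.sq]
      exact Subalgebra.one_mem _
    · refine h.cx_adjoin _ ?_
      rw [hl]
      exact Submodule.subset_span ⟨i, j, h1, hij, rfl⟩

theorem Full.of_spin' (h : A.Full 𝔥) {N k : ℕ} {E : Fin N → Matrix (Fin (2 * g)) (Fin (2 * g)) ℂ}
    {c : Fin N → Fin k} (h1 : ∀ i, E i * E i = 1) (h2 : ∀ i j, i ≠ j → E i * E j = -(E j * E i))
    (hc : ∀ i, 6 ≤ (Finset.univ.filter fun j => c j = c i).card)
    (hl : Submodule.span ℂ {Y | ∃ X ∈ A.NA, Y = toC X} =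
      Submodule.span ℂ {Y | ∃ i j, i ≠ j ∧ c i = c j ∧ Y = E i * E j}) : A.NA ≤ 𝔥 := by
  refine h.of_spin (E := fun i => matE (2 * g) (E i)) ⟨fun i => ?_, fun i j hij => ?_⟩ hc ?_
  · rw [← map_mul, h1, map_one]
  · rw [← map_mul, h2 i j hij, map_neg, map_mul]
  · rw [← map_lie, hl, Submodule.map_span]
    unfold SP.soC
    congr 1
    ext Y
    constructor
    · rintro ⟨_, ⟨i, j, a, b, rfl⟩, rfl⟩
      exact ⟨i, j, a, b, map_mul (matE (2 * g)) _ _⟩
    · rintro ⟨i, j, a, b, rfl⟩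
      exact ⟨_, ⟨i, j, a, b, rfl⟩, map_mul (matE (2 * g)) _ _⟩

end AbVar

end Pool.Agent.Y102
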