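import Pool.Agent.Y102.V14
import Pool.Agent.Y102.SP.Small

set_option autoImplicit false
set_option linter.unusedSectionVars false
set_option linter.unusedSimpArgs false
set_option linter.unusedVariables false

/-!
# Full subalgebras of Lie algebras of spin type: all sizes apart from five
-/

open Module Function TensorProduct

noncomputable section

namespace Pool.Agent.Y102

open Pool.Agent.W516.DR Pool.Agent.H204R3.GP Pool.Agent.W516.KC Pool.Agent.H204R3.SP

namespace AbVar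

variable {g : ℕ} {A : AbVar g} {𝔥 : Submodule ℚ (Module.End ℚ A.H1)}

theorem Full.of_small (h : A.Full 𝔥) {N k r : ℕ} (hr : r = 3 ∨ r = 4)
    {E : Fin N → Module.End ℂ (ℂ ⊗[ℚ] A.H1)} {c : Fin N → Fin k} (hE : SP.CE E)
    (hc : ∀ σ, (Finset.univ.filter fun j => c j = σ).card = r)
    (hl : cx A.NA = SP.soC E c) : A.NA ≤ 𝔥 := by
  intro X hX
  refine mem_of_bc ?_
  rcases subsingleton_or_nontrivial (ℂ ⊗[ℚ] A.H1) with hs | hn
  · have : X.baseChange ℂ = 0 := by
      ext x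
      exact Subsingleton.elim _ _
    rw [this]
    exact Submodule.zero_mem _
  · obtain ⟨n, φ, ht⟩ := SP.typeA_small hr hE hc
    have h3 : ∀ i, 3 ≤ (Finset.univ.filter fun j => c j = c i).card := fun i => by
      rw [hc]
      omega
    rw [← hl] at ht
    have h1 := SP.soC_perfect hE h3 (hl ▸ bc_mem hX)
    refine (Submodule.span_le.2 ?_) h1
    rintro _ ⟨x, hx, y, hy, rfl⟩
    rw [← hl] at hx hy
    exact ht.br_mem (cx_mono h.le) (cx_mono h.der_le) h.cx_br' h.cx_perfect h.cx_dec h.cx_com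
      hx hy

/-- All full subalgebras of a Lie algebra of spin type are equal to it. -/
theorem Full.of_spinMat (h : A.Full 𝔥) {N k r : ℕ}
    {E : Fin N → Matrix (Fin (2 * g)) (Fin (2 * g)) ℂ} {c : Fin N → Fin k} (hr : 3 ≤ r) (hr5 : r ≠ 5)
    (h1 : ∀ i, E i * E i = 1) (h2 : ∀ i j, i ≠ j → E i * E j = -(E j * E i))
    (hc : ∀ σ, (Finset.univ.filter fun j => c j = σ).card = r)
    (hl : Submodule.span ℂ {Y | ∃ X ∈ A.NA, Y = toC X} =
      Submodule.span ℂ {Y | ∃ i j, i ≠ j ∧ c i = c j ∧ Y = E i * E j}) : A.NA ≤ 𝔥 := by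
  rcases Nat.lt_or_ge r 6 with h6 | h6
  · refine h.of_small (r := r) (by omega) (E := fun i => matE (2 * g) (E i)) (c := c)
      ⟨fun i => ?_, fun i j hij => ?_⟩ hc ?_
    · rw [← map_mul, h1, map_one]
    · rw [← map_mul, h2 i j hij, map_neg, map_mul]
    · rw [← map_lie, hl, Submodule.map_span]
      unfold SP.soC
      congr 1
      ext Y
      constructor
      · rintro ⟨_, ⟨i, j, a, b, rfl⟩, rfl⟩
        exact ⟨i, j, a, b, map_mul (matE (2 * g)) _ _⟩
      · rintro ⟨i, j, a, b, rfl⟩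
        exact ⟨_, ⟨i, j, a, b, rfl⟩, map_mul (matE (2 * g)) _ _⟩
  · exact h.of_spin' h1 h2 (fun i => by rw [hc]; exact h6) hl

theorem hodge_of_spinMat (A : AbVar g) {N k r : ℕ}
    {E : Fin N → Matrix (Fin (2 * g)) (Fin (2 * g)) ℂ} {c : Fin N → Fin k} (hr : 3 ≤ r) (hr5 : r ≠ 5)
    (h1 : ∀ i, E i * E i = 1) (h2 : ∀ i j, i ≠ j → E i * E j = -(E j * E i))
    (hc : ∀ σ, (Finset.univ.filter fun j => c j = σ).card = r)
    (hl : Submodule.span ℂ {Y | ∃ X ∈ A.NA, Y = toC X} =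
      Submodule.span ℂ {Y | ∃ i j, i ≠ j ∧ c i = c j ∧ Y = E i * E j}) {m : ℕ}
    {ξ : MultilinearMap ℚ (fun _ : Fin m × Fin 2 => A.H1) ℚ}
    (hξ : IsDeRhamBettiForm QBar A.dR tau m ξ) :
    IsHodgeTensor (A.per : A.H1 →+ (Fin g → ℂ)) ξ :=
  hodge_of_kills _ A.isRationalStructure ξ fun Z hZ =>
    (A.full_LA.of_spinMat hr hr5 h1 h2 hc hl) (A.MA_le_NA hZ) m ξ hξ

end AbVar

end Pool.Agent.Y102
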