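import Pool.Agent.Y102.V15
import Pool.Agent.Y102.AV19

set_option autoImplicit false
set_option linter.unusedSectionVars false
set_option linter.unusedSimpArgs false
set_option linter.unusedVariables false

/-!
# De Rham-Betti classes with all twists, and the Lie algebra
-/

open Module Function TensorProduct

noncomputable section

namespace Pool.Agent.Y102

open Pool.Agent.W516.DR Pool.Agent.H204R3.GP Pool.Agent.W516.KC Pool.Agent.H204R3.SP

theorem kills_reindex {Ω W : Type} [Field Ω] [AddCommGroup W] [Module Ω W] {κ κ' : Type}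
    [Fintype κ] [DecidableEq κ] [Fintype κ'] [DecidableEq κ'] (e : κ ≃ κ')
    {φ : MultilinearMap Ω (fun _ : κ => W) Ω} {X : Module.End Ω W} :
    Kills X (φ.domDomCongr e) ↔ Kills X φ := by
  have key : ∀ v : κ' → W, ∑ k, φ.domDomCongr e (update v k (X (v k))) =
      ∑ k, φ (update (v ∘ e) k (X ((v ∘ e) k))) := by
    intro v
    rw [← Equiv.sum_comp e]
    refine Finset.sum_congr rfl fun k _ => ?_
    rw [MultilinearMap.domDomCongr_apply]
    congr 1
    funext l
    by_cases h : l = k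
    · subst h
      simp
    · have h1 : e l ≠ e k := fun h2 => h (e.injective h2)
      simp [update_of_ne h, update_of_ne h1]
  constructor
  · intro h v
    have h1 := h (v ∘ e.symm)
    rw [key] at h1
    have h2 : (v ∘ e.symm) ∘ e = v := by
      funext l
      simp
    rwa [h2] at h1
  · intro h v
    rw [key]
    exact h _

namespace AbVar

variable {g : ℕ} (A : AbVar g)

theorem hodge_reindex_iff {κ κ' : Type} (e : κ ≃ κ')
    {φ : MultilinearMap ℚ (fun _ : κ => A.H1) ℚ} :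
    IsHodgeTensor (A.per : A.H1 →+ (Fin g → ℂ)) (φ.domDomCongr e) ↔
      IsHodgeTensor (A.per : A.H1 →+ (Fin g → ℂ)) φ := by
  refine ⟨A.hodge_reindex e, fun h => A.hodge_reindex e.symm ?_⟩
  have h1 : (φ.domDomCongr e).domDomCongr e.symm = φ := by
    ext v
    exact congrArg φ (funext fun i => congrArg v (e.symm_apply_apply i))
  rwa [h1]

theorem hodge_zero {κ : Type} :
    IsHodgeTensor (A.per : A.H1 →+ (Fin g → ℂ)) (0 : MultilinearMap ℚ (fun _ : κ => A.H1) ℚ) :=
  ⟨0, fun v => by rw [zero_apply, zero_apply, Rat.cast_zero], fun z _ u => by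
      rw [zero_apply, zero_apply]⟩

/-- A nonzero class has an even number of variables. -/
theorem compat_form {r : ℕ} {w : ℤ} {a : (Fin r → Fin g ⊕ Fin g) → QBar}
    {φ : MultilinearMap ℚ (fun _ : Fin r => A.H1) ℚ} (h : Compat A.dR tau w a φ) (hφ : φ ≠ 0) :
    ∃ (m : ℕ) (e : Fin r ≃ Fin m × Fin 2),
      IsDeRhamBettiForm QBar A.dR tau m (φ.domDomCongr e) := by
  have hw := A.weight h hφ
  rw [Fintype.card_fin] at hw
  obtain ⟨m, rfl⟩ : ∃ m : ℕ, w = m := ⟨w.toNat, by omega⟩
  have hr : r = m * 2 := by omega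
  subst hr
  let e : Fin (m * 2) ≃ Fin m × Fin 2 := finProdFinEquiv.symm
  have h1 := (Compat.reindex e).2 h
  refine ⟨m, e, fun J => a (J ∘ e), fun v => ?_⟩
  have h3 := h1 v
  rw [zpow_natCast] at h3
  exact h3

theorem form_compat {m : ℕ} {ψ : MultilinearMap ℚ (fun _ : Fin m × Fin 2 => A.H1) ℚ}
    (h : IsDeRhamBettiForm QBar A.dR tau m ψ) :
    ∃ a, Compat A.dR tau (m : ℤ) a (ψ.domDomCongr (finProdFinEquiv (m := m) (n := 2))) := by
  obtain ⟨b, hb⟩ := h
  refine ⟨fun J => b (J ∘ finProdFinEquiv), (Compat.reindex _).2 fun v => ?_⟩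
  rw [zpow_natCast]
  exact hb v

theorem hodge_all' (hA : ∀ (m : ℕ) (φ : MultilinearMap ℚ (fun _ : Fin m × Fin 2 => A.H1) ℚ),
      IsDeRhamBettiForm QBar A.dR tau m φ → IsHodgeTensor (A.per : A.H1 →+ (Fin g → ℂ)) φ)
    {r : ℕ} {w : ℤ} {a : (Fin r → Fin g ⊕ Fin g) → QBar}
    {φ : MultilinearMap ℚ (fun _ : Fin r => A.H1) ℚ} (h : Compat A.dR tau w a φ) :
    IsHodgeTensor (A.per : A.H1 →+ (Fin g → ℂ)) φ := by
  by_cases hφ : φ = 0
  · subst hφ
    exact A.hodge_zero
  · obtain ⟨m, e, h1⟩ := A.compat_form h hφ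
    exact A.hodge_reindex e (hA m _ h1)

theorem kills_all {X : Module.End ℚ A.H1} (hX : X ∈ A.LA)
    {r : ℕ} {w : ℤ} {a : (Fin r → Fin g ⊕ Fin g) → QBar}
    {φ : MultilinearMap ℚ (fun _ : Fin r => A.H1) ℚ} (h : Compat A.dR tau w a φ) : Kills X φ := by
  by_cases hφ : φ = 0
  · subst hφ
    intro v
    exact Finset.sum_eq_zero fun k _ => rfl
  · obtain ⟨m, e, h1⟩ := A.compat_form h hφ
    exact (kills_reindex e).1 (hX m _ h1)

/-- The Lie algebra in terms of the classes with all twists. -/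
theorem mem_NA_iff {X : Module.End ℚ A.H1} : X ∈ A.NA ↔
    ∀ (r : ℕ) (w : ℤ) (a : (Fin r → Fin g ⊕ Fin g) → QBar)
      (φ : MultilinearMap ℚ (fun _ : Fin r => A.H1) ℚ), Compat A.dR tau w a φ →
      IsHodgeTensor (A.per : A.H1 →+ (Fin g → ℂ)) φ → Kills X φ := by
  constructor
  · intro hX r w a φ h h'
    by_cases hφ : φ = 0
    · subst hφ
      intro v
      exact Finset.sum_eq_zero fun k _ => rfl
    · obtain ⟨m, e, h1⟩ := A.compat_form h hφ
      exact (kills_reindex e).1 (hX m _ ((A.hodge_reindex_iff e).2 h') h1)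
  · intro hX m ψ h1 h2
    obtain ⟨a, ha⟩ := A.form_compat h2
    exact (kills_reindex _).1 (hX _ _ a _ ha ((A.hodge_reindex_iff _).2 h1))

/-- The Lie algebra of all classes, in terms of the classes with all twists. -/
theorem mem_LA_iff {X : Module.End ℚ A.H1} : X ∈ A.LA ↔
    ∀ (r : ℕ) (w : ℤ) (a : (Fin r → Fin g ⊕ Fin g) → QBar)
      (φ : MultilinearMap ℚ (fun _ : Fin r => A.H1) ℚ), Compat A.dR tau w a φ → Kills X φ := by
  constructor
  · intro hX r w a φ h
    exact A.kills_all hX h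
  · intro hX m ψ h2
    obtain ⟨a, ha⟩ := A.form_compat h2
    exact (kills_reindex _).1 (hX _ _ a _ ha)

end AbVar

end Pool.Agent.Y102
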