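import Pool.Agent.Y102.V16
import Pool.Agent.Y102.CM.Rel

set_option autoImplicit false
set_option linter.unusedSectionVars false
set_option linter.unusedSimpArgs false
set_option linter.unusedVariables false

/-!
# Abelian varieties with complex multiplication by abelian fields
-/

open Module Function TensorProduct

noncomputable section

namespace Pool.Agent.Y102

open Pool.Agent.W516.DR Pool.Agent.H204R3.GP Pool.Agent.W516.KC Pool.Agent.H204R3.SP

theorem toC_injective {n : ℕ} {X Y : Module.End ℚ (Fin n → ℚ)} (h : toC X = toC Y) : X = Y := by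
  refine (Pi.basisFun ℚ (Fin n)).ext fun j => ?_
  funext i
  have h1 := congrFun (congrFun h i) j
  rw [Pi.basisFun_apply]
  exact Rat.cast_injective h1

theorem toC_mul {n : ℕ} (X Y : Module.End ℚ (Fin n → ℚ)) : toC (X * Y) = toC X * toC Y := by
  rw [toC_eq, toC_eq, toC_eq, ← Matrix.map_mul]
  congr 1
  exact LinearMap.toMatrix'_mul X Y

theorem toC_add {n : ℕ} (X Y : Module.End ℚ (Fin n → ℚ)) : toC (X + Y) = toC X + toC Y := by
  ext i j
  exact Rat.cast_add _ _

theorem toC_smul {n : ℕ} (c : ℚ) (X : Module.End ℚ (Fin n → ℚ)) :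
    toC (c • X) = (c : ℂ) • toC X := by
  ext i j
  exact Rat.cast_mul _ _

/-- A generic element of a space, for finitely many functionals. -/
theorem exists_gen {W : Type} [AddCommGroup W] [Module ℚ W] {n : ℕ} (S : Submodule ℚ W)
    (χ : Fin n → (W →ₗ[ℚ] ℂ)) :
    ∃ X ∈ S, ∀ i j, χ i X = χ j X → ∀ X' ∈ S, χ i X' = χ j X' := by
  classical
  obtain ⟨P, hP⟩ : ∃ P : Fin n → Fin n → Prop, ∀ i j, P i j ↔
    ¬∀ X' ∈ S, χ i X' = χ j X' := ⟨_, fun i j => Iff.rfl⟩
  obtain ⟨K, hKdef⟩ : ∃ K : {p : Fin n × Fin n // P p.1 p.2} → Subspace ℚ S,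
      ∀ p (R : S), R ∈ K p ↔ χ p.1.1 R = χ p.1.2 R :=
    ⟨fun p => LinearMap.ker ((χ p.1.1 - χ p.1.2) ∘ₗ S.subtype), fun p R => sub_eq_zero⟩
  have hK : ∀ p, K p ≠ ⊤ := by
    rintro ⟨⟨i, j⟩, hij⟩ htop
    refine (hP i j).1 hij fun R hR => ?_
    have h2 : (⟨R, hR⟩ : S) ∈ K ⟨⟨i, j⟩, hij⟩ := by rw [htop]; trivial
    exact (hKdef ⟨(i, j), hij⟩ ⟨R, hR⟩).1 h2
  by_contra hne
  push Not at hne
  have hcov : ⋃ p, (K p : Set S) = Set.univ := by
    rw [Set.eq_univ_iff_forall]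
    intro R
    obtain ⟨i, j, h1, R', h2, h3⟩ := hne R.1 R.2
    exact Set.mem_iUnion.2 ⟨⟨(i, j), (hP i j).2 fun h4 => h3 (h4 R' h2)⟩, (hKdef _ _).2 h1⟩
  obtain ⟨p, hp⟩ := Subspace.exists_eq_top_of_iUnion_eq_univ (k := ℚ) (E := S) (p := K) hcov
  exact hK p hp

namespace AbVar

variable {g : ℕ} (A : AbVar g)

theorem comm_mat {T : Matrix (Fin (2 * g)) (Fin (2 * g)) ℂ}
    (hT : ∀ X ∈ A.LA, T * toC X = toC X * T) {X : Module.End ℚ A.H1} (hX : X ∈ A.NA) :
    T * toC X = toC X * T := by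
  have h1 := A.full_LA.cx_com (matE (2 * g) T) (cx_comm fun Y hY => by
    rw [← matE_toC, ← map_mul, ← map_mul, hT Y hY]) _ (bc_mem hX)
  rw [← matE_toC, ← map_mul, ← map_mul] at h1
  exact (matE (2 * g)).injective h1

/-- Complex multiplication by abelian fields: `v` is a basis of eigenvectors, `G` is the Galois
group of an abelian CM field, `c` the complex conjugation, `ε` the CM type. -/
structure CMData {G : Type} [AddCommGroup G] [Fintype G] [AddAction G (Fin (2 * g))] (c : G)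
    (ε : Fin (2 * g) → ℤ) (v : Fin (2 * g) → Fin (2 * g) → ℂ) (τ : G → ℂ ≃+* ℂ) : Prop where
  li : LinearIndependent ℂ v
  odd : ∀ j, ε (c +ᵥ j) = -ε j
  sat : CM.Saturated ε c
  gal : ∀ X ∈ A.NA, ∃ x : Fin (2 * g) → ℂ, ∀ (s : G) j,
    Matrix.mulVec (toC X) (v (s +ᵥ j)) = τ s (x j) • v (s +ᵥ j)
  lie : Submodule.span ℂ {Y | ∃ X ∈ A.NA, Y = toC X} =
    Submodule.span ℂ {Y | ∃ s : G, ∀ j, Matrix.mulVec Y (v j) = (ε (s +ᵥ j) : ℂ) • v j}

variable {A} in
theorem CMData.NA_le {G : Type} [AddCommGroup G] [Fintype G] [AddAction G (Fin (2 * g))] {c : G}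
    {ε : Fin (2 * g) → ℤ} {v : Fin (2 * g) → Fin (2 * g) → ℂ} {τ : G → ℂ ≃+* ℂ}
    (d : A.CMData c ε v τ) : A.NA ≤ A.LA := by
  classical
  have hcard : Fintype.card (Fin (2 * g)) = finrank ℂ (Fin (2 * g) → ℂ) := by simp
  rcases Nat.eq_zero_or_pos g with hg | hg
  · subst hg
    intro X _
    have : X = 0 := by
      ext a i
      exact absurd i.2 (by simp)
    rw [this]
    exact A.LA.zero_mem
  have : Nonempty (Fin (2 * g)) := ⟨⟨0, by omega⟩⟩
  obtain ⟨b, hb⟩ : ∃ b : Basis (Fin (2 * g)) ℂ (Fin (2 * g) → ℂ), ∀ j, b j = v j :=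
    ⟨basisOfLinearIndependentOfCardEqFinrank d.li hcard, fun j => by simp⟩
  -- the matrix with given eigenvalues
  have hmat : ∀ f : Fin (2 * g) → (Fin (2 * g) → ℂ),
      ∃ M : Matrix (Fin (2 * g)) (Fin (2 * g)) ℂ, ∀ j, Matrix.mulVec M (v j) = f j := by
    intro f
    refine ⟨LinearMap.toMatrix' (b.constr ℂ f), fun j => ?_⟩
    rw [← Matrix.toLin'_apply, Matrix.toLin'_toMatrix', ← hb, Basis.constr_basis]
  have hext : ∀ M M' : Matrix (Fin (2 * g)) (Fin (2 * g)) ℂ,
      (∀ j, Matrix.mulVec M (v j) = Matrix.mulVec M' (v j)) → M = M' := by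
    intro M M' h
    apply Matrix.toLin'.injective
    refine b.ext fun j => ?_
    rw [hb, Matrix.toLin'_apply, Matrix.toLin'_apply, h]
  have hv0 : ∀ j, v j ≠ 0 := fun j => d.li.ne_zero j
  obtain ⟨χ, hχ0⟩ : ∃ χ : Fin (2 * g) → (Module.End ℚ A.H1 →ₗ[ℚ] ℂ),
      ∀ j X, χ j X = b.repr (Matrix.mulVec (toC X) (v j)) j := ⟨fun j =>
    { toFun := fun X => b.repr (Matrix.mulVec (toC X) (v j)) j
      map_add' := fun X Y => by
        rw [toC_add, Matrix.add_mulVec, map_add]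
        rfl
      map_smul' := fun q X => by
        rw [toC_smul, Matrix.smul_mulVec, map_smul, RingHom.id_apply]
        change (q : ℂ) * _ = _
        rw [Algebra.smul_def]
        rfl }, fun j X => rfl⟩
  have hχ : ∀ X ∈ A.NA, ∀ j, Matrix.mulVec (toC X) (v j) = χ j X • v j := by
    intro X hX j
    obtain ⟨x, hx⟩ := d.gal X hX
    have h1 := hx 0 j
    rw [zero_vadd] at h1
    have h2 : χ j X = τ 0 (x j) := by
      rw [hχ0, h1, map_smul, ← hb, Basis.repr_self, Finsupp.smul_apply, Finsupp.single_eq_same,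
        smul_eq_mul, mul_one]
    rw [h2, h1]
  have hgal : ∀ X ∈ A.NA, ∃ x : Fin (2 * g) → ℂ, ∀ (s : G) j, χ (s +ᵥ j) X = τ s (x j) := by
    intro X hX
    obtain ⟨x, hx⟩ := d.gal X hX
    refine ⟨x, fun s j => ?_⟩
    have h1 := hx s j
    rw [hχ X hX] at h1
    exact smul_left_injective ℂ (hv0 _) h1
  -- the eigenvalues are combinations of the types
  have htype : ∀ X ∈ A.NA, ∃ u : G → ℂ, ∀ j, χ j X = ∑ s, u s * (ε (s +ᵥ j) : ℂ) := by
    intro X hX
    have h1 : toC X ∈ Submodule.span ℂ {Y | ∃ s : G, ∀ j,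
        Matrix.mulVec Y (v j) = (ε (s +ᵥ j) : ℂ) • v j} := by
      rw [← d.lie]
      exact Submodule.subset_span ⟨X, hX, rfl⟩
    have h2 : ∀ Z ∈ Submodule.span ℂ {Y | ∃ s : G, ∀ j,
        Matrix.mulVec Y (v j) = (ε (s +ᵥ j) : ℂ) • v j}, ∃ u : G → ℂ, ∀ j,
        Matrix.mulVec Z (v j) = (∑ s, u s * (ε (s +ᵥ j) : ℂ)) • v j := by
      intro Z hZ
      induction hZ using Submodule.span_induction with
      | mem Z hZ =>
        obtain ⟨s, hs⟩ := hZ
        refine ⟨Pi.single s 1, fun j => ?_⟩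
        rw [hs j]
        congr 1
        rw [Finset.sum_eq_single s]
        · rw [Pi.single_eq_same, one_mul]
        · intro t _ ht
          rw [Pi.single_eq_of_ne ht, zero_mul]
        · intro h
          exact absurd (Finset.mem_univ s) h
      | zero => exact ⟨0, fun j => by simp⟩
      | add Z Z' _ _ h h' =>
        obtain ⟨u, hu⟩ := h
        obtain ⟨u', hu'⟩ := h'
        refine ⟨u + u', fun j => ?_⟩
        rw [Matrix.add_mulVec, hu, hu', ← add_smul, ← Finset.sum_add_distrib]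
        congr 1
        exact Finset.sum_congr rfl fun s _ => by rw [Pi.add_apply, add_mul]
      | smul q Z _ h =>
        obtain ⟨u, hu⟩ := h
        refine ⟨q • u, fun j => ?_⟩
        rw [Matrix.smul_mulVec, hu, smul_smul, Finset.mul_sum]
        congr 1
        exact Finset.sum_congr rfl fun s _ => by rw [Pi.smul_apply, smul_eq_mul, mul_assoc]
    obtain ⟨u, hu⟩ := h2 _ h1
    refine ⟨u, fun j => ?_⟩
    have h3 := hu j
    rw [hχ X hX] at h3
    exact smul_left_injective ℂ (hv0 _) h3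
  -- a generic element
  obtain ⟨X, hXL, hgen⟩ := exists_gen A.LA χ
  have hXN : X ∈ A.NA := A.LA_le_NA hXL
  obtain ⟨u, hu⟩ := htype X hXN
  -- separation
  have hsep : ∀ i j, χ i X = χ j X → ∀ Y ∈ A.NA, χ i Y = χ j Y := by
    intro i j hij Y hY
    obtain ⟨T, hT⟩ := hmat fun l => if l = i then v j else 0
    have h1 := A.comm_mat (T := T) (fun X' hX' => hext _ _ fun l => ?_) hY
    · have h2 := congrArg (fun M => Matrix.mulVec M (v i)) h1
      simp only [← Matrix.mulVec_mulVec] at h2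
      rw [hχ Y hY, Matrix.mulVec_smul, hT i, if_pos rfl, hχ Y hY] at h2
      exact smul_left_injective ℂ (hv0 _) h2
    · rw [← Matrix.mulVec_mulVec, ← Matrix.mulVec_mulVec, hχ X' (A.LA_le_NA hX'),
        Matrix.mulVec_smul, hT l]
      by_cases hl : l = i
      · rw [if_pos hl, hχ X' (A.LA_le_NA hX'), hl, hgen i j hij X' hX']
      · rw [if_neg hl, smul_zero, Matrix.mulVec_zero]
  have hsep' : ∀ i j, χ i X = χ j X → ∀ s : G, ε (s +ᵥ i) = ε (s +ᵥ j) := by
    intro i j hij s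
    obtain ⟨Z, hZ⟩ := hmat fun l => (ε (s +ᵥ l) : ℂ) • v l
    have h1 : Z ∈ Submodule.span ℂ {Y | ∃ X ∈ A.NA, Y = toC X} := by
      rw [d.lie]
      exact Submodule.subset_span ⟨s, hZ⟩
    have h2 : ∀ Z ∈ Submodule.span ℂ {Y | ∃ X ∈ A.NA, Y = toC X},
        ∃ z : ℂ, Matrix.mulVec Z (v i) = z • v i ∧ Matrix.mulVec Z (v j) = z • v j := by
      intro Z hZ
      induction hZ using Submodule.span_induction with
      | mem Z hZ =>
        obtain ⟨Y, hY, rfl⟩ := hZ
        exact ⟨χ i Y, hχ Y hY i, by rw [hsep i j hij Y hY]; exact hχ Y hY j⟩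
      | zero => exact ⟨0, by simp, by simp⟩
      | add Z Z' _ _ h h' =>
        obtain ⟨z, h3, h4⟩ := h
        obtain ⟨z', h5, h6⟩ := h'
        exact ⟨z + z', by rw [Matrix.add_mulVec, h3, h5, add_smul],
          by rw [Matrix.add_mulVec, h4, h6, add_smul]⟩
      | smul q Z _ h =>
        obtain ⟨z, h3, h4⟩ := h
        exact ⟨q * z, by rw [Matrix.smul_mulVec, h3, smul_smul],
          by rw [Matrix.smul_mulVec, h4, smul_smul]⟩
    obtain ⟨z, h3, h4⟩ := h2 Z h1
    rw [hZ] at h3 h4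
    have h5 : (ε (s +ᵥ i) : ℂ) = z := smul_left_injective ℂ (hv0 _) h3
    have h6 : (ε (s +ᵥ j) : ℂ) = z := smul_left_injective ℂ (hv0 _) h4
    exact_mod_cast h5.trans h6.symm
  -- the Lie algebra is commutative
  have hcomm : ∀ P ∈ A.NA, ∀ Q ∈ A.NA, P * Q = Q * P := by
    intro P hP Q hQ
    apply toC_injective
    rw [toC_mul, toC_mul]
    refine hext _ _ fun j => ?_
    rw [← Matrix.mulVec_mulVec, ← Matrix.mulVec_mulVec, hχ Q hQ, hχ P hP, Matrix.mulVec_smul,
      Matrix.mulVec_smul, hχ Q hQ, hχ P hP, smul_comm]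
  have hCN : A.NA ≤ A.CN := fun P hP => ⟨hP, fun Q hQ => hcomm Q hQ P hP⟩
  intro Y hY m φ hφ
  refine A.kills_of_dom (A.CN_le_ZA (hCN hXN)) (A.CN_le_ZA (hCN hY)) (dom_of_matrix ?_)
    (hXL m φ hφ)
  intro r w x y hw hsum
  have hcoord : ∀ P ∈ A.NA, ∀ (z : Fin (2 * g) → ℂ) l,
      b.repr (Matrix.mulVec (toC P) z) l = χ l P * b.repr z l := by
    intro P hP z l
    have h3 : (Finsupp.lapply l ∘ₗ b.repr.toLinearMap) ∘ₗ (Matrix.toLin' (toC P)) =
        (χ l P) • (Finsupp.lapply l ∘ₗ b.repr.toLinearMap) := by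
      refine b.ext fun i => ?_
      rw [LinearMap.comp_apply, hb, Matrix.toLin'_apply, hχ P hP, map_smul, LinearMap.smul_apply,
        LinearMap.comp_apply, LinearEquiv.coe_coe, ← hb, Basis.repr_self, Finsupp.lapply_apply,
        Finsupp.single_apply, smul_eq_mul, smul_eq_mul]
      by_cases hl : i = l
      · rw [if_pos hl, hl]
      · rw [if_neg hl, mul_zero, mul_zero]
    exact congrArg (fun F : (Fin (2 * g) → ℂ) →ₗ[ℂ] ℂ => F z) h3
  have hex : ∀ k, ∃ j, b.repr (w k) j ≠ 0 := by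
    intro k
    by_contra hcon
    push Not at hcon
    apply (hw k).1
    have h2 : b.repr (w k) = 0 := by
      ext i
      exact hcon i
    exact (LinearEquiv.map_eq_zero_iff _).1 h2
  choose k hk using hex
  have hx : ∀ l, x l = χ (k l) X := by
    intro l
    have h1 := hcoord X hXN (w l) (k l)
    rw [(hw l).2.1, map_smul, Finsupp.smul_apply, smul_eq_mul] at h1
    exact mul_right_cancel₀ (hk l) h1
  have hy : ∀ l, y l = χ (k l) Y := by
    intro l
    have h1 := hcoord Y hY (w l) (k l)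
    rw [(hw l).2.2, map_smul, Finsupp.smul_apply, smul_eq_mul] at h1
    exact mul_right_cancel₀ (hk l) h1
  obtain ⟨x', hx'⟩ := hgal X hXN
  have h0 : ∑ l, x' (k l) = 0 := by
    have h1 : τ 0 (∑ l, x' (k l)) = 0 := by
      rw [map_sum, ← hsum]
      refine Finset.sum_congr rfl fun l _ => ?_
      rw [← hx', zero_vadd, hx]
    exact (map_eq_zero_iff (τ 0) (τ 0).injective).1 h1
  have hrel := CM.relation d.odd d.sat u (fun j j' h => hsep' j j' (by rw [hu, hu, h])) k
    (fun s => by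
      have h1 : ∀ l, ∑ g, u g * (ε (g +ᵥ (s +ᵥ k l)) : ℂ) = τ s (x' (k l)) := fun l => by
        rw [← hu, hx']
      rw [Finset.sum_congr rfl fun l _ => h1 l, ← map_sum, h0, map_zero])
  obtain ⟨t, ht⟩ := htype Y hY
  rw [Finset.sum_congr rfl fun l _ => (hy l).trans (ht (k l)), Finset.sum_comm]
  refine Finset.sum_eq_zero fun s _ => ?_
  rw [← Finset.mul_sum, ← Int.cast_sum, hrel s, Int.cast_zero, mul_zero]

end AbVar

end Pool.Agent.Y102
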