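import Pool.Agent.Y102.V17
import Pool.Agent.Y102.CM.Trace
import Pool.Agent.Y102.CM.Gamma

set_option autoImplicit false
set_option linter.unusedSectionVars false
set_option linter.unusedSimpArgs false
set_option linter.unusedVariables false

/-!
# The Jacobians of Fermat curves and the values of the gamma function
-/

open Module Function TensorProduct

open scoped Real

noncomputable section

namespace Pool.Agent.Y102

open Pool.Agent.W516.DR Pool.Agent.H204R3.GP Pool.Agent.W516.KC Pool.Agent.H204R3.SP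

namespace AbVar

variable {g : ℕ} (A : AbVar g)

/-- A part of `H_1(A)` which is that of the Fermat curve: `p` is a projection of `H_1(A, ℚ)` to the
cyclotomic field, the conjugate with index `u`, multiplied with the value of the beta function at
the fractional parts of `u a / D` and `u b / D`, is in `H^1_dR`, and it is the eigenvector with
index `u + j`. -/
structure FermatPart {D : ℕ} [NeZero D] [AddAction (Additive (ZMod D)ˣ) (Fin (2 * g))]
    (ε : Fin (2 * g) → ℤ) (v : Fin (2 * g) → Fin (2 * g) → ℂ)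
    (τ : Additive (ZMod D)ˣ → ℂ ≃+* ℂ) (a b : ZMod D) (p : A.H1 →ₗ[ℚ] ℂ) (j : Fin (2 * g)) :
    Prop where
  mem : ∀ x, p x ∈ Algebra.adjoin ℚ {CM.zeta D}
  surj : ∀ z ∈ Algebra.adjoin ℚ {CM.zeta D}, ∃ x, p x = z
  drb : ∀ u : (ZMod D)ˣ, ∃ c : Fin g ⊕ Fin g → QBar, ∀ x,
    (CM.beta ((u : ZMod D) * a) ((u : ZMod D) * b) : ℂ) * τ (Additive.ofMul u) (p x) =
      ∑ i, algebraMap QBar ℂ (c i) * A.dR i x
  eig : ∀ (u : (ZMod D)ˣ) l, l ≠ Additive.ofMul u +ᵥ j →
    ∑ k, v l k * τ (Additive.ofMul u) (p (Pi.single k 1)) = 0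
  typ : ∀ u : (ZMod D)ˣ, ε (Additive.ofMul u +ᵥ j) =
    CM.typ ((u : ZMod D) * a) ((u : ZMod D) * b)

variable {A}

section

variable {D : ℕ} [NeZero D] [AddAction (Additive (ZMod D)ˣ) (Fin (2 * g))]
    {ε : Fin (2 * g) → ℤ} {v : Fin (2 * g) → Fin (2 * g) → ℂ}
    {τ : Additive (ZMod D)ˣ → ℂ ≃+* ℂ}

/-- The conjugates of the projection are eigenvectors. -/
theorem FermatPart.eigen {a b : ZMod D} {p : A.H1 →ₗ[ℚ] ℂ} {j : Fin (2 * g)}
    (h : A.FermatPart ε v τ a b p j) (hli : LinearIndependent ℂ v) {X : Module.End ℚ A.H1}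
    {y : Fin (2 * g) → ℂ} (hy : ∀ l, Matrix.mulVec (toC X) (v l) = y l • v l) (u : (ZMod D)ˣ)
    (x : A.H1) : τ (Additive.ofMul u) (p (X x)) =
      y (Additive.ofMul u +ᵥ j) * τ (Additive.ofMul u) (p x) := by
  classical
  rcases Nat.eq_zero_or_pos g with hg | hg
  · subst hg
    exact absurd j.2 (by simp)
  have : Nonempty (Fin (2 * g)) := ⟨⟨0, by omega⟩⟩
  have hcard : Fintype.card (Fin (2 * g)) = finrank ℂ (Fin (2 * g) → ℂ) := by simp
  obtain ⟨b', hb⟩ : ∃ b : Basis (Fin (2 * g)) ℂ (Fin (2 * g) → ℂ), ∀ j, b j = v j :=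
    ⟨basisOfLinearIndependentOfCardEqFinrank hli hcard, fun j => by simp⟩
  obtain ⟨F, hF⟩ : ∃ F : (Fin (2 * g) → ℂ) →ₗ[ℂ] ℂ,
      ∀ w, F w = ∑ k, w k * τ (Additive.ofMul u) (p (Pi.single k 1)) :=
    ⟨{ toFun := fun w => ∑ k, w k * τ (Additive.ofMul u) (p (Pi.single k 1))
       map_add' := fun w w' => by
        rw [← Finset.sum_add_distrib]
        exact Finset.sum_congr rfl fun k _ => by rw [Pi.add_apply, add_mul]
       map_smul' := fun c w => by
        rw [RingHom.id_apply, smul_eq_mul, Finset.mul_sum]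
        exact Finset.sum_congr rfl fun k _ => by rw [Pi.smul_apply, smul_eq_mul, mul_assoc] },
      fun w => rfl⟩
  have hrat : ∀ z : A.H1, F (fun k => ((z k : ℚ) : ℂ)) = τ (Additive.ofMul u) (p z) := by
    intro z
    have h1 : p z = ∑ k, (z k : ℂ) * p (Pi.single k 1) := by
      conv_lhs => rw [pi_eq_sum_univ' z]
      rw [map_sum]
      refine Finset.sum_congr rfl fun k _ => ?_
      rw [map_smul, Algebra.smul_def]
      congr 1
    rw [hF, h1, map_sum]
    refine Finset.sum_congr rfl fun k _ => ?_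
    rw [map_mul, map_ratCast]
  have hmul : ∀ z : A.H1, (fun k => ((X z k : ℚ) : ℂ)) =
      Matrix.mulVec (toC X) (fun k => ((z k : ℚ) : ℂ)) := by
    intro z
    funext i
    have h1 : X z = ∑ k, z k • X (Pi.single k 1) := by
      conv_lhs => rw [pi_eq_sum_univ' z]
      rw [map_sum]
      refine Finset.sum_congr rfl fun k _ => ?_
      rw [map_smul]
    rw [h1, Finset.sum_apply, Rat.cast_sum]
    change _ = ∑ k, toC X i k * (z k : ℂ)
    refine Finset.sum_congr rfl fun k _ => ?_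
    rw [Pi.smul_apply, smul_eq_mul, Rat.cast_mul, mul_comm]
    rfl
  have hFX : ∀ w, F (Matrix.mulVec (toC X) w) = y (Additive.ofMul u +ᵥ j) * F w := by
    have h1 : F ∘ₗ Matrix.toLin' (toC X) = y (Additive.ofMul u +ᵥ j) • F := by
      refine b'.ext fun l => ?_
      rw [LinearMap.comp_apply, hb, Matrix.toLin'_apply, hy, map_smul, LinearMap.smul_apply]
      by_cases hl : l = Additive.ofMul u +ᵥ j
      · rw [hl]
      · have h2 : F (v l) = 0 := by
          rw [hF]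
          exact h.eig u l hl
        rw [h2, smul_zero, smul_zero]
    intro w
    exact congrArg (fun f : (Fin (2 * g) → ℂ) →ₗ[ℂ] ℂ => f w) h1
  rw [← hrat, hmul, hFX, hrat]

end

theorem CMData.matrix {G : Type} [AddCommGroup G] [Fintype G] [AddAction G (Fin (2 * g))] {c : G}
    {ε : Fin (2 * g) → ℤ} {v : Fin (2 * g) → Fin (2 * g) → ℂ} {τ : G → ℂ ≃+* ℂ}
    (d : A.CMData c ε v τ) (j₀ : Fin (2 * g)) (f : Fin (2 * g) → (Fin (2 * g) → ℂ)) :
    ∃ M : Matrix (Fin (2 * g)) (Fin (2 * g)) ℂ, ∀ j, Matrix.mulVec M (v j) = f j := by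
  have hcard : Fintype.card (Fin (2 * g)) = finrank ℂ (Fin (2 * g) → ℂ) := by simp
  have : Nonempty (Fin (2 * g)) := ⟨j₀⟩
  obtain ⟨b, hb⟩ : ∃ b : Basis (Fin (2 * g)) ℂ (Fin (2 * g) → ℂ), ∀ j, b j = v j :=
    ⟨basisOfLinearIndependentOfCardEqFinrank d.li hcard, fun j => by simp⟩
  refine ⟨LinearMap.toMatrix' (b.constr ℂ f), fun j => ?_⟩
  rw [← Matrix.toLin'_apply, Matrix.toLin'_toMatrix', ← hb, Basis.constr_basis]

section

variable {D : ℕ} [NeZero D] [AddAction (Additive (ZMod D)ˣ) (Fin (2 * g))]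
    {ε : Fin (2 * g) → ℤ} {v : Fin (2 * g) → Fin (2 * g) → ℂ}
    {τ : Additive (ZMod D)ˣ → ℂ ≃+* ℂ} {c : Additive (ZMod D)ˣ}

/-- The de Rham-Betti class given by a relation. -/
theorem exists_class {m : ℕ} (hτ : ∀ u : (ZMod D)ˣ, τ (Additive.ofMul u) (CM.zeta D) =
      CM.zeta D ^ (u : ZMod D).val) {a b : Fin (2 * m) → ZMod D} {p : Fin (2 * m) → (A.H1 →ₗ[ℚ] ℂ)}
    {j : Fin (2 * m) → Fin (2 * g)} (hp : ∀ i, A.FermatPart ε v τ (a i) (b i) (p i) (j i))
    (hB : ∀ (u : (ZMod D)ˣ) i, CM.beta ((u : ZMod D) * a i) ((u : ZMod D) * b i) ≠ 0)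
    (hal : ∀ u : (ZMod D)ˣ,
      IsAlgebraic ℚ ((∏ i, CM.beta ((u : ZMod D) * a i) ((u : ZMod D) * b i)) / π ^ m)) :
    ∃ (α : (Fin (2 * m) → Fin g ⊕ Fin g) → QBar)
      (φ : MultilinearMap ℚ (fun _ : Fin (2 * m) => A.H1) ℚ), Compat A.dR tau m α φ ∧
      ∀ x, (φ x : ℂ) = ∑ u : (ZMod D)ˣ, ∏ i, τ (Additive.ofMul u) (p i (x i)) := by
  classical
  obtain ⟨lam, hlam⟩ := exists_lam
  obtain ⟨Φ, hΦ⟩ : ∃ Φ : MultilinearMap ℚ (fun _ : Fin (2 * m) => A.H1) ℂ,
      ∀ x, Φ x = ∑ u : (ZMod D)ˣ, ∏ i, τ (Additive.ofMul u) (p i (x i)) := by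
    refine ⟨∑ u : (ZMod D)ˣ, (MultilinearMap.mkPiAlgebra ℚ (Fin (2 * m)) ℂ).compLinearMap
      (fun i => ((τ (Additive.ofMul u) : ℂ →+* ℂ) : ℂ →+ ℂ).toRatLinearMap ∘ₗ p i), fun x => ?_⟩
    rw [MultilinearMap.sum_apply]
    refine Finset.sum_congr rfl fun u _ => ?_
    rw [MultilinearMap.compLinearMap_apply, MultilinearMap.mkPiAlgebra_apply]
    rfl
  have hq : ∀ x, ∃ q : ℚ, Φ x = (q : ℂ) := by
    intro x
    obtain ⟨q, hq⟩ := CM.trace_rat (fun u => τ (Additive.ofMul u)) hτ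
      (Subalgebra.prod_mem (Algebra.adjoin ℚ {CM.zeta D}) (t := Finset.univ)
        (f := fun i => p i (x i)) fun i _ => (hp i).mem (x i))
    refine ⟨q, ?_⟩
    rw [hΦ, ← hq]
    refine Finset.sum_congr rfl fun u _ => ?_
    rw [map_prod]
  have hφ : ∀ x, ((lam.compMultilinearMap Φ x : ℚ) : ℂ) = Φ x := by
    intro x
    obtain ⟨q, hq⟩ := hq x
    have h1 : (q : ℂ) = q • (1 : ℂ) := by rw [Algebra.smul_def, mul_one]; rfl
    rw [LinearMap.compMultilinearMap_apply, hq, h1, map_smul, hlam, smul_eq_mul, mul_one,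
      ← h1]
  -- the coefficients
  choose cf hcf using fun (i : Fin (2 * m)) (u : (ZMod D)ˣ) => (hp i).drb u
  have hκ : ∀ u : (ZMod D)ˣ, ∃ k : QBar, algebraMap QBar ℂ k * ∏ i,
      (CM.beta ((u : ZMod D) * a i) ((u : ZMod D) * b i) : ℂ) = tau ^ (m : ℤ) := by
    intro u
    have h1 : IsAlgebraic ℚ ((2 * Complex.I) ^ m *
        ((((∏ i, CM.beta ((u : ZMod D) * a i) ((u : ZMod D) * b i)) / π ^ m : ℝ) : ℂ))⁻¹) := by
      refine IsAlgebraic.mul (IsAlgebraic.pow ?_ m) (IsAlgebraic.inv ((hal u).algebraMap))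
      refine IsAlgebraic.mul ?_ ?_
      · exact_mod_cast (isAlgebraic_natCast (R := ℚ) (A := ℂ) 2)
      · exact Pool.Agent.H340R2.LW.isAlgebraic_I
    refine ⟨⟨_, mem_algebraicClosure_iff.2 h1⟩, ?_⟩
    have h2 : (∏ i, (CM.beta ((u : ZMod D) * a i) ((u : ZMod D) * b i) : ℂ)) ≠ 0 := by
      refine Finset.prod_ne_zero_iff.2 fun i _ => ?_
      exact_mod_cast hB u i
    have h3 : (π : ℂ) ≠ 0 := by exact_mod_cast Real.pi_ne_zero
    change (2 * Complex.I) ^ m * ((((∏ i, CM.beta ((u : ZMod D) * a i) ((u : ZMod D) * b i)) /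
      π ^ m : ℝ) : ℂ))⁻¹ * _ = _
    rw [zpow_natCast]
    unfold tau
    push_cast
    rw [inv_div, mul_pow, mul_pow, mul_pow]
    field_simp
  choose κ hκ using hκ
  refine ⟨fun J => ∑ u, κ u * ∏ i, cf i u (J i), lam.compMultilinearMap Φ, fun x => ?_, fun x => by
    rw [hφ, hΦ]⟩
  rw [hφ, hΦ, Finset.mul_sum]
  have h1 : ∀ u : (ZMod D)ˣ, tau ^ (m : ℤ) * ∏ i, τ (Additive.ofMul u) (p i (x i)) =
      ∑ J : Fin (2 * m) → Fin g ⊕ Fin g, algebraMap QBar ℂ (κ u * ∏ i, cf i u (J i)) *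
        ∏ i, A.dR (J i) (x i) := by
    intro u
    rw [← hκ u, mul_assoc, ← Finset.prod_mul_distrib]
    have h2 : ∀ i, (CM.beta ((u : ZMod D) * a i) ((u : ZMod D) * b i) : ℂ) *
        τ (Additive.ofMul u) (p i (x i)) =
        ∑ k, algebraMap QBar ℂ (cf i u k) * A.dR k (x i) := fun i => hcf i u (x i)
    rw [Finset.prod_congr rfl fun i _ => h2 i, Finset.prod_univ_sum, Fintype.piFinset_univ,
      Finset.mul_sum]
    refine Finset.sum_congr rfl fun J _ => ?_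
    rw [Finset.prod_mul_distrib, map_mul, map_prod, mul_assoc]
  rw [Finset.sum_congr rfl fun u _ => h1 u, Finset.sum_comm]
  refine Finset.sum_congr rfl fun J _ => ?_
  rw [map_sum, Finset.sum_mul]

/-- **Relations between the periods of Fermat curves.** -/
theorem CMData.sum_eps (d : A.CMData c ε v τ) {m : ℕ}
    (hτ : ∀ u : (ZMod D)ˣ, τ (Additive.ofMul u) (CM.zeta D) = CM.zeta D ^ (u : ZMod D).val)
    {a b : Fin (2 * m) → ZMod D} {p : Fin (2 * m) → (A.H1 →ₗ[ℚ] ℂ)}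
    {j : Fin (2 * m) → Fin (2 * g)} (hp : ∀ i, A.FermatPart ε v τ (a i) (b i) (p i) (j i))
    (hB : ∀ (u : (ZMod D)ˣ) i, CM.beta ((u : ZMod D) * a i) ((u : ZMod D) * b i) ≠ 0)
    (hal : ∀ u : (ZMod D)ˣ,
      IsAlgebraic ℚ ((∏ i, CM.beta ((u : ZMod D) * a i) ((u : ZMod D) * b i)) / π ^ m))
    (u : (ZMod D)ˣ) : ∑ i, ε (Additive.ofMul u +ᵥ j i) = 0 := by
  classical
  rcases Nat.eq_zero_or_pos m with hm | hm
  · subst hm
    exact Finset.sum_eq_zero fun i _ => absurd i.2 (by simp)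
  obtain ⟨i₀⟩ : Nonempty (Fin (2 * m)) := ⟨⟨0, by omega⟩⟩
  obtain ⟨α, φ, hα, hφ⟩ := exists_class hτ hp hB hal
  have h1s : ∀ i, ∀ z ∈ Algebra.adjoin ℚ {CM.zeta D}, ∃ x, p i x = z := fun i => (hp i).surj
  -- the relation for the elements of the Lie algebra
  have key : ∀ Y ∈ A.NA, ∃ y : Fin (2 * g) → ℂ, (∀ l, Matrix.mulVec (toC Y) (v l) = y l • v l) ∧
      ∀ u : (ZMod D)ˣ, ∑ i, y (Additive.ofMul u +ᵥ j i) = 0 := by
    intro Y hY
    obtain ⟨x, hx⟩ := d.gal Y hY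
    obtain ⟨y, hy⟩ : ∃ y : Fin (2 * g) → ℂ, ∀ l, Matrix.mulVec (toC Y) (v l) = y l • v l := by
      refine ⟨fun l => τ 0 (x l), fun l => ?_⟩
      have h1 := hx 0 l
      rwa [zero_vadd] at h1
    refine ⟨y, hy, ?_⟩
    have hk : Kills Y φ := A.kills_all (d.NA_le hY) hα
    have h2 : ∀ w : Fin (2 * m) → A.H1, ∑ u : (ZMod D)ˣ, (∑ k, y (Additive.ofMul u +ᵥ j k)) *
        ∏ i, τ (Additive.ofMul u) (p i (w i)) = 0 := by
      intro w
      have h3 := hk w
      have h4 : ∑ k, (φ (update w k (Y (w k))) : ℂ) = 0 := by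
        rw [← Rat.cast_sum, h3, Rat.cast_zero]
      rw [← h4]
      have h5 : ∀ k, (φ (update w k (Y (w k))) : ℂ) = ∑ u : (ZMod D)ˣ,
          y (Additive.ofMul u +ᵥ j k) * ∏ i, τ (Additive.ofMul u) (p i (w i)) := by
        intro k
        rw [hφ]
        refine Finset.sum_congr rfl fun u _ => ?_
        rw [← Finset.mul_prod_erase Finset.univ _ (Finset.mem_univ k),
          ← Finset.mul_prod_erase Finset.univ (fun i => τ (Additive.ofMul u) (p i (w i)))
            (Finset.mem_univ k), update_self, (hp k).eigen d.li hy u (w k), mul_assoc]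
        congr 2
        refine Finset.prod_congr rfl fun i hi => ?_
        rw [update_of_ne (Finset.ne_of_mem_erase hi)]
      rw [Finset.sum_congr rfl fun k _ => h5 k, Finset.sum_comm]
      refine Finset.sum_congr rfl fun u _ => ?_
      rw [Finset.sum_mul]
    have hone : (1 : ℂ) ∈ Algebra.adjoin ℚ {CM.zeta D} := Subalgebra.one_mem _
    choose w hw using fun i => h1s i 1 hone
    refine fun u => CM.conj_indep (fun u => τ (Additive.ofMul u)) hτ
      (fun u => ∑ i, y (Additive.ofMul u +ᵥ j i)) (fun z hz => ?_) u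
    obtain ⟨x₀, hx₀⟩ := h1s i₀ z hz
    rw [← h2 (update w i₀ x₀)]
    refine Finset.sum_congr rfl fun u _ => ?_
    rw [← Finset.mul_prod_erase Finset.univ _ (Finset.mem_univ i₀), update_self, hx₀]
    rw [Finset.prod_eq_one (s := Finset.univ.erase i₀), mul_one]
    intro i hi
    rw [update_of_ne (Finset.ne_of_mem_erase hi), hw, map_one]
  obtain ⟨Z, hZ⟩ := d.matrix (j i₀) fun l => (ε l : ℂ) • v l
  have h1 : Z ∈ Submodule.span ℂ {Y | ∃ X ∈ A.NA, Y = toC X} := by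
    rw [d.lie]
    refine Submodule.subset_span ⟨0, fun l => ?_⟩
    rw [zero_vadd]
    exact hZ l
  have h2 : ∀ Z ∈ Submodule.span ℂ {Y | ∃ X ∈ A.NA, Y = toC X}, ∃ y : Fin (2 * g) → ℂ,
      (∀ l, Matrix.mulVec Z (v l) = y l • v l) ∧
      ∀ u : (ZMod D)ˣ, ∑ i, y (Additive.ofMul u +ᵥ j i) = 0 := by
    intro Z hZ
    induction hZ using Submodule.span_induction with
    | mem Z hZ =>
      obtain ⟨Y, hY, rfl⟩ := hZ
      exact key Y hY
    | zero => exact ⟨0, fun l => by rw [Matrix.zero_mulVec, Pi.zero_apply, zero_smul],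
        fun u => by simp⟩
    | add Z Z' _ _ h h' =>
      obtain ⟨y, h3, h4⟩ := h
      obtain ⟨y', h5, h6⟩ := h'
      refine ⟨y + y', fun l => by rw [Matrix.add_mulVec, h3, h5, Pi.add_apply, add_smul],
        fun u => ?_⟩
      rw [Finset.sum_congr rfl fun i _ => Pi.add_apply y y' _, Finset.sum_add_distrib, h4, h6,
        add_zero]
    | smul q Z _ h =>
      obtain ⟨y, h3, h4⟩ := h
      refine ⟨q • y, fun l => by
        rw [Matrix.smul_mulVec, h3, smul_smul, Pi.smul_apply, smul_eq_mul], fun u => ?_⟩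
      rw [Finset.sum_congr rfl fun i _ => Pi.smul_apply q y _, ← Finset.smul_sum, h4, smul_zero]
  obtain ⟨y, h3, h4⟩ := h2 Z h1
  have h5 : ∀ l, (ε l : ℂ) = y l := by
    intro l
    have h6 := h3 l
    rw [hZ l] at h6
    exact smul_left_injective ℂ (d.li.ne_zero l) h6
  have h6 := h4 u
  rw [← Finset.sum_congr rfl fun i _ => h5 _, ← Int.cast_sum] at h6
  exact_mod_cast h6

end

end AbVar

end Pool.Agent.Y102
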