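import Pool.Agent.Y102.V18

set_option autoImplicit false
set_option linter.unusedSectionVars false
set_option linter.unusedSimpArgs false
set_option linter.unusedVariables false

/-!
# Products of values of the gamma function which are algebraic multiples of powers of `π`
-/

open Module Function TensorProduct

open scoped Real

noncomputable section

namespace Pool.Agent.Y102

open Pool.Agent.W516.DR Pool.Agent.H204R3.GP Pool.Agent.W516.KC Pool.Agent.H204R3.SP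

/-- The abelian variety `A` contains the Jacobian of the Fermat curve of degree `D`, and enough
other abelian varieties with complex multiplication by cyclotomic fields. -/
structure AbVar.FermatData {g : ℕ} (A : AbVar g) {D : ℕ} [NeZero D]
    [AddAction (Additive (ZMod D)ˣ) (Fin (2 * g))]
    (ε : Fin (2 * g) → ℤ) (v : Fin (2 * g) → Fin (2 * g) → ℂ)
    (τ : Additive (ZMod D)ˣ → ℂ ≃+* ℂ) : Prop where
  cm : A.CMData (Additive.ofMul (-1 : (ZMod D)ˣ)) ε v τ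
  cyc : ∀ u : (ZMod D)ˣ, τ (Additive.ofMul u) (CM.zeta D) = CM.zeta D ^ (u : ZMod D).val
  part : ∀ a b : ZMod D, a ≠ 0 → b ≠ 0 → a + b ≠ 0 → ∃ p j, A.FermatPart ε v τ a b p j

section

variable {g : ℕ} {A : AbVar g} {D : ℕ} [NeZero D] [AddAction (Additive (ZMod D)ˣ) (Fin (2 * g))]
    {ε : Fin (2 * g) → ℤ} {v : Fin (2 * g) → Fin (2 * g) → ℂ}
    {τ : Additive (ZMod D)ˣ → ℂ ≃+* ℂ}

theorem AbVar.FermatData.zmod (hA : A.FermatData ε v τ) {r : ℕ} (a : Fin r → ZMod D)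
    (ha : ∀ i, a i ≠ 0)
    (h : ∀ u : (ZMod D)ˣ,
      IsAlgebraic ℚ ((∏ i, Real.Gamma (CM.fr ((u : ZMod D) * a i))) ^ 2 / π ^ r))
    (u : (ZMod D)ˣ) : ∑ i, CM.fr ((u : ZMod D) * a i) = r / 2 := by
  refine CM.gamma_of_beta (fun m a b hab hal u => ?_) a ha h u
  choose p j hp using fun i => hA.part (a i) (b i) (hab i).1 (hab i).2.1 (hab i).2.2
  have h1 := hA.cm.sum_eps hA.cyc hp (fun u i => ?_) hal u
  · rw [← h1]
    exact Finset.sum_congr rfl fun i _ => ((hp i).typ u).symm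
  · have h2 : ∀ x : ZMod D, x ≠ 0 → (u : ZMod D) * x ≠ 0 := fun x hx h3 =>
      hx ((u.mul_right_eq_zero).1 h3)
    have h3 := CM.gamma_pos (h2 _ (hab i).1)
    have h4 := CM.gamma_pos (h2 _ (hab i).2.1)
    unfold CM.beta
    exact div_ne_zero (mul_ne_zero (CM.gamma_ne h3) (CM.gamma_ne h4))
      (CM.gamma_ne (add_pos h3 h4))

end

namespace CM

theorem gammaAlg_symm {a b : ℝ} (h : gammaAlg a b) : gammaAlg b a := by
  obtain ⟨q, h1, h2, rfl⟩ := h
  exact ⟨q⁻¹, h1.inv, inv_ne_zero h2, by field_simp⟩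

theorem gammaAlg_div {a b c d : ℝ} (h : gammaAlg a b) (h' : gammaAlg c d) :
    gammaAlg (a / c) (b / d) := by
  obtain ⟨q, h1, h2, rfl⟩ := h
  obtain ⟨r, h3, h4, rfl⟩ := h'
  refine ⟨q / r, ?_, div_ne_zero h2 h4, ?_⟩
  · rw [div_eq_mul_inv]
    exact h1.mul h3.inv
  · rw [mul_div_mul_comm]

theorem gamma_shift (q : ℚ) (hq : ∀ n : ℤ, q ≠ n) (n : ℤ) :
    gammaAlg (Real.Gamma ((q : ℝ) + n)) (Real.Gamma q) := by
  have h0 : ∀ n : ℤ, gammaAlg (Real.Gamma ((q : ℝ) + n + 1)) (Real.Gamma ((q : ℝ) + n)) := by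
    intro n
    have h1 : (q : ℝ) + n ≠ 0 := by
      intro h
      apply hq (-n)
      have h2 : ((q + n : ℚ) : ℝ) = ((0 : ℚ) : ℝ) := by
        push_cast
        exact h
      have h3 : q + n = 0 := Rat.cast_injective h2
      push_cast
      linarith
    refine ⟨(q : ℝ) + n, ?_, h1, Real.Gamma_add_one h1⟩
    have h2 : (q : ℝ) + n = algebraMap ℚ ℝ (q + n) := by
      rw [eq_ratCast]
      push_cast
      rfl
    rw [h2]
    exact isAlgebraic_algebraMap _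
  induction n using Int.induction_on with
  | zero =>
    rw [Int.cast_zero, add_zero]
    exact gammaAlg_refl _
  | succ i ih =>
    have h1 := h0 i
    push_cast at h1 ih ⊢
    rw [← add_assoc]
    exact gammaAlg_trans h1 ih
  | pred i ih =>
    have h1 := h0 (-(i : ℤ) - 1)
    have h2 : (q : ℝ) + ((-(i : ℤ) - 1 : ℤ) : ℝ) + 1 = (q : ℝ) + ((-(i : ℤ) : ℤ) : ℝ) := by
      push_cast
      ring
    rw [h2] at h1
    exact gammaAlg_trans (gammaAlg_symm h1) ih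

theorem gamma_fract (q : ℚ) (hq : ∀ n : ℤ, q ≠ n) :
    gammaAlg (Real.Gamma q) (Real.Gamma (Int.fract (q : ℝ))) := by
  have h1 := gammaAlg_symm (gamma_shift q hq (-⌊(q : ℝ)⌋))
  have h2 : (q : ℝ) + ((-⌊(q : ℝ)⌋ : ℤ) : ℝ) = Int.fract (q : ℝ) := by
    push_cast
    rw [Int.fract]
    ring
  rwa [h2] at h1

variable {D : ℕ} [NeZero D]

theorem fr_int (k : ℤ) : fr (k : ZMod D) = Int.fract ((k : ℝ) / D) := by
  rw [Int.fract_div_intCast_eq_div_intCast_mod, fr]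
  congr 1
  have h1 := ZMod.val_intCast (n := D) k
  exact_mod_cast h1

/-- The reflection formula. -/
theorem gamma_refl {x : ZMod D} (hx : x ≠ 0) :
    gammaAlg (Real.Gamma (fr x) * Real.Gamma (fr (-x))) π := by
  obtain ⟨h3, h4⟩ := gamma_sin hx
  refine ⟨(Real.sin (π * fr x))⁻¹, h3.inv, inv_ne_zero h4, ?_⟩
  rw [gamma_neg hx, Real.Gamma_mul_Gamma_one_sub]
  field_simp

theorem gamma_refl_prod {r : ℕ} (a : Fin r → ZMod D) (ha : ∀ i, a i ≠ 0) :
    gammaAlg ((∏ i, Real.Gamma (fr (a i))) * ∏ i, Real.Gamma (fr (-a i))) (π ^ r) := by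
  rw [← Finset.prod_mul_distrib]
  have h1 := gammaAlg_prod Finset.univ (fun i => Real.Gamma (fr (a i)) * Real.Gamma (fr (-a i)))
    (fun _ : Fin r => π) fun i _ => gamma_refl (ha i)
  rwa [Finset.prod_const, Finset.card_univ, Fintype.card_fin] at h1

/-- It is enough to know the relation up to the sign. -/
theorem alg_neg {r : ℕ} (a : Fin r → ZMod D) (ha : ∀ i, a i ≠ 0)
    (h : IsAlgebraic ℚ ((∏ i, Real.Gamma (fr (-a i))) ^ 2 / π ^ r)) :
    IsAlgebraic ℚ ((∏ i, Real.Gamma (fr (a i))) ^ 2 / π ^ r) := by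
  have h1 := gamma_refl_prod a ha
  have h2 := gammaAlg_mul h1 h1
  have hpi : π ^ r ≠ 0 := pow_ne_zero _ Real.pi_ne_zero
  have hne : ∏ i, Real.Gamma (fr (-a i)) ≠ 0 := Finset.prod_ne_zero_iff.2 fun i _ =>
    gamma_ne (gamma_pos (neg_ne_zero.2 (ha i)))
  obtain ⟨q, h3, h4, h5⟩ := h2
  have h6 : (∏ i, Real.Gamma (fr (a i))) ^ 2 / π ^ r =
      q * ((∏ i, Real.Gamma (fr (-a i))) ^ 2 / π ^ r)⁻¹ := by
    have h7 : (∏ i, Real.Gamma (fr (a i))) ^ 2 * (∏ i, Real.Gamma (fr (-a i))) ^ 2 =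
        q * (π ^ r * π ^ r) := by
      rw [← h5]
      ring
    rw [inv_div, div_eq_iff hpi, eq_comm, mul_div_assoc', div_mul_eq_mul_div,
      div_eq_iff (pow_ne_zero 2 hne), h7]
    ring
  rw [h6]
  exact h3.mul h.inv

end CM

/-- the integers `D a` -/
theorem exists_int {D : ℕ} {r : ℕ} {a : Fin r → ℚ} (hD : ∀ i, ∃ n : ℤ, (D : ℚ) * a i = n) :
    ∃ n : Fin r → ℤ, ∀ i, (D : ℚ) * a i = n i := ⟨fun i => (hD i).choose, fun i => (hD i).choose_spec⟩

section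

variable {D : ℕ} [NeZero D]

theorem fr_mul {q : ℚ} {n : ℤ} (hn : (D : ℚ) * q = n) (m : ℤ) :
    CM.fr ((m : ZMod D) * (n : ZMod D)) = Int.fract ((m : ℝ) * q) := by
  have hD : (D : ℝ) ≠ 0 := Nat.cast_ne_zero.2 (NeZero.ne D)
  rw [← Int.cast_mul, CM.fr_int]
  congr 1
  have h1 : (D : ℝ) * q = n := by exact_mod_cast hn
  push_cast
  rw [← h1]
  field_simp

theorem not_int {q : ℚ} (hq : ∀ n : ℤ, q ≠ n) {n : ℤ} (hn : (D : ℚ) * q = n) {m : ℤ}
    (hm : IsUnit (m : ZMod D)) : ∀ k : ℤ, (m : ℚ) * q ≠ k := by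
  intro k hk
  have hD : (D : ℚ) ≠ 0 := Nat.cast_ne_zero.2 (NeZero.ne D)
  have h1 : m * n = D * k := by
    have h2 : ((m * n : ℤ) : ℚ) = ((D * k : ℤ) : ℚ) := by
      push_cast
      rw [← hn, ← hk]
      ring
    exact_mod_cast h2
  have h2 : ((n : ℤ) : ZMod D) = 0 := by
    have h3 : (m : ZMod D) * (n : ZMod D) = 0 := by
      rw [← Int.cast_mul, h1, Int.cast_mul, Int.cast_natCast, ZMod.natCast_self, zero_mul]
    exact (hm.mul_right_eq_zero).1 h3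
  rw [ZMod.intCast_zmod_eq_zero_iff_dvd] at h2
  obtain ⟨l, hl⟩ := h2
  apply hq l
  rw [hl] at hn
  push_cast at hn
  exact mul_left_cancel₀ hD hn

theorem ne_zero_of_not_int {q : ℚ} (hq : ∀ n : ℤ, q ≠ n) {n : ℤ} (hn : (D : ℚ) * q = n) :
    (n : ZMod D) ≠ 0 := by
  intro h2
  have hD : (D : ℚ) ≠ 0 := Nat.cast_ne_zero.2 (NeZero.ne D)
  rw [ZMod.intCast_zmod_eq_zero_iff_dvd] at h2
  obtain ⟨l, hl⟩ := h2
  apply hq l
  rw [hl] at hn
  push_cast at hn
  exact mul_left_cancel₀ hD hn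

/-- The product in terms of the residue classes. -/
theorem gamma_class {r : ℕ} {a : Fin r → ℚ} (ha : ∀ i, ∀ n : ℤ, a i ≠ n) {n : Fin r → ℤ}
    (hn : ∀ i, (D : ℚ) * a i = n i) {m : ℤ} (hm : IsUnit (m : ZMod D)) :
    CM.gammaAlg (∏ i, Real.Gamma ((m : ℝ) * a i))
      (∏ i, Real.Gamma (CM.fr ((m : ZMod D) * (n i : ZMod D)))) := by
  refine CM.gammaAlg_prod _ _ _ fun i _ => ?_
  have h1 := CM.gamma_fract ((m : ℚ) * a i) (not_int (ha i) (hn i) hm)
  rw [fr_mul (hn i)]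
  have h2 : (((m : ℚ) * a i : ℚ) : ℝ) = (m : ℝ) * a i := by push_cast; rfl
  rwa [h2] at h1

theorem sq_half (r : ℕ) : (π ^ ((r : ℝ) / 2)) ^ 2 = π ^ r := by
  rw [← Real.rpow_natCast, ← Real.rpow_mul Real.pi_pos.le, ← Real.rpow_natCast]
  congr 1
  push_cast
  ring

variable {g : ℕ} {A : AbVar g} [AddAction (Additive (ZMod D)ˣ) (Fin (2 * g))]
    {ε : Fin (2 * g) → ℤ} {v : Fin (2 * g) → Fin (2 * g) → ℂ}
    {τ : Additive (ZMod D)ˣ → ℂ ≃+* ℂ}

/-- Noninteger arguments: half of the conjugates. -/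
theorem AbVar.FermatData.half (hA : A.FermatData ε v τ) {r : ℕ} {a : Fin r → ℚ}
    (ha : ∀ i, ∀ n : ℤ, a i ≠ n) (hD : ∀ i, ∃ n : ℤ, (D : ℚ) * a i = n)
    (h : ∀ m : ℕ, 1 ≤ m → 2 * m ≤ D → Nat.Coprime m D →
      IsAlgebraic ℚ ((∏ i, Real.Gamma ((m : ℝ) * a i)) / π ^ ((r : ℝ) / 2)))
    (hD3 : 3 ≤ D) (m : ℕ) (hm : Nat.Coprime m D) :
    ∑ i, Int.fract ((m : ℝ) * a i) = r / 2 := by
  obtain ⟨n, hn⟩ := exists_int hD
  have hne : ∀ i, ((n i : ℤ) : ZMod D) ≠ 0 := fun i => ne_zero_of_not_int (ha i) (hn i)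
  -- the relation for `m` in the half
  have key : ∀ m : ℕ, 1 ≤ m → 2 * m ≤ D → Nat.Coprime m D → IsAlgebraic ℚ
      ((∏ i, Real.Gamma (CM.fr ((m : ZMod D) * (n i : ZMod D)))) ^ 2 / π ^ r) := by
    intro m h1 h2 h3
    have hu : IsUnit (((m : ℤ) : ZMod D)) := by
      rw [Int.cast_natCast]
      exact (ZMod.isUnit_iff_coprime m D).2 h3
    have h4 := CM.gammaAlg_symm (gamma_class ha hn hu)
    have h5 := (h m h1 h2 h3).pow 2
    rw [div_pow, sq_half] at h5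
    rw [Int.cast_natCast, Int.cast_natCast] at h4
    refine CM.gammaAlg_alg (CM.gammaAlg_div ?_ (CM.gammaAlg_refl _)) h5
    rw [sq, sq]
    exact CM.gammaAlg_mul h4 h4
  have hall : ∀ u : (ZMod D)ˣ, IsAlgebraic ℚ
      ((∏ i, Real.Gamma (CM.fr ((u : ZMod D) * (n i : ZMod D)))) ^ 2 / π ^ r) := by
    intro u
    have hc : Nat.Coprime (u : ZMod D).val D := ZMod.val_coe_unit_coprime u
    have hlt : (u : ZMod D).val < D := ZMod.val_lt _
    have hpos : 1 ≤ (u : ZMod D).val := by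
      rcases Nat.eq_zero_or_pos (u : ZMod D).val with h0 | h0
      · rw [h0, Nat.coprime_zero_left] at hc
        omega
      · exact h0
    by_cases h2 : 2 * (u : ZMod D).val ≤ D
    · have h3 := key _ hpos h2 hc
      rwa [ZMod.natCast_zmod_val] at h3
    · have h3 := key (D - (u : ZMod D).val) (by omega) (by omega)
        ((Nat.coprime_self_sub_left hlt.le).2 hc)
      have h4 : ((D - (u : ZMod D).val : ℕ) : ZMod D) = -(u : ZMod D) := by
        rw [Nat.cast_sub hlt.le, ZMod.natCast_self, zero_sub, ZMod.natCast_zmod_val]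
      rw [h4] at h3
      refine CM.alg_neg (fun i => (u : ZMod D) * (n i : ZMod D)) (fun i h5 =>
        hne i ((u.mul_right_eq_zero).1 h5)) ?_
      have h5 : ∀ i, -((u : ZMod D) * (n i : ZMod D)) = -(u : ZMod D) * (n i : ZMod D) :=
        fun i => (neg_mul _ _).symm
      rw [Finset.prod_congr rfl fun i _ => by rw [h5 i]]
      exact h3
  have hu := (ZMod.isUnit_iff_coprime m D).2 hm
  have h1 := hA.zmod (fun i => (n i : ZMod D)) hne hall hu.unit
  rw [← h1]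
  refine Finset.sum_congr rfl fun i _ => ?_
  have h2 := fr_mul (hn i) (m : ℤ)
  rw [Int.cast_natCast, Int.cast_natCast] at h2
  rw [← h2, IsUnit.unit_spec]

theorem gammaAlg_int {q : ℚ} {n : ℤ} (hq : q = n) (h : ∀ k : ℕ, q ≠ -k) {m : ℕ} (hm : 1 ≤ m) :
    CM.gammaAlg (Real.Gamma ((m : ℝ) * q)) 1 := by
  have hn : 1 ≤ n := by
    by_contra hcon
    apply h (-n).toNat
    have h1 : ((-n).toNat : ℤ) = -n := Int.toNat_of_nonneg (by omega)
    have h2 : (((-n).toNat : ℤ) : ℚ) = ((-n : ℤ) : ℚ) := by rw [h1]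
    rw [hq]
    push_cast at h2 ⊢
    linarith
  obtain ⟨k, hk⟩ : ∃ k : ℕ, n = k + 1 := ⟨(n - 1).toNat, by omega⟩
  obtain ⟨l, hl⟩ : ∃ l : ℕ, m * (k + 1) = l + 1 := by
    refine ⟨m * (k + 1) - 1, ?_⟩
    have : 1 ≤ m * (k + 1) := Nat.one_le_iff_ne_zero.2 (by positivity)
    omega
  have h1 : (m : ℝ) * q = l + 1 := by
    rw [hq, hk]
    push_cast
    exact_mod_cast hl
  rw [h1, Real.Gamma_nat_eq_factorial]
  exact ⟨(l.factorial : ℝ), isAlgebraic_natCast _, Nat.cast_ne_zero.2 (Nat.factorial_ne_zero l),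
    (mul_one _).symm⟩

/-- There are no integers among the arguments. -/
theorem no_int {r : ℕ} {a : Fin r → ℚ} (hD : ∀ i, ∃ n : ℤ, (D : ℚ) * a i = n)
    (hp : ∀ i, ∀ k : ℕ, a i ≠ -k) (hD2 : 2 ≤ D)
    (h1 : IsAlgebraic ℚ ((∏ i, Real.Gamma (((1 : ℕ) : ℝ) * a i)) / π ^ ((r : ℝ) / 2)))
    (h2 : IsAlgebraic ℚ ((∏ i, Real.Gamma (((D - 1 : ℕ) : ℝ) * a i)) / π ^ ((r : ℝ) / 2))) :
    ∀ i, ∀ n : ℤ, a i ≠ n := by
  classical
  obtain ⟨n, hn⟩ := exists_int hD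
  have hpi : π ≠ 0 := Real.pi_ne_zero
  have key : ∀ i, CM.gammaAlg (Real.Gamma (((1 : ℕ) : ℝ) * a i) *
      Real.Gamma (((D - 1 : ℕ) : ℝ) * a i)) (if ∃ k : ℤ, a i = k then 1 else π) := by
    intro i
    by_cases hi : ∃ k : ℤ, a i = k
    · rw [if_pos hi]
      obtain ⟨k, hk⟩ := hi
      have h3 := gammaAlg_int hk (hp i) (le_refl 1)
      have h4 := gammaAlg_int hk (hp i) (m := D - 1) (by omega)
      have h5 := CM.gammaAlg_mul h3 h4
      rwa [mul_one] at h5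
    · rw [if_neg hi]
      have hi' : ∀ k : ℤ, a i ≠ k := fun k hk => hi ⟨k, hk⟩
      have hu1 : IsUnit (((1 : ℤ) : ZMod D)) := by
        rw [Int.cast_one]
        exact isUnit_one
      have hc : (((D - 1 : ℕ) : ℤ) : ZMod D) = -1 := by
        rw [Int.cast_natCast, Nat.cast_sub (by omega), ZMod.natCast_self, Nat.cast_one, zero_sub]
      have hu2 : IsUnit ((((D - 1 : ℕ) : ℤ) : ZMod D)) := by
        rw [hc]
        exact isUnit_one.neg
      have h3 := CM.gamma_fract _ (not_int hi' (hn i) hu1)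
      have h4 := CM.gamma_fract _ (not_int hi' (hn i) hu2)
      have h5 := fr_mul (hn i) 1
      have h6 := fr_mul (hn i) ((D - 1 : ℕ) : ℤ)
      rw [hc, neg_one_mul] at h6
      rw [Int.cast_one, one_mul] at h5
      have e1 : ((((1 : ℤ) : ℚ) * a i : ℚ) : ℝ) = ((1 : ℕ) : ℝ) * a i := by push_cast; ring
      have e2 : (((((D - 1 : ℕ) : ℤ) : ℚ) * a i : ℚ) : ℝ) = ((D - 1 : ℕ) : ℝ) * a i := by
        rw [Rat.cast_mul, Rat.cast_intCast, Int.cast_natCast]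
      rw [e1] at h3
      rw [e2] at h4
      have h7 := CM.gammaAlg_mul h3 h4
      have e3 : Int.fract (((1 : ℕ) : ℝ) * (a i : ℝ)) = CM.fr ((n i : ℤ) : ZMod D) := by
        rw [h5, Nat.cast_one, Int.cast_one]
      have e4 : Int.fract (((D - 1 : ℕ) : ℝ) * (a i : ℝ)) = CM.fr (-((n i : ℤ) : ZMod D)) := by
        rw [h6, Int.cast_natCast]
      rw [e3, e4] at h7
      exact CM.gammaAlg_trans h7 (CM.gamma_refl (ne_zero_of_not_int hi' (hn i)))
  have h3 := CM.gammaAlg_prod Finset.univ _ _ fun i _ => key i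
  rw [Finset.prod_mul_distrib] at h3
  have h4 := h1.mul h2
  have h5 : π ^ ((r : ℝ) / 2) * π ^ ((r : ℝ) / 2) = π ^ r := by rw [← sq, sq_half]
  rw [div_mul_div_comm, h5] at h4
  have h6 := CM.gammaAlg_alg (CM.gammaAlg_div (CM.gammaAlg_symm h3) (CM.gammaAlg_refl (π ^ r))) h4
  rw [Finset.prod_ite, Finset.prod_const_one, one_mul, Finset.prod_const] at h6
  by_contra hcon
  push Not at hcon
  obtain ⟨i₀, k, hk⟩ := hcon
  obtain ⟨s, hs⟩ : ∃ s, (Finset.univ.filter fun i => ¬∃ k : ℤ, a i = k).card = s := ⟨_, rfl⟩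
  have hlt : s < r := by
    rw [← hs]
    have h7 : (Finset.univ.filter fun i => ¬∃ k : ℤ, a i = k) ⊂ Finset.univ := by
      rw [Finset.filter_ssubset]
      exact ⟨i₀, Finset.mem_univ _, fun h => h ⟨k, hk⟩⟩
    have h8 := Finset.card_lt_card h7
    rwa [Finset.card_univ, Fintype.card_fin] at h8
  rw [hs] at h6
  have h7 : π ^ s / π ^ r = (π ^ (r - s))⁻¹ := by
    rw [eq_comm, inv_eq_iff_eq_inv, inv_div, pow_sub₀ _ hpi hlt.le, div_eq_mul_inv]
  rw [h7] at h6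
  have h8 := h6.inv
  rw [inv_inv] at h8
  have h9 : IsAlgebraic ℚ (π : ℂ) := by
    have h10 : IsAlgebraic ℚ (((π ^ (r - s) : ℝ)) : ℂ) := h8.algebraMap
    rw [Complex.ofReal_pow] at h10
    exact h10.of_pow (by omega)
  exact Pool.Agent.H340R2.LW.transcendental_pi_complex h9

/-- All conjugates, arbitrary arguments. -/
theorem AbVar.FermatData.full (hA : A.FermatData ε v τ) {r : ℕ} {a : Fin r → ℚ}
    (hp : ∀ i, ∀ k : ℕ, a i ≠ -k) (hD : ∀ i, ∃ n : ℤ, (D : ℚ) * a i = n)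
    (h : ∀ m : ℕ, 1 ≤ m → m < D → Nat.Coprime m D →
      IsAlgebraic ℚ ((∏ i, Real.Gamma ((m : ℝ) * a i)) / π ^ ((r : ℝ) / 2)))
    (hD3 : 3 ≤ D) (m : ℕ) (hm : Nat.Coprime m D) :
    ∑ i, Int.fract ((m : ℝ) * a i) = r / 2 := by
  have h1 : ∀ i, ∀ n : ℤ, a i ≠ n := by
    refine no_int hD hp (by omega) (h 1 le_rfl (by omega) (Nat.coprime_one_left D)) ?_
    refine h (D - 1) (by omega) (by omega) ?_
    exact (Nat.coprime_self_sub_left (by omega)).2 (Nat.coprime_one_left D)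
  exact hA.half h1 hD (fun m hm1 hm2 hm3 => h m hm1 (by omega) hm3) hD3 m hm

end

end Pool.Agent.Y102
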