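import Mathlib

set_option autoImplicit false
set_option linter.unusedSectionVars false
set_option linter.unusedSimpArgs false
set_option linter.unusedVariables false

/-!
# Irreducible subalgebras of `sl_4` containing a transvection
-/

open Module Matrix

namespace Pool.Agent.Y102.S4

/-- the matrices -/
abbrev M4 := Matrix (Fin 4) (Fin 4) ℂ

/-- An irreducible Lie algebra of matrices of size four, of trace zero, without invariant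
bilinear forms. -/
structure GoodM (L : Submodule ℂ M4) : Prop where
  br : ∀ x ∈ L, ∀ y ∈ L, x * y - y * x ∈ L
  tr : ∀ x ∈ L, x.trace = 0
  irr : ∀ P : Submodule ℂ (Fin 4 → ℂ), (∀ x ∈ L, ∀ v ∈ P, x *ᵥ v ∈ P) → P = ⊥ ∨ P = ⊤
  form : ∀ B : M4, (∀ x ∈ L, xᵀ * B + B * x = 0) → B = 0

def X (a₀ a₁ b₀ b₁ : ℂ) : M4 := !![0, 0, a₀, a₁; 0, 0, 0, 0; 0, b₀, 0, 0; 0, b₁, 0, 0]
def Y (a₀ a₁ b₀ b₁ : ℂ) : M4 := !![0, 0, 0, 0; 0, 0, a₀, a₁; -b₀, 0, 0, 0; -b₁, 0, 0, 0]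
def Z (p q z₀ z₁ z₂ z₃ : ℂ) : M4 := !![p, 0, 0, 0; 0, q, 0, 0; 0, 0, z₀, z₁; 0, 0, z₂, z₃]
def E : M4 := !![0, 1, 0, 0; 0, 0, 0, 0; 0, 0, 0, 0; 0, 0, 0, 0]
def F : M4 := !![0, 0, 0, 0; 1, 0, 0, 0; 0, 0, 0, 0; 0, 0, 0, 0]

theorem ext4 {x y : M4} (h : ∀ i j, x i j = y i j) : x = y := Matrix.ext h

theorem X_add (a₀ a₁ b₀ b₁ c₀ c₁ d₀ d₁ : ℂ) :
    X a₀ a₁ b₀ b₁ + X c₀ c₁ d₀ d₁ = X (a₀ + c₀) (a₁ + c₁) (b₀ + d₀) (b₁ + d₁) := by
  ext i j; fin_cases i <;> fin_cases j <;> simp [X]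

theorem X_smul (c a₀ a₁ b₀ b₁ : ℂ) :
    c • X a₀ a₁ b₀ b₁ = X (c * a₀) (c * a₁) (c * b₀) (c * b₁) := by
  ext i j; fin_cases i <;> fin_cases j <;> simp [X]

theorem FX (a₀ a₁ b₀ b₁ : ℂ) : F * X a₀ a₁ b₀ b₁ - X a₀ a₁ b₀ b₁ * F = Y a₀ a₁ b₀ b₁ := by
  ext i j; fin_cases i <;> fin_cases j <;> simp [X, Y, F, Matrix.mul_apply, Fin.sum_univ_four]

theorem EY (a₀ a₁ b₀ b₁ : ℂ) : E * Y a₀ a₁ b₀ b₁ - Y a₀ a₁ b₀ b₁ * E = X a₀ a₁ b₀ b₁ := by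
  ext i j; fin_cases i <;> fin_cases j <;> simp [X, Y, E, Matrix.mul_apply, Fin.sum_univ_four]

theorem ZX (p q z₀ z₁ z₂ z₃ a₀ a₁ b₀ b₁ : ℂ) :
    Z p q z₀ z₁ z₂ z₃ * X a₀ a₁ b₀ b₁ - X a₀ a₁ b₀ b₁ * Z p q z₀ z₁ z₂ z₃ =
      X (p * a₀ - (a₀ * z₀ + a₁ * z₂)) (p * a₁ - (a₀ * z₁ + a₁ * z₃))
        (z₀ * b₀ + z₁ * b₁ - q * b₀) (z₂ * b₀ + z₃ * b₁ - q * b₁) := by
  ext i j; fin_cases i <;> fin_cases j <;>
    simp [X, Z, Matrix.mul_apply, Fin.sum_univ_four] <;> ring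

theorem XY (a₀ a₁ b₀ b₁ c₀ c₁ d₀ d₁ : ℂ) :
    X a₀ a₁ b₀ b₁ * Y c₀ c₁ d₀ d₁ - Y c₀ c₁ d₀ d₁ * X a₀ a₁ b₀ b₁ =
      Z (-(a₀ * d₀ + a₁ * d₁)) (-(c₀ * b₀ + c₁ * b₁)) (b₀ * c₀ + d₀ * a₀) (b₀ * c₁ + d₀ * a₁)
        (b₁ * c₀ + d₁ * a₀) (b₁ * c₁ + d₁ * a₁) := by
  ext i j; fin_cases i <;> fin_cases j <;>
    simp [X, Y, Z, Matrix.mul_apply, Fin.sum_univ_four] <;> ring

/-- the semisimple element -/
def H4 : M4 := Matrix.diagonal ![1, -1, 0, 0]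

theorem EF : E * F - F * E = H4 := by
  ext i j; fin_cases i <;> fin_cases j <;> simp [E, F, H4, Matrix.mul_apply, Fin.sum_univ_four]

theorem diag_br (d : Fin 4 → ℂ) (x : M4) (i j : Fin 4) :
    (Matrix.diagonal d * x - x * Matrix.diagonal d) i j = (d i - d j) * x i j := by
  rw [Matrix.sub_apply, Matrix.diagonal_mul, Matrix.mul_diagonal]
  ring

theorem H_one {x : M4} (h : H4 * x - x * H4 = x) : x = X (x 0 2) (x 0 3) (x 2 1) (x 3 1) := by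
  have key : ∀ i j, (![1, -1, 0, 0] i - ![1, -1, 0, 0] j) * x i j = x i j := fun i j => by
    rw [← diag_br, ← H4, h]
  ext i j
  have h1 := key i j
  fin_cases i <;> fin_cases j <;> simp [X] at h1 ⊢ <;>
    first
    | exact h1
    | exact h1.symm
    | linear_combination h1
    | linear_combination (-1) * h1
    | linear_combination (1 / 2) * h1
    | linear_combination (-1 / 2) * h1
    | linear_combination (1 / 3) * h1
    | linear_combination (-1 / 3) * h1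

theorem H_neg {x : M4} (h : H4 * x - x * H4 = -x) :
    x = Y (x 1 2) (x 1 3) (-x 2 0) (-x 3 0) := by
  have key : ∀ i j, (![1, -1, 0, 0] i - ![1, -1, 0, 0] j) * x i j = -x i j := fun i j => by
    rw [← diag_br, ← H4, h, Matrix.neg_apply]
  ext i j
  have h1 := key i j
  fin_cases i <;> fin_cases j <;> simp [Y] at h1 ⊢ <;>
    first
    | exact h1
    | exact h1.symm
    | linear_combination h1
    | linear_combination (-1) * h1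
    | linear_combination (1 / 2) * h1
    | linear_combination (-1 / 2) * h1
    | linear_combination (1 / 3) * h1
    | linear_combination (-1 / 3) * h1

theorem H_zero {x : M4} (h : H4 * x - x * H4 = 0) :
    x = Z (x 0 0) (x 1 1) (x 2 2) (x 2 3) (x 3 2) (x 3 3) := by
  have key : ∀ i j, (![1, -1, 0, 0] i - ![1, -1, 0, 0] j) * x i j = 0 := fun i j => by
    rw [← diag_br, ← H4, h, Matrix.zero_apply]
  ext i j
  have h1 := key i j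
  fin_cases i <;> fin_cases j <;> simp [Z] at h1 ⊢ <;>
    first
    | exact h1
    | exact h1.symm
    | linear_combination h1
    | linear_combination (-1) * h1
    | linear_combination (1 / 2) * h1
    | exact h1.resolve_left (by norm_num)
    | linear_combination (-1 / 2) * h1


section Case

variable {L : Submodule ℂ M4}

/-- the linear span of matrix entries -/
theorem mulVec_X (a₀ a₁ b₀ b₁ : ℂ) (v : Fin 4 → ℂ) :
    X a₀ a₁ b₀ b₁ *ᵥ v = ![a₀ * v 2 + a₁ * v 3, 0, b₀ * v 1, b₁ * v 1] := by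
  ext i; fin_cases i <;> simp [X, Matrix.mulVec, dotProduct, Fin.sum_univ_four]

theorem mulVec_Y (a₀ a₁ b₀ b₁ : ℂ) (v : Fin 4 → ℂ) :
    Y a₀ a₁ b₀ b₁ *ᵥ v = ![0, a₀ * v 2 + a₁ * v 3, -b₀ * v 0, -b₁ * v 0] := by
  ext i; fin_cases i <;> simp [Y, Matrix.mulVec, dotProduct, Fin.sum_univ_four]

theorem mulVec_Z (p q z₀ z₁ z₂ z₃ : ℂ) (v : Fin 4 → ℂ) :
    Z p q z₀ z₁ z₂ z₃ *ᵥ v =
      ![p * v 0, q * v 1, z₀ * v 2 + z₁ * v 3, z₂ * v 2 + z₃ * v 3] := by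
  ext i; fin_cases i <;> simp [Z, Matrix.mulVec, dotProduct, Fin.sum_univ_four]

theorem mulVec_E (v : Fin 4 → ℂ) : E *ᵥ v = ![v 1, 0, 0, 0] := by
  ext i; fin_cases i <;> simp [E, Matrix.mulVec, dotProduct, Fin.sum_univ_four]

theorem mulVec_F (v : Fin 4 → ℂ) : F *ᵥ v = ![0, v 0, 0, 0] := by
  ext i; fin_cases i <;> simp [F, Matrix.mulVec, dotProduct, Fin.sum_univ_four]

/-- the graded decomposition, in coordinates -/
def Dec4 (L : Submodule ℂ M4) : Prop := ∀ x ∈ L, ∃ a b : ℂ, ∃ x1 ∈ L, ∃ x0 ∈ L, ∃ y1 ∈ L,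
  x = a • E + x1 + x0 + y1 + b • F ∧ H4 * x1 - x1 * H4 = x1 ∧ H4 * x0 - x0 * H4 = 0 ∧
    H4 * y1 - y1 * H4 = -y1

/-- A subspace is stable if it is stable under the graded pieces. -/
theorem stable (hF : F ∈ L) (hE : E ∈ L) (hL : GoodM L) (hD : Dec4 L) (P : Submodule ℂ (Fin 4 → ℂ))
    (h1 : ∀ v ∈ P, ![v 1, 0, 0, 0] ∈ P) (h2 : ∀ v ∈ P, ![0, v 0, 0, 0] ∈ P)
    (h3 : ∀ a₀ a₁ b₀ b₁, X a₀ a₁ b₀ b₁ ∈ L → ∀ v ∈ P,
      ![a₀ * v 2 + a₁ * v 3, 0, b₀ * v 1, b₁ * v 1] ∈ P)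
    (h4 : ∀ a₀ a₁ b₀ b₁, X a₀ a₁ b₀ b₁ ∈ L → ∀ v ∈ P,
      ![0, a₀ * v 2 + a₁ * v 3, -b₀ * v 0, -b₁ * v 0] ∈ P)
    (h5 : ∀ p q z₀ z₁ z₂ z₃, Z p q z₀ z₁ z₂ z₃ ∈ L → ∀ v ∈ P,
      ![p * v 0, q * v 1, z₀ * v 2 + z₁ * v 3, z₂ * v 2 + z₃ * v 3] ∈ P) :
    P = ⊥ ∨ P = ⊤ := by
  refine hL.irr P fun x hx v hv => ?_
  obtain ⟨a, b, x1, hx1, x0, hx0, y1, hy1, rfl, e1, e0, e2⟩ := hD x hx
  rw [H_one e1] at hx1 ⊢
  rw [H_zero e0] at hx0 ⊢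
  rw [H_neg e2] at hy1 ⊢
  simp only [Matrix.add_mulVec, Matrix.smul_mulVec]
  refine P.add_mem (P.add_mem (P.add_mem (P.add_mem (P.smul_mem _ ?_) ?_) ?_) ?_) (P.smul_mem _ ?_)
  · rw [mulVec_E]; exact h1 v hv
  · rw [mulVec_X]; exact h3 _ _ _ _ hx1 v hv
  · rw [mulVec_Z]; exact h5 _ _ _ _ _ _ hx0 v hv
  · rw [mulVec_Y]
    refine h4 _ _ _ _ ?_ v hv
    rw [← EY]
    exact hL.br _ hE _ hy1
  · rw [mulVec_F]; exact h2 v hv

theorem Y_mem (hF : F ∈ L) (hL : GoodM L) {a₀ a₁ b₀ b₁ : ℂ} (h : X a₀ a₁ b₀ b₁ ∈ L) :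
    Y a₀ a₁ b₀ b₁ ∈ L := by
  rw [← FX]
  exact hL.br _ hF _ h

/-- The second projection is surjective. -/
theorem surj_b (hF : F ∈ L) (hE : E ∈ L) (hL : GoodM L) (hD : Dec4 L) (b₀ b₁ : ℂ) :
    ∃ a₀ a₁, X a₀ a₁ b₀ b₁ ∈ L := by
  have hX0 : X 0 0 0 0 ∈ L := by
    have : X 0 0 0 0 = 0 := by ext i j; fin_cases i <;> fin_cases j <;> simp [X]
    rw [this]; exact L.zero_mem
  let P : Submodule ℂ (Fin 4 → ℂ) :=
    { carrier := {v | ∃ a₀ a₁, X a₀ a₁ (v 2) (v 3) ∈ L}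
      zero_mem' := ⟨0, 0, hX0⟩
      add_mem' := by
        rintro v w ⟨a, a', h⟩ ⟨c, c', h'⟩
        refine ⟨a + c, a' + c', ?_⟩
        have := L.add_mem h h'
        rw [X_add] at this
        exact this
      smul_mem' := by
        rintro c v ⟨a, a', h⟩
        refine ⟨c * a, c * a', ?_⟩
        have := L.smul_mem c h
        rw [X_smul] at this
        exact this }
  have hP : P = ⊥ ∨ P = ⊤ := by
    refine stable hF hE hL hD P ?_ ?_ ?_ ?_ ?_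
    · intro v _; exact ⟨0, 0, by simpa using hX0⟩
    · intro v _; exact ⟨0, 0, by simpa using hX0⟩
    · intro a₀ a₁ b₀ b₁ h v _
      refine ⟨v 1 * a₀, v 1 * a₁, ?_⟩
      have := L.smul_mem (v 1) h
      rw [X_smul] at this
      simpa [mul_comm] using this
    · intro a₀ a₁ b₀ b₁ h v _
      refine ⟨-v 0 * a₀, -v 0 * a₁, ?_⟩
      have := L.smul_mem (-v 0) h
      rw [X_smul] at this
      simpa [mul_comm] using this
    · rintro p q z₀ z₁ z₂ z₃ h v ⟨a₀, a₁, hv⟩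
      have h1 := L.add_mem (hL.br _ h _ hv) (L.smul_mem q hv)
      rw [ZX, X_smul, X_add] at h1
      refine ⟨p * a₀ - (a₀ * z₀ + a₁ * z₂) + q * a₀, p * a₁ - (a₀ * z₁ + a₁ * z₃) + q * a₁, ?_⟩
      simpa using h1
  rcases hP with hP | hP
  · exfalso
    have h1 : (![1, 0, 0, 0] : Fin 4 → ℂ) ∈ P := ⟨0, 0, by simpa using hX0⟩
    rw [hP, Submodule.mem_bot] at h1
    have := congrFun h1 0
    simp at this
  · have h1 : (![0, 0, b₀, b₁] : Fin 4 → ℂ) ∈ P := by rw [hP]; exact Submodule.mem_top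
    obtain ⟨a₀, a₁, h⟩ := h1
    exact ⟨a₀, a₁, by simpa using h⟩

/-- The first projection is nondegenerate. -/
theorem nondeg_a (hF : F ∈ L) (hE : E ∈ L) (hL : GoodM L) (hD : Dec4 L) (v₀ v₁ : ℂ)
    (hv : ∀ a₀ a₁ b₀ b₁, X a₀ a₁ b₀ b₁ ∈ L → a₀ * v₀ + a₁ * v₁ = 0) : v₀ = 0 ∧ v₁ = 0 := by
  let P : Submodule ℂ (Fin 4 → ℂ) :=
    { carrier := {v | v 0 = 0 ∧ v 1 = 0 ∧
        ∀ a₀ a₁ b₀ b₁, X a₀ a₁ b₀ b₁ ∈ L → a₀ * v 2 + a₁ * v 3 = 0}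
      zero_mem' := ⟨rfl, rfl, fun _ _ _ _ _ => by simp⟩
      add_mem' := by
        rintro v w ⟨h1, h2, h3⟩ ⟨h1', h2', h3'⟩
        refine ⟨by simp [h1, h1'], by simp [h2, h2'], fun a₀ a₁ b₀ b₁ h => ?_⟩
        simp only [Pi.add_apply]
        linear_combination h3 _ _ _ _ h + h3' _ _ _ _ h
      smul_mem' := by
        rintro c v ⟨h1, h2, h3⟩
        refine ⟨by simp [h1], by simp [h2], fun a₀ a₁ b₀ b₁ h => ?_⟩
        simp only [Pi.smul_apply, smul_eq_mul]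
        linear_combination c * h3 _ _ _ _ h }
  have hP : P = ⊥ ∨ P = ⊤ := by
    refine stable hF hE hL hD P ?_ ?_ ?_ ?_ ?_
    · rintro v ⟨h1, h2, h3⟩
      refine ⟨by simpa using h2, by simp, fun _ _ _ _ _ => by simp⟩
    · rintro v ⟨h1, h2, h3⟩
      refine ⟨by simp, by simpa using h1, fun _ _ _ _ _ => by simp⟩
    · rintro a₀ a₁ b₀ b₁ h v ⟨h1, h2, h3⟩
      refine ⟨by simpa using h3 _ _ _ _ h, by simp, fun _ _ _ _ _ => by simp [h2]⟩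
    · rintro a₀ a₁ b₀ b₁ h v ⟨h1, h2, h3⟩
      refine ⟨by simp, by simpa using h3 _ _ _ _ h, fun _ _ _ _ _ => by simp [h1]⟩
    · rintro p q z₀ z₁ z₂ z₃ h v ⟨h1, h2, h3⟩
      refine ⟨by simp [h1], by simp [h2], fun a₀ a₁ b₀ b₁ h' => ?_⟩
      have h4 := hL.br _ h _ h'
      rw [ZX] at h4
      have h5 := h3 _ _ _ _ h4
      have h6 := h3 _ _ _ _ h'
      simp only [Matrix.cons_val]
      linear_combination p * h6 - h5
  rcases hP with hP | hP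
  · have h1 : (![0, 0, v₀, v₁] : Fin 4 → ℂ) ∈ P :=
      ⟨by simp, by simp, fun a₀ a₁ b₀ b₁ h => by simpa using hv _ _ _ _ h⟩
    rw [hP, Submodule.mem_bot] at h1
    have e1 := congrFun h1 2
    have e2 := congrFun h1 3
    simp at e1 e2
    exact ⟨e1, e2⟩
  · exfalso
    have h1 : (![1, 0, 0, 0] : Fin 4 → ℂ) ∈ P := by rw [hP]; exact Submodule.mem_top
    have := h1.1
    simp at this

/-- If all graded elements of degree one belong to the algebra, it is everything. -/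
theorem full (hF : F ∈ L) (hE : E ∈ L) (hL : GoodM L)
    (hX : ∀ a₀ a₁ b₀ b₁, X a₀ a₁ b₀ b₁ ∈ L) (x : M4) (hx : x.trace = 0) : x ∈ L := by
  have hY : ∀ a₀ a₁ b₀ b₁, Y a₀ a₁ b₀ b₁ ∈ L := fun _ _ _ _ => Y_mem hF hL (hX _ _ _ _)
  have hZ : ∀ a₀ a₁ b₀ b₁ c₀ c₁ d₀ d₁, Z (-(a₀ * d₀ + a₁ * d₁)) (-(c₀ * b₀ + c₁ * b₁))
      (b₀ * c₀ + d₀ * a₀) (b₀ * c₁ + d₀ * a₁) (b₁ * c₀ + d₁ * a₀) (b₁ * c₁ + d₁ * a₁) ∈ L :=
    fun _ _ _ _ _ _ _ _ => by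
      rw [← XY]
      exact hL.br _ (hX _ _ _ _) _ (hY _ _ _ _)
  have hH : H4 ∈ L := by rw [← EF]; exact hL.br _ hE _ hF
  have h1 := hZ 1 0 0 0 0 0 1 0
  have h2 := hZ 0 1 0 0 0 0 0 1
  have h3 := hZ 0 1 0 0 0 0 1 0
  have h4 := hZ 1 0 0 0 0 0 0 1
  have e1 : x = X (x 0 2) (x 0 3) (x 2 1) (x 3 1) + Y (x 1 2) (x 1 3) (-x 2 0) (-x 3 0) +
      x 0 1 • E + x 1 0 • F + x 2 2 • Z (-(1 * 1 + 0 * 0)) (-(0 * 0 + 0 * 0)) (0 * 0 + 1 * 1)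
        (0 * 0 + 1 * 0) (0 * 0 + 0 * 1) (0 * 0 + 0 * 0) +
      x 3 3 • Z (-(0 * 0 + 1 * 1)) (-(0 * 0 + 0 * 0)) (0 * 0 + 0 * 0) (0 * 0 + 0 * 1)
        (0 * 0 + 1 * 0) (0 * 0 + 1 * 1) +
      x 2 3 • Z (-(0 * 1 + 1 * 0)) (-(0 * 0 + 0 * 0)) (0 * 0 + 1 * 0) (0 * 0 + 1 * 1)
        (0 * 0 + 0 * 0) (0 * 0 + 0 * 1) +
      x 3 2 • Z (-(1 * 0 + 0 * 1)) (-(0 * 0 + 0 * 0)) (0 * 0 + 0 * 1) (0 * 0 + 0 * 0)
        (0 * 0 + 1 * 1) (0 * 0 + 1 * 0) + (-x 1 1) • H4 := by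
    have htr : x 0 0 + x 1 1 + x 2 2 + x 3 3 = 0 := by
      rw [← hx, Matrix.trace, Fin.sum_univ_four]
      rfl
    ext i j
    fin_cases i <;> fin_cases j <;> simp [X, Y, Z, E, F, H4]
    linear_combination htr
  rw [e1]
  exact L.add_mem (L.add_mem (L.add_mem (L.add_mem (L.add_mem (L.add_mem (L.add_mem (L.add_mem
    (hX _ _ _ _) (hY _ _ _ _)) (L.smul_mem _ hE)) (L.smul_mem _ hF)) (L.smul_mem _ h1))
    (L.smul_mem _ h2)) (L.smul_mem _ h3)) (L.smul_mem _ h4)) (L.smul_mem _ hH)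

/-- If the projections are not bijective, the algebra is everything. -/
theorem case_one (hF : F ∈ L) (hE : E ∈ L) (hL : GoodM L) (hD : Dec4 L) {α β : ℂ}
    (hne : ¬(α = 0 ∧ β = 0)) (h0 : X α β 0 0 ∈ L) (x : M4) (hx : x.trace = 0) : x ∈ L := by
  have act : ∀ a₀ a₁ b₀ b₁ c₀ c₁ d₀ d₁ s₀ s₁ t₀ t₁, X a₀ a₁ b₀ b₁ ∈ L → X c₀ c₁ d₀ d₁ ∈ L →
      X s₀ s₁ t₀ t₁ ∈ L →
      X (-(a₀ * d₀ + a₁ * d₁) * s₀ - (s₀ * (b₀ * c₀ + d₀ * a₀) + s₁ * (b₁ * c₀ + d₁ * a₀)))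
        (-(a₀ * d₀ + a₁ * d₁) * s₁ - (s₀ * (b₀ * c₁ + d₀ * a₁) + s₁ * (b₁ * c₁ + d₁ * a₁)))
        ((b₀ * c₀ + d₀ * a₀) * t₀ + (b₀ * c₁ + d₀ * a₁) * t₁ - -(c₀ * b₀ + c₁ * b₁) * t₀)
        ((b₁ * c₀ + d₁ * a₀) * t₀ + (b₁ * c₁ + d₁ * a₁) * t₁ - -(c₀ * b₀ + c₁ * b₁) * t₁) ∈ L := by
    intro a₀ a₁ b₀ b₁ c₀ c₁ d₀ d₁ s₀ s₁ t₀ t₁ h1 h2 h3
    have h4 := hL.br _ (hL.br _ h1 _ (Y_mem hF hL h2)) _ h3
    rw [XY, ZX] at h4
    exact h4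
  -- a vector `b` with `a₀ b = 1`
  obtain ⟨b₀, b₁, hb⟩ : ∃ b₀ b₁ : ℂ, α * b₀ + β * b₁ = 1 := by
    by_cases ha : α = 0
    · have hb : β ≠ 0 := fun hb => hne ⟨ha, hb⟩
      exact ⟨0, β⁻¹, by simp [hb]⟩
    · exact ⟨α⁻¹, 0, by simp [ha]⟩
  obtain ⟨a₀, a₁, hab⟩ := surj_b hF hE hL hD b₀ b₁
  obtain ⟨c₀, c₁, hc⟩ := surj_b hF hE hL hD (-β) α
  have hd : X 0 0 (-β) α ∈ L := by
    have h1 := act _ _ _ _ _ _ _ _ _ _ _ _ h0 hc hab
    have h2 := L.add_mem h1 (L.smul_mem (-a₀ * β + a₁ * α) h0)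
    rw [X_smul, X_add] at h2
    convert h2 using 2
    · ring
    · ring
    · linear_combination β * hb
    · linear_combination (-α) * hb
  -- an element `(a, b)` with `a d ≠ 0`
  obtain ⟨a₀', a₁', b₀', b₁', hab', had⟩ : ∃ a₀ a₁ b₀ b₁, X a₀ a₁ b₀ b₁ ∈ L ∧
      a₀ * (-β) + a₁ * α ≠ 0 := by
    by_contra hcon
    push Not at hcon
    have h1 := nondeg_a hF hE hL hD (-β) α hcon
    exact hne ⟨h1.2, by simpa using h1.1⟩
  obtain ⟨p₀, p₁, q₀, q₁, hpq, hp, hq⟩ : ∃ a₀ a₁ b₀ b₁, X a₀ a₁ b₀ b₁ ∈ L ∧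
      a₀ * (-β) + a₁ * α ≠ 0 ∧ α * b₀ + β * b₁ ≠ 0 := by
    by_cases h1 : α * b₀' + β * b₁' = 0
    · by_cases h2 : a₀ * (-β) + a₁ * α = 0
      · refine ⟨a₀ + a₀', a₁ + a₁', b₀ + b₀', b₁ + b₁', ?_, ?_, ?_⟩
        · rw [← X_add]; exact L.add_mem hab hab'
        · intro h3
          apply had
          linear_combination h3 - h2
        · intro h3
          have : (1 : ℂ) = 0 := by linear_combination h3 - h1 - hb
          exact one_ne_zero this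
      · exact ⟨a₀, a₁, b₀, b₁, hab, h2, by rw [hb]; exact one_ne_zero⟩
    · exact ⟨a₀', a₁', b₀', b₁', hab', had, h1⟩
  obtain ⟨w, hw⟩ : ∃ w : ℂ, w * (p₀ * (-β) + p₁ * α) = 1 := ⟨_, inv_mul_cancel₀ hp⟩
  obtain ⟨w', hw'⟩ : ∃ w : ℂ, w * (α * q₀ + β * q₁) = 1 := ⟨_, inv_mul_cancel₀ hq⟩
  have hq1 : X 0 0 q₀ q₁ ∈ L := by
    have h1 := act _ _ _ _ _ _ _ _ _ _ _ _ hpq hpq hd
    have h2 := L.smul_mem (w / 2) (L.add_mem h1 (L.smul_mem (-(p₀ * q₀ + p₁ * q₁)) hd))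
    rw [X_smul, X_add, X_smul] at h2
    convert h2 using 2
    · ring
    · ring
    · linear_combination (-q₀) * hw
    · linear_combination (-q₁) * hw
  have hX0 : ∀ t₀ t₁, X 0 0 t₀ t₁ ∈ L := by
    intro t₀ t₁
    have h2 := L.smul_mem w' (L.add_mem (L.smul_mem (α * t₀ + β * t₁) hq1)
      (L.smul_mem (q₀ * t₁ - q₁ * t₀) hd))
    rw [X_smul, X_smul, X_add, X_smul] at h2
    convert h2 using 2
    · ring
    · ring
    · linear_combination (-t₀) * hw'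
    · linear_combination (-t₁) * hw'
  have hp1 : X p₀ p₁ 0 0 ∈ L := by
    have h2 := L.add_mem hpq (hX0 (-q₀) (-q₁))
    rw [X_add] at h2
    simpa using h2
  have hX1 : ∀ s₀ s₁, X s₀ s₁ 0 0 ∈ L := by
    intro s₀ s₁
    have h2 := L.smul_mem w (L.add_mem (L.smul_mem (s₁ * α - s₀ * β) hp1)
      (L.smul_mem (s₀ * p₁ - s₁ * p₀) h0))
    rw [X_smul, X_smul, X_add, X_smul] at h2
    convert h2 using 2
    · linear_combination (-s₀) * hw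
    · linear_combination (-s₁) * hw
    · ring
    · ring
  refine full hF hE hL (fun s₀ s₁ t₀ t₁ => ?_) x hx
  have h2 := L.add_mem (hX1 s₀ s₁) (hX0 t₀ t₁)
  rw [X_add] at h2
  simpa using h2

/-- If the projections are bijective, there is an invariant form. -/
theorem case_two (hF : F ∈ L) (hE : E ∈ L) (hL : GoodM L) (hD : Dec4 L)
    (h0 : ∀ α β, X α β 0 0 ∈ L → α = 0 ∧ β = 0) : False := by
  have key : ∀ a₀ a₁ b₀ b₁, X a₀ a₁ b₀ b₁ ∈ L → a₀ * b₀ + a₁ * b₁ = 0 := by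
    intro a₀ a₁ b₀ b₁ h1
    by_contra hne
    have h4 := hL.br _ (hL.br _ h1 _ (Y_mem hF hL h1)) _ h1
    rw [XY, ZX] at h4
    have h5 := L.add_mem h4 (L.smul_mem (-3 * (a₀ * b₀ + a₁ * b₁)) h1)
    rw [X_smul, X_add] at h5
    have h6 : X (a₀ * (-6 * (a₀ * b₀ + a₁ * b₁))) (a₁ * (-6 * (a₀ * b₀ + a₁ * b₁))) 0 0 ∈ L := by
      convert h5 using 2 <;> ring
    have h7 := h0 _ _ h6
    have h8 : (-6 * (a₀ * b₀ + a₁ * b₁)) ≠ 0 := mul_ne_zero (by norm_num) hne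
    have e0 : a₀ = 0 := (mul_eq_zero.1 h7.1).resolve_right h8
    have e1 : a₁ = 0 := (mul_eq_zero.1 h7.2).resolve_right h8
    apply hne
    rw [e0, e1]
    ring
  obtain ⟨u₀, j, h1⟩ := surj_b hF hE hL hD 1 0
  obtain ⟨u, v, h2⟩ := surj_b hF hE hL hD 0 1
  have e1 : u₀ = 0 := by have := key _ _ _ _ h1; simpa using this
  have e2 : v = 0 := by have := key _ _ _ _ h2; simpa using this
  subst e1 e2
  have e3 : u = -j := by
    have h3 := L.add_mem h1 h2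
    rw [X_add] at h3
    have := key _ _ _ _ h3
    linear_combination this
  subst e3
  have rel : ∀ a₀ a₁ b₀ b₁, X a₀ a₁ b₀ b₁ ∈ L → a₀ = -j * b₁ ∧ a₁ = j * b₀ := by
    intro a₀ a₁ b₀ b₁ h
    have h3 := L.add_mem h (L.add_mem (L.smul_mem (-b₀) h1) (L.smul_mem (-b₁) h2))
    rw [X_smul, X_smul, X_add, X_add] at h3
    have h4 : X (a₀ + b₁ * j) (a₁ - b₀ * j) 0 0 ∈ L := by
      convert h3 using 2 <;> ring
    have h5 := h0 _ _ h4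
    exact ⟨by linear_combination h5.1, by linear_combination h5.2⟩
  have hj : j ≠ 0 := by
    rintro rfl
    have h3 := nondeg_a hF hE hL hD 1 0 fun a₀ a₁ b₀ b₁ h => by
      obtain ⟨r1, r2⟩ := rel _ _ _ _ h
      rw [r1, r2]
      ring
    exact one_ne_zero h3.1
  have hz : ∀ p q z₀ z₁ z₂ z₃, Z p q z₀ z₁ z₂ z₃ ∈ L → p + q = 0 ∧ z₀ + z₃ = 0 := by
    intro p q z₀ z₁ z₂ z₃ h
    have htr := hL.tr _ h
    rw [Matrix.trace, Fin.sum_univ_four] at htr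
    simp [Z] at htr
    have h3 := hL.br _ h _ h1
    rw [ZX] at h3
    obtain ⟨r1, r2⟩ := rel _ _ _ _ h3
    have h4 : (z₀ + z₃ - (p + q)) * j = 0 := by linear_combination -r2
    have h5 := (mul_eq_zero.1 h4).resolve_right hj
    constructor
    · linear_combination (1 / 2) * htr - (1 / 2) * h5
    · linear_combination (1 / 2) * htr + (1 / 2) * h5
  have hB := hL.form !![0, 1, 0, 0; -1, 0, 0, 0; 0, 0, 0, j; 0, 0, -j, 0] fun x hx => by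
    obtain ⟨a, b, x1, hx1, x0, hx0, y1, hy1, rfl, e1, e0, e2⟩ := hD x hx
    have hy1' : X (y1 1 2) (y1 1 3) (-y1 2 0) (-y1 3 0) ∈ L := by
      rw [← EY]
      rw [H_neg e2] at hy1
      exact hL.br _ hE _ hy1
    obtain ⟨r1, r2⟩ := rel _ _ _ _ (by rw [H_one e1] at hx1; exact hx1)
    obtain ⟨r3, r4⟩ := rel _ _ _ _ hy1'
    obtain ⟨r5, r6⟩ := hz _ _ _ _ _ _ (by rw [H_zero e0] at hx0; exact hx0)
    rw [H_one e1, H_zero e0, H_neg e2, r1, r2, r3, r4]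
    ext i k
    fin_cases i <;> fin_cases k <;>
      simp [X, Y, Z, E, F, Matrix.mul_apply, Fin.sum_univ_four] <;> ring_nf
    · linear_combination r5
    · linear_combination -r5
    · linear_combination j * r6
    · linear_combination (-j) * r6
  have := congrFun (congrFun hB 0) 1
  simp at this

/-- An irreducible Lie algebra of matrices of size four without invariant forms, which contains
the elementary nilpotent matrices and is graded accordingly, is everything. -/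
theorem caseC (hF : F ∈ L) (hE : E ∈ L) (hL : GoodM L) (hD : Dec4 L) (x : M4)
    (hx : x.trace = 0) : x ∈ L := by
  by_cases h : ∃ α β, ¬(α = 0 ∧ β = 0) ∧ X α β 0 0 ∈ L
  · obtain ⟨α, β, h1, h2⟩ := h
    exact case_one hF hE hL hD h1 h2 x hx
  · exfalso
    refine case_two hF hE hL hD fun α β h1 => ?_
    by_contra h2
    exact h ⟨α, β, h2, h1⟩

end Case

end Pool.Agent.Y102.S4
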