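import Pool.Agent.Y102.V1
import Pool.Agent.Y102.V2

set_option autoImplicit false
set_option linter.unusedSectionVars false
set_option linter.unusedSimpArgs false
set_option linter.unusedVariables false

/-!
# Irreducible Lie algebras of endomorphisms of a space of dimension four
-/

open Module LieAlgebra LieModule LieAlgebra.IsKilling

namespace Pool.Agent.Y102.S4

attribute [local instance 100] LieRing.ofAssociativeRing

variable {U : Type} [AddCommGroup U] [Module ℂ U] [FiniteDimensional ℂ U]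

/-- An irreducible Lie algebra of endomorphisms of trace zero, without invariant
bilinear forms. -/
structure Good (L : Submodule ℂ (Module.End ℂ U)) : Prop where
  br : ∀ x ∈ L, ∀ y ∈ L, x * y - y * x ∈ L
  tr : ∀ x ∈ L, LinearMap.trace ℂ U x = 0
  irr : ∀ P : Submodule ℂ U, (∀ x ∈ L, ∀ v ∈ P, x v ∈ P) → P = ⊥ ∨ P = ⊤
  form : ∀ B : U →ₗ[ℂ] U →ₗ[ℂ] ℂ, (∀ x ∈ L, ∀ u v, B (x u) v + B u (x v) = 0) → B = 0

variable {L : Submodule ℂ (Module.End ℂ U)}

/-- the Lie subalgebra -/
def Good.lie (hL : Good L) : LieSubalgebra ℂ (Module.End ℂ U) :=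
  { L with lie_mem' := fun {x y} hx hy => hL.br x hx y hy }

theorem Good.mem_lie (hL : Good L) {x : Module.End ℂ U} : x ∈ hL.lie ↔ x ∈ L := Iff.rfl

theorem Good.isIrreducible (hL : Good L) [Nontrivial U] : LieModule.IsIrreducible ℂ hL.lie U := by
  refine LieModule.IsIrreducible.mk fun N hN => ?_
  have h1 := hL.irr N.toSubmodule fun x hx v hv => by
    have : ⁅(⟨x, hx⟩ : hL.lie), v⁆ ∈ N := N.lie_mem hv
    exact this
  rcases h1 with h1 | h1
  · exact absurd (by simpa using h1) hN
  · simpa using h1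

theorem Good.isKilling (hL : Good L) [Nontrivial U] : IsKilling ℂ hL.lie := by
  have := hL.isIrreducible
  have : HasTrivialRadical ℂ hL.lie :=
    hasTrivialRadical_of_isIrreducible_of_isFaithful ℂ hL.lie U fun x => hL.tr x.1 x.2
  infer_instance

/-- the graded decomposition -/
def DecU (L : Submodule ℂ (Module.End ℂ U)) (h e f : Module.End ℂ U) : Prop :=
  ∀ x ∈ L, ∃ a b : ℂ, ∃ x1 ∈ L, ∃ x0 ∈ L, ∃ y1 ∈ L,
  x = a • e + x1 + x0 + y1 + b • f ∧ h * x1 - x1 * h = x1 ∧ h * x0 - x0 * h = 0 ∧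
    h * y1 - y1 * h = -y1

theorem Good.exists_triple (hL : Good L) (hU : finrank ℂ U = 4) :
    ∃ h e f : Module.End ℂ U, h ∈ L ∧ e ∈ L ∧ f ∈ L ∧ IsSl2Triple h e f ∧ DecU L h e f := by
  have : Nontrivial U := Module.nontrivial_of_finrank_pos (R := ℂ) (by rw [hU]; norm_num)
  have := hL.isKilling
  have : Nontrivial hL.lie := by
    by_contra hcon
    rw [not_nontrivial_iff_subsingleton] at hcon
    have h0 : ∀ x ∈ L, x = 0 := fun x hx =>
      congrArg Subtype.val (Subsingleton.elim (⟨x, hx⟩ : hL.lie) 0)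
    obtain ⟨u, hu⟩ := exists_ne (0 : U)
    have h1 := hL.irr (Submodule.span ℂ {u}) fun x hx v hv => by
      rw [h0 x hx, LinearMap.zero_apply]; exact Submodule.zero_mem _
    rcases h1 with h1 | h1
    · rw [Submodule.span_singleton_eq_bot] at h1
      exact hu h1
    · have h2 := finrank_span_singleton (K := ℂ) hu
      rw [h1, finrank_top, hU] at h2
      norm_num at h2
  obtain ⟨h, e, f, t, hd⟩ := exists_long (L := hL.lie)
  refine ⟨h, e, f, h.2, e.2, f.2, ⟨?_, ?_, ?_, ?_⟩, fun x hx => ?_⟩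
  · intro h0
    exact t.h_ne_zero (Subtype.ext h0)
  · exact congrArg Subtype.val t.lie_e_f
  · exact congrArg Subtype.val t.lie_h_e_nsmul
  · exact congrArg Subtype.val t.lie_h_f_nsmul
  · obtain ⟨a, b, x1, x0, y1, h1, h2, h3, h4⟩ := hd ⟨x, hx⟩
    exact ⟨a, b, x1, x1.2, x0, x0.2, y1, y1.2, congrArg Subtype.val h1,
      congrArg Subtype.val h2, congrArg Subtype.val h3, congrArg Subtype.val h4⟩

/-- The semisimple element is diagonalizable. -/
theorem Good.span_eig (hL : Good L) {h e f : Module.End ℂ U} (t : IsSl2Triple h e f)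
    (hD : DecU L h e f) [Nontrivial U] (S : Submodule ℂ U) (hS : S ≠ ⊤) :
    ∃ u : U, u ∉ S ∧ ∃ μ : ℂ, h u = μ • u := by
  have he : h * e - e * h = (2 : ℂ) • e := by
    have := t.lie_h_e_smul ℂ
    exact this
  have hf : h * f - f * h = -((2 : ℂ) • f) := by
    have := t.lie_lie_smul_f ℂ
    exact this
  have key : ∀ (c μ : ℂ) (x : Module.End ℂ U) (u : U), h * x - x * h = c • x → h u = μ • u →
      h (x u) = (μ + c) • x u := by
    intro c μ x u hx hu
    have h1 := LinearMap.congr_fun hx u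
    rw [LinearMap.sub_apply, Module.End.mul_apply, Module.End.mul_apply, hu, map_smul,
      LinearMap.smul_apply] at h1
    rw [add_smul, ← h1]
    abel
  by_contra hcon
  push Not at hcon
  let P : Submodule ℂ U := Submodule.span ℂ {u | ∃ μ : ℂ, h u = μ • u}
  have hP : P = ⊥ ∨ P = ⊤ := by
    refine hL.irr P fun x hx v hv => ?_
    induction hv using Submodule.span_induction with
    | mem u hu =>
      obtain ⟨μ, hu⟩ := hu
      obtain ⟨a, b, x1, hx1, x0, hx0, y1, hy1, rfl, e1, e0, e2⟩ := hD x hx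
      simp only [LinearMap.add_apply, LinearMap.smul_apply]
      refine P.add_mem (P.add_mem (P.add_mem (P.add_mem (P.smul_mem _ ?_) ?_) ?_) ?_)
        (P.smul_mem _ ?_)
      · exact Submodule.subset_span ⟨_, key 2 μ e u he hu⟩
      · exact Submodule.subset_span ⟨_, key 1 μ x1 u (by rw [e1, one_smul]) hu⟩
      · exact Submodule.subset_span ⟨_, key 0 μ x0 u (by rw [e0, zero_smul]) hu⟩
      · exact Submodule.subset_span ⟨_, key (-1) μ y1 u (by rw [e2, neg_smul, one_smul]) hu⟩
      · exact Submodule.subset_span ⟨_, key (-2) μ f u (by rw [hf, neg_smul]) hu⟩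
    | zero => rw [map_zero]; exact P.zero_mem
    | add a b _ _ ha hb => rw [map_add]; exact P.add_mem ha hb
    | smul c a _ ha => rw [map_smul]; exact P.smul_mem c ha
  rcases hP with hP | hP
  · obtain ⟨μ, hμ⟩ := Module.End.exists_eigenvalue h
    obtain ⟨v, hv⟩ := hμ.exists_hasEigenvector
    have h1 : v ∈ P := Submodule.subset_span ⟨μ, hv.apply_eq_smul⟩
    rw [hP, Submodule.mem_bot] at h1
    exact hv.2 h1
  · apply hS
    rw [eq_top_iff, ← hP]
    refine Submodule.span_le.2 fun u hu => ?_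
    obtain ⟨μ, hu⟩ := hu
    by_contra h1
    exact hcon u h1 μ hu

/-- Every eigenvector gives rise to a primitive vector. -/
theorem exists_prim {h e f : Module.End ℂ U} (t : IsSl2Triple h e f) {u : U} (hu : u ≠ 0) {μ : ℂ}
    (hμ : h u = μ • u) : ∃ (n k : ℕ) (v : U), t.HasPrimitiveVectorWith v (n : ℂ) ∧ μ = n - 2 * k := by
  have hlie : ∀ n : ℕ, ⁅h, ((toEnd ℂ (Module.End ℂ U) U e) ^ n) u⁆ =
      (μ + 2 * n) • ((toEnd ℂ (Module.End ℂ U) U e) ^ n) u :=
    fun n => t.lie_h_pow_toEnd_e (m := u) (μ := μ) hμ n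
  let evals (n : ℕ) : ℂ := μ + 2 * (n : ℂ)
  let e_vecs (n : ℕ) : U := ((toEnd ℂ (Module.End ℂ U) U e) ^ n) u
  have h_exists_zero : ∃ k, e_vecs k = 0 := by
    by_contra! contra
    have h_inj : Function.Injective evals := fun a b hab ↦ by
      simpa [evals, add_right_inj, mul_eq_mul_left_iff, Nat.cast_inj] using hab
    have aux (μ : Set.range evals) : (toEnd ℂ (Module.End ℂ U) U h).HasEigenvector μ
        (e_vecs μ.property.choose) := by
      set n := μ.property.choose
      refine ⟨?_, contra n⟩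
      rw [Module.End.mem_eigenspace_iff, toEnd_apply_apply, ← μ.property.choose_spec]
      exact hlie n
    have _i := ((toEnd ℂ (Module.End ℂ U) U h).eigenvectors_linearIndependent
      (Set.range evals) _ aux).finite
    exact (Set.infinite_range_of_injective h_inj) (Set.toFinite _)
  obtain ⟨n, hn_ne, hn_zero⟩ := Nat.exists_not_and_succ_of_not_zero_of_exists
    (p := fun k => e_vecs k = 0) hu h_exists_zero
  have hP : t.HasPrimitiveVectorWith (e_vecs n) (evals n) :=
    { ne_zero := hn_ne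
      lie_h := hlie n
      lie_e := by rwa [IsSl2Triple.lie_e_pow_toEnd_e n] }
  obtain ⟨m, hm⟩ := hP.exists_nat
  refine ⟨m, n, e_vecs n, by rw [← hm]; exact hP, ?_⟩
  have : evals n = μ + 2 * (n : ℂ) := rfl
  rw [← hm, this]
  ring

end Pool.Agent.Y102.S4
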