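import Pool.Agent.Y102.V2

set_option autoImplicit false
set_option linter.unusedSectionVars false
set_option linter.unusedSimpArgs false
set_option linter.unusedVariables false

/-!
# The other gradings
-/

open Module Matrix

namespace Pool.Agent.Y102.S4

/-- the graded decomposition -/
def DecM (L : Submodule ℂ M4) (h e f : M4) : Prop :=
  ∀ x ∈ L, ∃ a b : ℂ, ∃ x1 ∈ L, ∃ x0 ∈ L, ∃ y1 ∈ L,
  x = a • e + x1 + x0 + y1 + b • f ∧ h * x1 - x1 * h = x1 ∧ h * x0 - x0 * h = 0 ∧
    h * y1 - y1 * h = -y1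

theorem ent_one {d : Fin 4 → ℂ} {x : M4} (h : diagonal d * x - x * diagonal d = x) {i j : Fin 4}
    (hne : d i - d j ≠ 1) : x i j = 0 := by
  have h1 : (d i - d j) * x i j = x i j := by rw [← diag_br, h]
  have h2 : (d i - d j - 1) * x i j = 0 := by linear_combination h1
  exact (mul_eq_zero.1 h2).resolve_left (sub_ne_zero.2 hne)

theorem ent_zero {d : Fin 4 → ℂ} {x : M4} (h : diagonal d * x - x * diagonal d = 0) {i j : Fin 4}
    (hne : d i - d j ≠ 0) : x i j = 0 := by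
  have h1 : (d i - d j) * x i j = 0 := by rw [← diag_br, h]; rfl
  exact (mul_eq_zero.1 h1).resolve_left hne

theorem ent_neg {d : Fin 4 → ℂ} {x : M4} (h : diagonal d * x - x * diagonal d = -x) {i j : Fin 4}
    (hne : d i - d j ≠ -1) : x i j = 0 := by
  have h1 : (d i - d j) * x i j = -x i j := by rw [← diag_br, h]; rfl
  have h2 : (d i - d j - (-1)) * x i j = 0 := by linear_combination h1
  exact (mul_eq_zero.1 h2).resolve_left (sub_ne_zero.2 hne)

theorem one_eq_zero {d : Fin 4 → ℂ} {x : M4} (h : diagonal d * x - x * diagonal d = x)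
    (hd : ∀ i j, d i - d j ≠ 1) : x = 0 := by
  ext i j
  exact ent_one h (hd i j)

theorem neg_eq_zero' {d : Fin 4 → ℂ} {x : M4} (h : diagonal d * x - x * diagonal d = -x)
    (hd : ∀ i j, d i - d j ≠ 1) : x = 0 := by
  ext i j
  refine ent_neg h fun h1 => hd j i ?_
  linear_combination -h1

section

variable {L : Submodule ℂ M4}

/-- Type `(4)`. -/
theorem case3 (hL : GoodM L) (hE : (!![0, 3, 0, 0; 0, 0, 4, 0; 0, 0, 0, 3; 0, 0, 0, 0] : M4) ∈ L)
    (hD : DecM L (diagonal ![3, 1, -1, -3]) !![0, 3, 0, 0; 0, 0, 4, 0; 0, 0, 0, 3; 0, 0, 0, 0]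
      !![0, 0, 0, 0; 1, 0, 0, 0; 0, 1, 0, 0; 0, 0, 1, 0]) : False := by
  have hodd : ∀ i j : Fin 4, (![3, 1, -1, -3] : Fin 4 → ℂ) i - ![3, 1, -1, -3] j ≠ 1 := by
    intro i j
    fin_cases i <;> fin_cases j <;> norm_num
  have key : ∀ x ∈ L, (diagonal ![3, 1, -1, -3] * x - x * diagonal ![3, 1, -1, -3] = 0) →
      ∃ c : ℂ, x = c • diagonal ![3, 1, -1, -3] := by
    intro x hx h0
    have hz : ∀ i j : Fin 4, i ≠ j → x i j = 0 := by
      intro i j hij
      refine ent_zero h0 ?_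
      fin_cases i <;> fin_cases j <;> first | exact absurd rfl hij | norm_num
    have h1 := hL.br _ hx _ hE
    obtain ⟨a, b, x1, hx1, x0, hx0, y1, hy1, h2, e1, e0, e2⟩ := hD _ h1
    rw [one_eq_zero e1 hodd, neg_eq_zero' e2 hodd] at h2
    have g1 := congrFun (congrFun h2 0) 1
    have g2 := congrFun (congrFun h2 1) 2
    have g3 := congrFun (congrFun h2 2) 3
    have z1 : x0 0 1 = 0 := ent_zero e0 (by simp <;> norm_num)
    have z2 : x0 1 2 = 0 := ent_zero e0 (by simp <;> norm_num)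
    have z3 : x0 2 3 = 0 := ent_zero e0 (by simp <;> norm_num)
    simp only [Matrix.sub_apply, Matrix.mul_apply, Fin.sum_univ_four, Matrix.add_apply,
      Matrix.smul_apply, Matrix.zero_apply, z1, z2, z3] at g1 g2 g3
    simp at g1 g2 g3
    have htr := hL.tr _ hx
    rw [Matrix.trace, Fin.sum_univ_four] at htr
    simp only [Matrix.diag] at htr
    refine ⟨a / 2, ?_⟩
    ext i j
    by_cases hij : i = j
    · subst hij
      fin_cases i <;> simp
      · linear_combination (1 / 4) * htr + (1 / 4) * g1 + (1 / 8) * g2 + (1 / 12) * g3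
      · linear_combination (1 / 4) * htr - (1 / 12) * g1 + (1 / 8) * g2 + (1 / 12) * g3
      · linear_combination (1 / 4) * htr - (1 / 12) * g1 - (1 / 8) * g2 + (1 / 12) * g3
      · linear_combination (1 / 4) * htr - (1 / 12) * g1 - (1 / 8) * g2 - (1 / 4) * g3
    · rw [hz i j hij, Matrix.smul_apply, Matrix.diagonal_apply_ne _ hij, smul_zero]
  have hB := hL.form !![0, 0, 0, 1; 0, 0, -1, 0; 0, 1, 0, 0; -1, 0, 0, 0] fun x hx => by
    obtain ⟨a, b, x1, hx1, x0, hx0, y1, hy1, h2, e1, e0, e2⟩ := hD _ hx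
    rw [one_eq_zero e1 hodd, neg_eq_zero' e2 hodd] at h2
    obtain ⟨c, rfl⟩ := key _ hx0 e0
    rw [h2]
    ext i k
    simp only [Matrix.add_apply, Matrix.mul_apply, Fin.sum_univ_four, Matrix.transpose_apply,
      Matrix.smul_apply, Matrix.zero_apply, smul_eq_mul, Matrix.diagonal_apply]
    fin_cases i <;> fin_cases k <;> simp <;> ring
  have := congrFun (congrFun hB 0) 3
  simp at this

/-- Type `(2, 2)`. -/
theorem case1 (hL : GoodM L) (hE : (!![0, 0, 1, 0; 0, 0, 0, 1; 0, 0, 0, 0; 0, 0, 0, 0] : M4) ∈ L)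
    (hD : DecM L (diagonal ![1, 1, -1, -1]) !![0, 0, 1, 0; 0, 0, 0, 1; 0, 0, 0, 0; 0, 0, 0, 0]
      !![0, 0, 0, 0; 0, 0, 0, 0; 1, 0, 0, 0; 0, 1, 0, 0]) : False := by
  have hodd : ∀ i j : Fin 4, (![1, 1, -1, -1] : Fin 4 → ℂ) i - ![1, 1, -1, -1] j ≠ 1 := by
    intro i j
    fin_cases i <;> fin_cases j <;> norm_num
  have hB := hL.form !![0, 0, 0, 1; 0, 0, -1, 0; 0, -1, 0, 0; 1, 0, 0, 0] fun x hx => by
    obtain ⟨a, b, x1, hx1, x0, hx0, y1, hy1, h2, e1, e0, e2⟩ := hD _ hx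
    rw [one_eq_zero e1 hodd, neg_eq_zero' e2 hodd] at h2
    have w1 : x0 0 2 = 0 := ent_zero e0 (by simp <;> norm_num)
    have w2 : x0 0 3 = 0 := ent_zero e0 (by simp <;> norm_num)
    have w3 : x0 1 2 = 0 := ent_zero e0 (by simp <;> norm_num)
    have w4 : x0 1 3 = 0 := ent_zero e0 (by simp <;> norm_num)
    have w5 : x0 2 0 = 0 := ent_zero e0 (by simp <;> norm_num)
    have w6 : x0 2 1 = 0 := ent_zero e0 (by simp <;> norm_num)
    have w7 : x0 3 0 = 0 := ent_zero e0 (by simp <;> norm_num)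
    have w8 : x0 3 1 = 0 := ent_zero e0 (by simp <;> norm_num)
    have h3 := hL.br _ hx0 _ hE
    obtain ⟨a', b', x1', hx1', x0', hx0', y1', hy1', h4, e1', e0', e2'⟩ := hD _ h3
    rw [one_eq_zero e1' hodd, neg_eq_zero' e2' hodd] at h4
    have g1 := congrFun (congrFun h4 0) 2
    have g2 := congrFun (congrFun h4 0) 3
    have g3 := congrFun (congrFun h4 1) 2
    have g4 := congrFun (congrFun h4 1) 3
    have z1 : x0' 0 2 = 0 := ent_zero e0' (by simp <;> norm_num)
    have z2 : x0' 0 3 = 0 := ent_zero e0' (by simp <;> norm_num)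
    have z3 : x0' 1 2 = 0 := ent_zero e0' (by simp <;> norm_num)
    have z4 : x0' 1 3 = 0 := ent_zero e0' (by simp <;> norm_num)
    simp only [Matrix.sub_apply, Matrix.mul_apply, Fin.sum_univ_four, Matrix.add_apply,
      Matrix.smul_apply, Matrix.zero_apply, z1, z2, z3, z4] at g1 g2 g3 g4
    simp at g1 g2 g3 g4
    have htr := hL.tr _ hx0
    rw [Matrix.trace, Fin.sum_univ_four] at htr
    simp only [Matrix.diag] at htr
    rw [h2]
    ext i k
    simp only [Matrix.add_apply, Matrix.mul_apply, Fin.sum_univ_four, Matrix.transpose_apply,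
      Matrix.smul_apply, Matrix.zero_apply, smul_eq_mul]
    fin_cases i <;> fin_cases k <;> simp [w1, w2, w3, w4, w5, w6, w7, w8]
    all_goals first
      | linear_combination g2
      | linear_combination -g2
      | linear_combination g3
      | linear_combination -g3
      | linear_combination (1 / 2) * htr + (1 / 2) * g1 - (1 / 2) * g4
      | linear_combination (-1 / 2) * htr + (1 / 2) * g1 - (1 / 2) * g4
  have := congrFun (congrFun hB 0) 3
  simp at this

/-- Type `(3, 1)`. -/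
theorem case2 (hL : GoodM L) {μ ν : ℂ}
    (hF : (!![0, 0, 0, 0; 1, 0, 0, 0; 0, 1, 0, ν; 0, 0, 0, 0] : M4) ∈ L)
    (hD : DecM L (diagonal ![2, 0, -2, 0]) !![0, 2, 0, μ; 0, 0, 2, 0; 0, 0, 0, 0; 0, 0, 0, 0]
      !![0, 0, 0, 0; 1, 0, 0, 0; 0, 1, 0, ν; 0, 0, 0, 0]) : False := by
  have hodd : ∀ i j : Fin 4, (![2, 0, -2, 0] : Fin 4 → ℂ) i - ![2, 0, -2, 0] j ≠ 1 := by
    intro i j
    fin_cases i <;> fin_cases j <;> norm_num
  let P : Submodule ℂ (Fin 4 → ℂ) :=
    { carrier := {v | v 3 = 0}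
      zero_mem' := rfl
      add_mem' := fun {v w} hv hw => by
        show v 3 + w 3 = 0
        rw [show v 3 = 0 from hv, show w 3 = 0 from hw, add_zero]
      smul_mem' := fun c v hv => by
        show c * v 3 = 0
        rw [show v 3 = 0 from hv, mul_zero] }
  have hP := hL.irr P fun x hx v hv => by
    have hv3 : v 3 = 0 := hv
    obtain ⟨a, b, x1, hx1, x0, hx0, y1, hy1, h2, e1, e0, e2⟩ := hD _ hx
    rw [one_eq_zero e1 hodd, neg_eq_zero' e2 hodd] at h2
    have w1 : x0 3 0 = 0 := ent_zero e0 (by simp <;> norm_num)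
    have w2 : x0 3 2 = 0 := ent_zero e0 (by simp <;> norm_num)
    have h3 := hL.br _ hx0 _ hF
    obtain ⟨a', b', x1', hx1', x0', hx0', y1', hy1', h4, e1', e0', e2'⟩ := hD _ h3
    rw [one_eq_zero e1' hodd, neg_eq_zero' e2' hodd] at h4
    have g1 := congrFun (congrFun h4 3) 0
    have z1 : x0' 3 0 = 0 := ent_zero e0' (by simp <;> norm_num)
    simp only [Matrix.sub_apply, Matrix.mul_apply, Fin.sum_univ_four, Matrix.add_apply,
      Matrix.smul_apply, Matrix.zero_apply, z1] at g1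
    simp at g1
    show (x *ᵥ v) 3 = 0
    rw [h2]
    simp [Matrix.mulVec, dotProduct, Fin.sum_univ_four, w1, w2, g1, hv3]
  rcases hP with hP | hP
  · have h1 : (![1, 0, 0, 0] : Fin 4 → ℂ) ∈ P := by
      show (![1, 0, 0, 0] : Fin 4 → ℂ) 3 = 0
      simp
    rw [hP, Submodule.mem_bot] at h1
    have := congrFun h1 0
    simp at this
  · have h1 : (![0, 0, 0, 1] : Fin 4 → ℂ) ∈ P := by rw [hP]; exact Submodule.mem_top
    have h2 : (![0, 0, 0, 1] : Fin 4 → ℂ) 3 = 0 := h1
    simp at h2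

end

end Pool.Agent.Y102.S4
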