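import Pool.Agent.Y102.V3
import Pool.Agent.Y102.V4

set_option autoImplicit false
set_option linter.unusedSectionVars false
set_option linter.unusedSimpArgs false
set_option linter.unusedVariables false

/-!
# Irreducible Lie algebras of endomorphisms of a space of dimension four without invariant forms
-/

open Module LieAlgebra LieModule LieAlgebra.IsKilling Matrix

namespace Pool.Agent.Y102.S4

attribute [local instance 100] LieRing.ofAssociativeRing

variable {U : Type} [AddCommGroup U] [Module ℂ U] [FiniteDimensional ℂ U]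
variable {L : Submodule ℂ (Module.End ℂ U)}

/-- the algebra in coordinates -/
noncomputable def Lm (b : Basis (Fin 4) ℂ U) (L : Submodule ℂ (Module.End ℂ U)) : Submodule ℂ M4 :=
  L.comap (Matrix.toLin b b).toLinearMap

theorem mem_Lm {b : Basis (Fin 4) ℂ U} {x : M4} : x ∈ Lm b L ↔ Matrix.toLin b b x ∈ L := Iff.rfl

theorem toM_mem {b : Basis (Fin 4) ℂ U} {x : Module.End ℂ U} (hx : x ∈ L) :
    LinearMap.toMatrix b b x ∈ Lm b L := by
  rw [mem_Lm, Matrix.toLin_toMatrix]
  exact hx

theorem toM_mul (b : Basis (Fin 4) ℂ U) (x y : Module.End ℂ U) :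
    LinearMap.toMatrix b b (x * y) = LinearMap.toMatrix b b x * LinearMap.toMatrix b b y :=
  LinearMap.toMatrix_mul b x y

theorem goodM (b : Basis (Fin 4) ℂ U) (hL : Good L) : GoodM (Lm b L) where
  br := fun x hx y hy => by
    have h1 := hL.br _ hx _ hy
    rw [mem_Lm, map_sub]
    have e1 : Matrix.toLin b b (x * y) = Matrix.toLin b b x * Matrix.toLin b b y :=
      Matrix.toLin_mul b b b x y
    have e2 : Matrix.toLin b b (y * x) = Matrix.toLin b b y * Matrix.toLin b b x :=
      Matrix.toLin_mul b b b y x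
    rw [e1, e2]
    exact h1
  tr := fun x hx => by
    have h1 := hL.tr _ hx
    have h2 : LinearMap.trace ℂ U (Matrix.toLin b b x) = x.trace := by
      rw [LinearMap.trace_eq_matrix_trace ℂ b, LinearMap.toMatrix_toLin]
    rw [← h2]
    exact h1
  irr := fun P hP => by
    have h1 := hL.irr (P.comap b.equivFun.toLinearMap) fun x hx v hv => by
      have h2 := hP _ (toM_mem (b := b) hx) _ hv
      have h3 : LinearMap.toMatrix b b x *ᵥ (b.equivFun v) = b.equivFun (x v) := by
        have := LinearMap.toMatrix_mulVec_repr b b x v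
        exact this
      rw [LinearEquiv.coe_coe, h3] at h2
      exact h2
    have h4 : Function.Surjective (b.equivFun.toLinearMap : U →ₗ[ℂ] (Fin 4 → ℂ)) :=
      b.equivFun.surjective
    rcases h1 with h1 | h1
    · left
      rw [eq_bot_iff]
      intro v hv
      obtain ⟨u, rfl⟩ := h4 v
      have h5 : u ∈ P.comap b.equivFun.toLinearMap := hv
      rw [h1, Submodule.mem_bot] at h5
      rw [h5, map_zero]
      exact Submodule.zero_mem _
    · right
      rw [eq_top_iff]
      intro v _
      obtain ⟨u, rfl⟩ := h4 v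
      have h5 : u ∈ P.comap b.equivFun.toLinearMap := by rw [h1]; exact Submodule.mem_top
      exact h5
  form := fun B hB => by
    let φ : U →ₗ[ℂ] U →ₗ[ℂ] ℂ := LinearMap.mk₂ ℂ
      (fun u v => b.equivFun u ⬝ᵥ (B *ᵥ b.equivFun v))
      (fun u u' v => by rw [map_add, add_dotProduct])
      (fun c u v => by rw [map_smul, smul_dotProduct])
      (fun u v v' => by rw [map_add, Matrix.mulVec_add, dotProduct_add])
      (fun c u v => by rw [map_smul, Matrix.mulVec_smul, dotProduct_smul])
    have hφ : ∀ u v, φ u v = b.equivFun u ⬝ᵥ (B *ᵥ b.equivFun v) := fun u v => rfl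
    have h1 := hL.form φ fun x hx u v => by
      have h2 := hB _ (toM_mem (b := b) hx)
      have h3 : ∀ v, b.equivFun (x v) = LinearMap.toMatrix b b x *ᵥ (b.equivFun v) := fun v => by
        have := LinearMap.toMatrix_mulVec_repr b b x v
        exact this.symm
      rw [hφ, hφ, h3, h3]
      have h4 : (LinearMap.toMatrix b b x *ᵥ (b.equivFun u)) ⬝ᵥ (B *ᵥ b.equivFun v) =
          b.equivFun u ⬝ᵥ (((LinearMap.toMatrix b b x)ᵀ * B) *ᵥ b.equivFun v) := by
        rw [← Matrix.mulVec_mulVec, Matrix.dotProduct_mulVec (b.equivFun u)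
          ((LinearMap.toMatrix b b x)ᵀ), Matrix.vecMul_transpose]
      have h5 : b.equivFun u ⬝ᵥ (B *ᵥ (LinearMap.toMatrix b b x *ᵥ b.equivFun v)) =
          b.equivFun u ⬝ᵥ ((B * LinearMap.toMatrix b b x) *ᵥ b.equivFun v) := by
        rw [Matrix.mulVec_mulVec]
      rw [h4, h5, ← dotProduct_add, ← Matrix.add_mulVec, h2, Matrix.zero_mulVec, dotProduct_zero]
    ext i j
    have h2 := LinearMap.congr_fun (LinearMap.congr_fun h1 (b i)) (b j)
    have h3 : ∀ k, b.equivFun (b k) = Pi.single k 1 := fun k => by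
      ext l
      simp [Finsupp.single_apply, Pi.single_apply, eq_comm]
    rw [hφ, h3, h3, Matrix.mulVec_single_one, single_one_dotProduct] at h2
    simpa using h2

theorem decM (b : Basis (Fin 4) ℂ U) {h e f : Module.End ℂ U} (hD : DecU L h e f) :
    DecM (Lm b L) (LinearMap.toMatrix b b h) (LinearMap.toMatrix b b e)
      (LinearMap.toMatrix b b f) := by
  intro x hx
  obtain ⟨a, c, x1, hx1, x0, hx0, y1, hy1, h1, h2, h3, h4⟩ := hD _ hx
  refine ⟨a, c, _, toM_mem hx1, _, toM_mem hx0, _, toM_mem hy1, ?_, ?_, ?_, ?_⟩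
  · rw [← map_smul, ← map_smul, ← map_add, ← map_add, ← map_add, ← map_add, ← h1,
      LinearEquiv.coe_coe, LinearMap.toMatrix_toLin]
  · rw [← toM_mul, ← toM_mul, ← map_sub, h2]
  · rw [← toM_mul, ← toM_mul, ← map_sub, h3, map_zero]
  · rw [← toM_mul, ← toM_mul, ← map_sub, h4, map_neg]

/-- a column of the matrix -/
theorem col (b : Basis (Fin 4) ℂ U) (T : Module.End ℂ U) (j : Fin 4) (w : Fin 4 → ℂ)
    (h : T (b j) = ∑ i, w i • b i) (i : Fin 4) : LinearMap.toMatrix b b T i j = w i := by
  rw [LinearMap.toMatrix_apply, h]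
  exact congrFun (b.equivFun_symm_apply w ▸ b.equivFun.apply_symm_apply w) i

end Pool.Agent.Y102.S4
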